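import Pool.Agent.Q268.MQ.Stm

set_option autoImplicit false

/-! Job BOR: Borel summation from the Tauberian lemma. -/

namespace Pool.Agent.Q268.MQ

open Complex Filter Topology MeasureTheory Set

lemma norm_pow_exp (w : ℂ) (n : ℕ) (T : ℝ) (hT : 0 ≤ T) :
    ‖(T:ℂ) ^ n * cexp (-w * T)‖ = T ^ n * Real.exp (-w.re * T) := by
  rw [norm_mul, norm_pow, Complex.norm_exp, Complex.norm_real, Real.norm_of_nonneg hT]
  congr 2
  simp

lemma int_pow_exp (w : ℂ) (hw : 0 < w.re) (n : ℕ) :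
    IntegrableOn (fun T : ℝ => (T:ℂ) ^ n * cexp (-w * T)) (Ioi 0) := by
  have h := integrableOn_rpow_mul_exp_neg_mul_rpow (s := n) (p := 1) (b := w.re)
    (by have : (0:ℝ) ≤ n := Nat.cast_nonneg n
        linarith) one_pos hw
  refine Integrable.mono' h (Continuous.aestronglyMeasurable (by fun_prop)) ?_
  rw [ae_restrict_iff' measurableSet_Ioi]
  refine Eventually.of_forall (fun T hT => ?_)
  have hT' : (0:ℝ) < T := hT
  rw [norm_pow_exp w n T hT'.le, Real.rpow_natCast, Real.rpow_one]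

lemma tendsto_pow_exp (w : ℂ) (hw : 0 < w.re) (n : ℕ) :
    Tendsto (fun T : ℝ => (T:ℂ) ^ n * cexp (-w * T)) atTop (𝓝 0) := by
  have h := tendsto_rpow_mul_exp_neg_mul_atTop_nhds_zero n w.re hw
  apply squeeze_zero_norm' _ h
  filter_upwards [eventually_ge_atTop 0] with T hT
  rw [norm_pow_exp w n T hT, Real.rpow_natCast]

lemma int_pow_exp_eq (w : ℂ) (hw : 0 < w.re) (n : ℕ) :
    ∫ T in Ioi (0:ℝ), (T:ℂ) ^ n * cexp (-w * T) = n.factorial / w ^ (n + 1) := by
  have hw0 : w ≠ 0 := fun h => by rw [h] at hw; simp at hw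
  induction n with
  | zero =>
    have := integral_exp_mul_complex_Ioi (a := -w) (by simpa using hw) 0
    simp only [pow_zero, one_mul, Nat.factorial_zero, Nat.cast_one, zero_add, pow_one]
    rw [this]
    simp [div_eq_mul_inv]
  | succ n ih =>
    have hder : ∀ x ∈ Ici (0:ℝ), HasDerivAt (fun T : ℝ => (T:ℂ) ^ (n + 1) * cexp (-w * T))
        (((n + 1 : ℕ) : ℂ) * ((x:ℂ) ^ n * cexp (-w * x)) - w * ((x:ℂ) ^ (n + 1) * cexp (-w * x))) x := by
      intro x _
      have h1 : HasDerivAt (fun z : ℂ => z ^ (n + 1) * cexp (-w * z))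
          (((n + 1 : ℕ) : ℂ) * ((x:ℂ) ^ n * cexp (-w * x)) - w * ((x:ℂ) ^ (n + 1) * cexp (-w * x))) (x:ℂ) := by
        have h2 : HasDerivAt (fun z : ℂ => cexp (-w * z)) (cexp (-w * x) * (-w * 1)) (x:ℂ) :=
          ((hasDerivAt_id (x:ℂ)).const_mul (-w)).cexp
        have h3 := (hasDerivAt_pow (n + 1) (x:ℂ)).mul h2
        refine h3.congr_deriv ?_
        simp only [Nat.add_sub_cancel]
        ring
      exact h1.comp_ofReal
    have hint := ((int_pow_exp w hw n).const_mul ((n + 1 : ℕ) : ℂ)).sub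
      ((int_pow_exp w hw (n + 1)).const_mul w)
    have h4 := integral_Ioi_of_hasDerivAt_of_tendsto' hder hint (tendsto_pow_exp w hw (n + 1))
    rw [integral_sub ((int_pow_exp w hw n).const_mul ((n + 1 : ℕ) : ℂ))
      ((int_pow_exp w hw (n + 1)).const_mul w), integral_const_mul, integral_const_mul, ih] at h4
    have h5 : (0:ℂ) - ((0:ℝ):ℂ) ^ (n + 1) * cexp (-w * ((0:ℝ):ℂ)) = 0 := by simp
    rw [h5, sub_eq_zero] at h4
    rw [Nat.factorial_succ]
    have h6 : w * ∫ T in Ioi (0:ℝ), (T:ℂ) ^ (n + 1) * cexp (-w * T) =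
        w * (((n + 1) * n.factorial : ℕ) / w ^ (n + 1 + 1)) := by
      rw [← h4]
      push_cast
      field_simp
      ring
    exact mul_left_cancel₀ hw0 h6

lemma int_pow_exp_real (r : ℝ) (hr : 0 < r) (n : ℕ) :
    ∫ T in Ioi (0:ℝ), T ^ n * Real.exp (-r * T) = n.factorial / r ^ (n + 1) := by
  have h := int_pow_exp_eq (r : ℂ) (by simpa using hr) n
  have h2 : ∀ T : ℝ, (T:ℂ) ^ n * cexp (-(r:ℂ) * T) = ((T ^ n * Real.exp (-r * T) : ℝ) : ℂ) := by
    intro T; push_cast; rfl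
  simp_rw [h2] at h
  have h4 : ∫ T in Ioi (0:ℝ), ((T ^ n * Real.exp (-r * T) : ℝ) : ℂ) =
      ((∫ T in Ioi (0:ℝ), T ^ n * Real.exp (-r * T) : ℝ) : ℂ) := integral_ofReal
  rw [h4] at h
  have h3 : ((n.factorial : ℂ) / (r:ℂ) ^ (n + 1)) = ((n.factorial / r ^ (n + 1) : ℝ) : ℂ) := by
    push_cast; rfl
  rw [h3] at h
  exact_mod_cast h

section
variable {c : ℕ → ℂ} (hc : ∀ n, ‖c n‖ ≤ 4 * 6 ^ n)
include hc

lemma term_bound (t : ℂ) (n : ℕ) :
    ‖c n / (n.factorial : ℂ) * t ^ n‖ ≤ 4 * ((6 * ‖t‖) ^ n / n.factorial) := by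
  rw [norm_mul, norm_div, norm_pow, norm_natCast, mul_pow]
  have hf : (0:ℝ) < n.factorial := by exact_mod_cast n.factorial_pos
  calc ‖c n‖ / n.factorial * ‖t‖ ^ n ≤ (4 * 6 ^ n) / n.factorial * ‖t‖ ^ n := by
        gcongr
        exact hc n
    _ = _ := by ring

lemma summ (t : ℂ) : Summable (fun n : ℕ => c n / (n.factorial : ℂ) * t ^ n) :=
  Summable.of_norm_bounded ((Real.summable_pow_div_factorial _).mul_left 4) (term_bound hc t)

lemma L_bound (t : ℂ) : ‖∑' n : ℕ, c n / (n.factorial : ℂ) * t ^ n‖ ≤ 4 * Real.exp (6 * ‖t‖) := by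
  have h1 : HasSum (fun n : ℕ => 4 * ((6 * ‖t‖) ^ n / n.factorial)) (4 * Real.exp (6 * ‖t‖)) := by
    rw [Real.exp_eq_exp_ℝ]
    exact (NormedSpace.expSeries_div_hasSum_exp (6 * ‖t‖)).mul_left 4
  exact tsum_of_norm_bounded h1 (term_bound hc t)

lemma L_cont : Continuous (fun t : ℝ => ∑' n : ℕ, c n / (n.factorial : ℂ) * (t:ℂ) ^ n) := by
  rw [continuous_iff_continuousAt]
  intro t0
  have h : ContinuousOn (fun t : ℝ => ∑' n : ℕ, c n / (n.factorial : ℂ) * (t:ℂ) ^ n)
      (Metric.ball 0 (|t0| + 1)) := by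
    apply continuousOn_tsum (u := fun n => 4 * ((6 * (|t0| + 1)) ^ n / n.factorial))
    · intro n
      apply Continuous.continuousOn
      fun_prop
    · exact (Real.summable_pow_div_factorial _).mul_left 4
    · intro n x hx
      refine (term_bound hc x n).trans ?_
      rw [mem_ball_zero_iff] at hx
      rw [Complex.norm_real]
      gcongr
  apply h.continuousAt
  apply Metric.isOpen_ball.mem_nhds
  rw [mem_ball_zero_iff, Real.norm_eq_abs]
  linarith

lemma laplace_L {φ : ℂ → ℂ} (hs : ∀ s : ℂ, ‖s‖ < 1 / 6 → HasSum (fun n : ℕ => c n * s ^ n) (φ s))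
    (w : ℂ) (hw : 7 < w.re) :
    ∫ T in Ioi (0:ℝ), (∑' n : ℕ, c n / (n.factorial : ℂ) * (T:ℂ) ^ n) * cexp (-w * T) =
      φ (1 / w) / w := by
  have hw0 : w ≠ 0 := fun h => by rw [h] at hw; norm_num at hw
  have hwn : 7 < ‖w‖ := hw.trans_le (Complex.re_le_norm w)
  have h1 : HasSum (fun n : ℕ => ∫ T in Ioi (0:ℝ), c n / (n.factorial : ℂ) * ((T:ℂ) ^ n * cexp (-w * T)))
      (∫ T in Ioi (0:ℝ), ∑' n : ℕ, c n / (n.factorial : ℂ) * ((T:ℂ) ^ n * cexp (-w * T))) := by
    apply hasSum_integral_of_summable_integral_norm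
    · intro n
      exact (int_pow_exp w (by linarith) n).const_mul _
    · have h2 : ∀ n : ℕ, ∫ T in Ioi (0:ℝ), ‖c n / (n.factorial : ℂ) * ((T:ℂ) ^ n * cexp (-w * T))‖ =
          ‖c n‖ / w.re ^ (n + 1) := by
        intro n
        have hf : (0:ℝ) < n.factorial := by exact_mod_cast n.factorial_pos
        rw [setIntegral_congr_fun (g := fun T => ‖c n / (n.factorial : ℂ)‖ *
          (T ^ n * Real.exp (-w.re * T))) measurableSet_Ioi]
        · rw [integral_const_mul, int_pow_exp_real _ (by linarith), norm_div, norm_natCast]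
          field_simp
        · intro T hT
          have hT' : (0:ℝ) < T := hT
          simp only
          rw [norm_mul, norm_pow_exp w n T hT'.le]
      simp_rw [h2]
      have h3 : Summable (fun n : ℕ => (4:ℝ) * (6 / 7) ^ n) :=
        (summable_geometric_of_lt_one (by norm_num) (by norm_num)).mul_left 4
      refine Summable.of_nonneg_of_le (fun n => by positivity) (fun n => ?_) h3
      rw [div_le_iff₀ (by positivity), div_pow]
      have h4 : (7:ℝ) ^ n ≤ w.re ^ (n + 1) := by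
        calc (7:ℝ) ^ n ≤ 7 ^ (n + 1) := pow_le_pow_right₀ (by norm_num) (Nat.le_succ n)
          _ ≤ w.re ^ (n + 1) := pow_le_pow_left₀ (by norm_num) hw.le _
      calc ‖c n‖ ≤ 4 * 6 ^ n := hc n
        _ = 4 * (6 ^ n / 7 ^ n) * 7 ^ n := by field_simp
        _ ≤ 4 * (6 ^ n / 7 ^ n) * w.re ^ (n + 1) := by gcongr
  have h5 : ∀ n : ℕ, ∫ T in Ioi (0:ℝ), c n / (n.factorial : ℂ) * ((T:ℂ) ^ n * cexp (-w * T)) =
      c n * (1 / w) ^ n * (1 / w) := by
    intro n
    have hf : (n.factorial : ℂ) ≠ 0 := by exact_mod_cast n.factorial_ne_zero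
    rw [integral_const_mul, int_pow_exp_eq w (by linarith), one_div, inv_pow]
    field_simp
    ring
  simp_rw [h5] at h1
  have h6 := (hs (1 / w) (by
    rw [norm_div, norm_one]
    apply one_div_lt_one_div_of_lt (by norm_num)
    linarith)).mul_right (1 / w)
  have h7 := h1.unique h6
  rw [div_eq_mul_one_div, ← h7]
  apply integral_congr_ae
  refine Eventually.of_forall (fun T => ?_)
  simp only
  rw [← tsum_mul_right]
  apply tsum_congr
  intro n
  ring

end

lemma exp_integrable {f : ℝ → ℂ} (hf : Continuous f) {A b : ℝ} (hb : b < 0)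
    (hbd : ∀ T : ℝ, 0 ≤ T → ‖f T‖ ≤ A * Real.exp (b * T)) : IntegrableOn f (Ioi 0) := by
  have h := (integrableOn_exp_mul_Ioi hb 0).const_mul A
  refine Integrable.mono' h hf.aestronglyMeasurable ?_
  rw [ae_restrict_iff' measurableSet_Ioi]
  refine Eventually.of_forall (fun T hT => ?_)
  have hT' : (0:ℝ) < T := hT
  exact hbd T hT'.le

lemma exp_tendsto {f : ℝ → ℂ} {A b : ℝ} (hb : b < 0)
    (hbd : ∀ T : ℝ, 0 ≤ T → ‖f T‖ ≤ A * Real.exp (b * T)) : Tendsto f atTop (𝓝 0) := by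
  have h1 : Tendsto (fun T : ℝ => A * Real.exp (b * T)) atTop (𝓝 (A * 0)) := by
    apply Tendsto.const_mul
    apply Real.tendsto_exp_atBot.comp
    exact tendsto_id.const_mul_atTop_of_neg hb
  rw [mul_zero] at h1
  apply squeeze_zero_norm' _ h1
  filter_upwards [eventually_ge_atTop 0] with T hT using hbd T hT

lemma halfplane_facts (v : ℂ) (hv : 0 ≤ v.re) : 1 ≤ ‖1 + v‖ ∧ ‖v‖ ≤ ‖1 + v‖ ∧ 1 / (1 + v) ∈ cd ∧
    (0 < v.re → 1 / (1 + v) ∈ Metric.ball (1 / 2 : ℂ) (1 / 2)) := by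
  have h1 : 1 ≤ ‖1 + v‖ := by
    have := Complex.re_le_norm (1 + v)
    simp only [add_re, one_re] at this
    linarith
  have hsq : ∀ z : ℂ, ‖z‖ ^ 2 = z.re ^ 2 + z.im ^ 2 := by
    intro z; rw [← Complex.normSq_eq_norm_sq, Complex.normSq_apply]; ring
  have h2 : ‖v‖ ≤ ‖1 + v‖ := by
    apply le_of_sq_le_sq _ (norm_nonneg _)
    rw [hsq, hsq]
    simp only [add_re, one_re, add_im, one_im, zero_add]
    nlinarith
  have h0 : 1 + v ≠ 0 := by
    intro h; rw [h, norm_zero] at h1; linarith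
  have e : 1 / (1 + v) - 1 / 2 = (1 - v) / (2 * (1 + v)) := by
    field_simp; ring
  have hp : 0 < ‖1 + v‖ := by linarith
  have hn : ‖1 / (1 + v) - 1 / 2‖ = ‖1 - v‖ / (2 * ‖1 + v‖) := by
    rw [e, norm_div, norm_mul]; norm_num
  refine ⟨h1, h2, ?_, ?_⟩
  · show ‖1 / (1 + v) - 1 / 2‖ ≤ 1 / 2
    rw [hn, div_le_iff₀ (by positivity)]
    have : ‖1 - v‖ ≤ ‖1 + v‖ := by
      apply le_of_sq_le_sq _ (norm_nonneg _)
      rw [hsq, hsq]
      simp only [add_re, one_re, add_im, one_im, zero_add, sub_re, sub_im, zero_sub]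
      nlinarith
    linarith
  · intro hv'
    rw [Metric.mem_ball, dist_eq_norm, hn, div_lt_iff₀ (by positivity)]
    have : ‖1 - v‖ < ‖1 + v‖ := by
      apply lt_of_pow_lt_pow_left₀ 2 (norm_nonneg _)
      rw [hsq, hsq]
      simp only [add_re, one_re, add_im, one_im, zero_add, sub_re, sub_im, zero_sub]
      nlinarith
    linarith

lemma bor_core (h : S_TAUB) (φ : ℂ → ℂ) (L : ℝ → ℂ) (hLc : Continuous L)
    (hLb : ∀ t : ℝ, 0 ≤ t → ‖L t‖ ≤ 4 * Real.exp (6 * t))
    (hLap : ∀ w : ℂ, 7 < w.re → ∫ T in Ioi (0:ℝ), L T * cexp (-w * T) = φ (1 / w) / w)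
    (hd : DifferentiableOn ℂ φ (Metric.ball (1 / 2) (1 / 2))) (hcont : ContinuousOn φ cd)
    (hhol : ∃ C α : ℝ, 0 < α ∧ ∀ s ∈ cd, ‖φ s - φ 1‖ ≤ C * ‖s - 1‖ ^ α) :
    Tendsto (fun T : ℝ => ∫ t in (0 : ℝ)..T, L t * cexp (-(t : ℂ))) atTop (𝓝 (φ 1)) := by
  obtain ⟨C, α, hα, hC⟩ := hhol
  -- the compact disc
  have hcomp : IsCompact cd := by
    have : cd = Metric.closedBall (1 / 2 : ℂ) (1 / 2) := by
      ext z; simp [cd, Metric.mem_closedBall, dist_eq_norm]
    rw [this]; exact isCompact_closedBall _ _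
  have h1cd : (1:ℂ) ∈ cd := by show ‖(1:ℂ) - 1 / 2‖ ≤ 1 / 2; norm_num
  obtain ⟨M, hM⟩ := hcomp.exists_bound_of_continuousOn hcont
  have hM0 : 0 ≤ M := (norm_nonneg _).trans (hM 1 h1cd)
  set N1 : ℝ := ‖φ 1‖ with hN1
  have hN0 : 0 ≤ N1 := norm_nonneg _
  set g : ℝ → ℂ := fun t => (L t - φ 1) * cexp (-(t:ℂ)) with hg
  have hgc : Continuous g := by
    apply Continuous.mul (hLc.sub continuous_const)
    fun_prop
  have hgb : ∀ t : ℝ, 0 ≤ t → ‖g t‖ ≤ (4 + N1) * Real.exp (5 * t) := by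
    intro t ht
    have h1 : ‖g t‖ = ‖L t - φ 1‖ * Real.exp (-t) := by
      rw [hg]; simp only; rw [norm_mul, Complex.norm_exp]; simp
    rw [h1]
    have h2 : ‖L t - φ 1‖ ≤ (4 + N1) * Real.exp (6 * t) := by
      have h3 := norm_sub_le (L t) (φ 1)
      have h4 := hLb t ht
      have h5 : 1 ≤ Real.exp (6 * t) := Real.one_le_exp (by linarith)
      have h6 : N1 ≤ N1 * Real.exp (6 * t) := le_mul_of_one_le_right hN0 h5
      calc ‖L t - φ 1‖ ≤ ‖L t‖ + ‖φ 1‖ := h3
        _ ≤ 4 * Real.exp (6 * t) + N1 * Real.exp (6 * t) := add_le_add h4 h6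
        _ = _ := by ring
    calc ‖L t - φ 1‖ * Real.exp (-t) ≤ ((4 + N1) * Real.exp (6 * t)) * Real.exp (-t) :=
          mul_le_mul_of_nonneg_right h2 (Real.exp_nonneg _)
      _ = (4 + N1) * (Real.exp (6 * t) * Real.exp (-t)) := by ring
      _ = _ := by rw [← Real.exp_add]; congr 2; ring
  set G : ℝ → ℂ := fun T => ∫ t in (0:ℝ)..T, g t with hG
  have hGd : ∀ T, HasDerivAt G (g T) T := fun T =>
    intervalIntegral.integral_hasDerivAt_right (hgc.intervalIntegrable _ _)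
      (hgc.stronglyMeasurableAtFilter _ _) hgc.continuousAt
  have hGc : Continuous G := continuous_iff_continuousAt.2 (fun T => (hGd T).continuousAt)
  have hG0 : G 0 = 0 := by simp [hG]
  have hGb : ∀ T : ℝ, 0 ≤ T → ‖G T‖ ≤ (4 + N1) * Real.exp (6 * T) := by
    intro T hT
    have h1 : ‖G T‖ ≤ ((4 + N1) * Real.exp (5 * T)) * |T - 0| := by
      apply intervalIntegral.norm_integral_le_of_norm_le_const
      intro x hx
      rw [uIoc_of_le hT] at hx
      refine (hgb x hx.1.le).trans ?_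
      have h2 : Real.exp (5 * x) ≤ Real.exp (5 * T) := Real.exp_le_exp.2 (by linarith [hx.2])
      gcongr
    have h3 : T ≤ Real.exp T := by linarith [Real.add_one_le_exp T]
    rw [sub_zero, abs_of_nonneg hT] at h1
    calc ‖G T‖ ≤ (4 + N1) * Real.exp (5 * T) * T := h1
      _ ≤ (4 + N1) * Real.exp (5 * T) * Real.exp T := by gcongr
      _ = (4 + N1) * (Real.exp (5 * T) * Real.exp T) := by ring
      _ = _ := by rw [← Real.exp_add]; congr 2; ring
  set H : ℂ → ℂ := fun v => (φ (1 / (1 + v)) - φ 1) / ((1 + v) * v) with hH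
  have hexp : ∀ (v : ℂ) (T : ℝ), ‖cexp (-v * T)‖ = Real.exp (-v.re * T) := by
    intro v T
    rw [Complex.norm_exp]; congr 1; simp
  have hHeq : ∀ v : ℂ, 6 < v.re → H v = ∫ T in Ioi (0 : ℝ), cexp (-v * T) * G T := by
    intro v hv
    have hv0 : v ≠ 0 := fun h => by rw [h] at hv; norm_num at hv
    have hv1 : 1 + v ≠ 0 := fun h => by
      have := congrArg Complex.re h
      simp only [add_re, one_re, zero_re] at this
      linarith
    have hce : Continuous (fun T : ℝ => cexp (-v * T)) := by fun_prop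
    have hb1 : ∀ T : ℝ, 0 ≤ T → ‖cexp (-v * T) * G T‖ ≤ (4 + N1) * Real.exp ((6 - v.re) * T) := by
      intro T hT
      rw [norm_mul, hexp]
      calc Real.exp (-v.re * T) * ‖G T‖ ≤ Real.exp (-v.re * T) * ((4 + N1) * Real.exp (6 * T)) :=
            mul_le_mul_of_nonneg_left (hGb T hT) (Real.exp_nonneg _)
        _ = (4 + N1) * (Real.exp (-v.re * T) * Real.exp (6 * T)) := by ring
        _ = _ := by rw [← Real.exp_add]; congr 2; ring
    have hb2 : ∀ T : ℝ, 0 ≤ T → ‖cexp (-v * T) * g T‖ ≤ (4 + N1) * Real.exp ((5 - v.re) * T) := by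
      intro T hT
      rw [norm_mul, hexp]
      calc Real.exp (-v.re * T) * ‖g T‖ ≤ Real.exp (-v.re * T) * ((4 + N1) * Real.exp (5 * T)) :=
            mul_le_mul_of_nonneg_left (hgb T hT) (Real.exp_nonneg _)
        _ = (4 + N1) * (Real.exp (-v.re * T) * Real.exp (5 * T)) := by ring
        _ = _ := by rw [← Real.exp_add]; congr 2; ring
    have hi1 : IntegrableOn (fun T : ℝ => cexp (-v * T) * G T) (Ioi 0) :=
      exp_integrable (hce.mul hGc) (by linarith) hb1
    have hi2 : IntegrableOn (fun T : ℝ => cexp (-v * T) * g T) (Ioi 0) :=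
      exp_integrable (hce.mul hgc) (by linarith) hb2
    have ht1 : Tendsto (fun T : ℝ => cexp (-v * T) * G T) atTop (𝓝 0) :=
      exp_tendsto (by linarith) hb1
    have hder : ∀ x ∈ Ici (0:ℝ), HasDerivAt (fun T : ℝ => cexp (-v * T) * G T)
        (-v * (cexp (-v * x) * G x) + cexp (-v * x) * g x) x := by
      intro x _
      have h2 : HasDerivAt (fun z : ℂ => cexp (-v * z)) (cexp (-v * x) * (-v * 1)) (x:ℂ) :=
        ((hasDerivAt_id (x:ℂ)).const_mul (-v)).cexp
      have h3 := h2.comp_ofReal.mul (hGd x)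
      refine h3.congr_deriv ?_
      ring
    have h4 := integral_Ioi_of_hasDerivAt_of_tendsto' hder ((hi1.const_mul (-v)).add hi2) ht1
    rw [integral_add (hi1.const_mul (-v)) hi2, integral_const_mul] at h4
    simp only [ofReal_zero, mul_zero, Complex.exp_zero, hG0, sub_zero] at h4
    -- Laplace transform of g
    have h5 : ∫ T in Ioi (0:ℝ), cexp (-v * T) * g T = (φ (1 / (1 + v)) - φ 1) / (1 + v) := by
      have hw : 7 < (1 + v).re := by simp only [add_re, one_re]; linarith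
      have h6 := hLap (1 + v) hw
      have h7 : ∫ T in Ioi (0:ℝ), cexp (-(1 + v) * T) = 1 / (1 + v) := by
        have := int_pow_exp_eq (1 + v) (by linarith) 0
        simpa using this
      have hi3 : IntegrableOn (fun T : ℝ => L T * cexp (-(1 + v) * T)) (Ioi 0) := by
        apply exp_integrable (A := 4) (b := 5 - v.re) (hLc.mul (by fun_prop)) (by linarith)
        intro T hT
        show ‖L T * cexp (-(1 + v) * T)‖ ≤ _
        rw [norm_mul, hexp]
        calc ‖L T‖ * Real.exp (-(1 + v).re * T) ≤ (4 * Real.exp (6 * T)) * Real.exp (-(1 + v).re * T) :=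
              mul_le_mul_of_nonneg_right (hLb T hT) (Real.exp_nonneg _)
          _ = 4 * (Real.exp (6 * T) * Real.exp (-(1 + v).re * T)) := by ring
          _ = _ := by
              rw [← Real.exp_add]; congr 2
              simp only [add_re, one_re]; ring
      have hi4 : IntegrableOn (fun T : ℝ => cexp (-(1 + v) * T)) (Ioi 0) := by
        have := int_pow_exp (1 + v) (by linarith) 0
        simpa using this
      have h8 : ∫ T in Ioi (0:ℝ), cexp (-v * T) * g T =
          ∫ T in Ioi (0:ℝ), (L T * cexp (-(1 + v) * T) - φ 1 * cexp (-(1 + v) * T)) := by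
        apply integral_congr_ae
        refine Eventually.of_forall (fun T => ?_)
        simp only [hg]
        have : cexp (-(1 + v) * T) = cexp (-(T:ℂ)) * cexp (-v * T) := by
          rw [← Complex.exp_add]; congr 1; ring
        rw [this]; ring
      rw [h8, integral_sub hi3 (hi4.const_mul _), integral_const_mul, h6, h7]
      ring
    rw [h5] at h4
    have h9 : v * ∫ T in Ioi (0:ℝ), cexp (-v * T) * G T = (φ (1 / (1 + v)) - φ 1) / (1 + v) := by
      linear_combination (-1) * h4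
    have h10 : v * H v = (φ (1 / (1 + v)) - φ 1) / (1 + v) := by
      rw [hH]; simp only; field_simp
    exact mul_left_cancel₀ hv0 (h10.trans h9.symm)
  -- regularity
  have hHd : DifferentiableOn ℂ H {v | 0 < v.re} := by
    intro v hv
    have hv' : 0 < v.re := hv
    obtain ⟨f1, f2, f3, f4⟩ := halfplane_facts v hv'.le
    have hv1 : 1 + v ≠ 0 := fun h => by rw [h, norm_zero] at f1; linarith
    have hv0 : v ≠ 0 := fun h => by rw [h] at hv'; norm_num at hv'
    have hφ : DifferentiableAt ℂ φ (1 / (1 + v)) :=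
      (hd _ (f4 hv')).differentiableAt (Metric.isOpen_ball.mem_nhds (f4 hv'))
    have h1 : DifferentiableAt ℂ (fun v : ℂ => 1 / (1 + v)) v := by
      apply DifferentiableAt.div (by fun_prop) (by fun_prop) hv1
    have h2 : DifferentiableAt ℂ (fun v : ℂ => φ (1 / (1 + v))) v := hφ.comp v h1
    apply DifferentiableAt.differentiableWithinAt
    exact (h2.sub_const _).div (by fun_prop) (mul_ne_zero hv1 hv0)
  have hHc : ContinuousOn H ({v | 0 ≤ v.re} \ {0}) := by
    have hne : ∀ v ∈ ({v | 0 ≤ v.re} \ {0} : Set ℂ), 1 + v ≠ 0 := by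
      intro v hv h
      obtain ⟨f1, f2, f3, f4⟩ := halfplane_facts v hv.1
      rw [h, norm_zero] at f1; linarith
    apply ContinuousOn.div
    · apply ContinuousOn.sub _ continuousOn_const
      apply hcont.comp (t := cd)
      · apply ContinuousOn.div continuousOn_const (by fun_prop) hne
      · intro v hv
        exact (halfplane_facts v hv.1).2.2.1
    · fun_prop
    · intro v hv
      exact mul_ne_zero (hne v hv) hv.2
  -- bounds
  have hC0 : 0 ≤ C := by
    have h0cd : (0:ℂ) ∈ cd := by show ‖(0:ℂ) - 1 / 2‖ ≤ 1 / 2; norm_num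
    have := (norm_nonneg _).trans (hC 0 h0cd)
    simpa using this
  set K' : ℝ := (4 + N1) + C + 2 * M with hK'
  have hsmall : ∀ v : ℂ, 0 ≤ v.re → v ≠ 0 → ‖v‖ ≤ 1 → ‖H v‖ ≤ K' * ‖v‖ ^ (α - 1) := by
    intro v hv hv0 _
    obtain ⟨f1, f2, f3, f4⟩ := halfplane_facts v hv
    have hv1 : 1 + v ≠ 0 := fun h => by rw [h, norm_zero] at f1; linarith
    have hvp : 0 < ‖v‖ := norm_pos_iff.2 hv0
    have h1 := hC _ f3
    have e : 1 / (1 + v) - 1 = -v / (1 + v) := by field_simp; ring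
    have h2 : ‖1 / (1 + v) - 1‖ ≤ ‖v‖ := by
      rw [e, norm_div, norm_neg]
      exact div_le_self (norm_nonneg _) f1
    have h3 : ‖1 / (1 + v) - 1‖ ^ α ≤ ‖v‖ ^ α := Real.rpow_le_rpow (norm_nonneg _) h2 hα.le
    have h4 : ‖φ (1 / (1 + v)) - φ 1‖ ≤ K' * ‖v‖ ^ α := by
      calc _ ≤ C * ‖1 / (1 + v) - 1‖ ^ α := h1
        _ ≤ C * ‖v‖ ^ α := mul_le_mul_of_nonneg_left h3 hC0
        _ ≤ K' * ‖v‖ ^ α := mul_le_mul_of_nonneg_right (by rw [hK']; linarith) (by positivity)
    have h5 : ‖H v‖ = ‖φ (1 / (1 + v)) - φ 1‖ / (‖1 + v‖ * ‖v‖) := by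
      rw [hH]; simp only; rw [norm_div, norm_mul]
    rw [h5, Real.rpow_sub_one hvp.ne', ← mul_div_assoc]
    calc ‖φ (1 / (1 + v)) - φ 1‖ / (‖1 + v‖ * ‖v‖) ≤ ‖φ (1 / (1 + v)) - φ 1‖ / (1 * ‖v‖) := by
          gcongr
      _ = ‖φ (1 / (1 + v)) - φ 1‖ / ‖v‖ := by rw [one_mul]
      _ ≤ K' * ‖v‖ ^ α / ‖v‖ := by gcongr
  have hlarge : ∀ v : ℂ, 0 ≤ v.re → 1 ≤ ‖v‖ → ‖H v‖ ≤ K' / ‖v‖ ^ 2 := by
    intro v hv hv1
    obtain ⟨f1, f2, f3, f4⟩ := halfplane_facts v hv
    have hvp : 0 < ‖v‖ := by linarith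
    have h4 : ‖φ (1 / (1 + v)) - φ 1‖ ≤ K' := by
      have := norm_sub_le (φ (1 / (1 + v))) (φ 1)
      have a1 := hM _ f3
      have a2 := hM _ h1cd
      rw [hK']; linarith
    have h5 : ‖H v‖ = ‖φ (1 / (1 + v)) - φ 1‖ / (‖1 + v‖ * ‖v‖) := by
      rw [hH]; simp only; rw [norm_div, norm_mul]
    rw [h5, sq]
    have hK0 : 0 ≤ K' := (norm_nonneg _).trans h4
    gcongr
  have hfin := h G H K' 6 α (by norm_num) hα hGc.continuousOn hG0 (by
    intro T hT
    refine (hGb T hT).trans ?_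
    apply mul_le_mul_of_nonneg_right _ (Real.exp_nonneg _)
    rw [hK']; linarith) hHeq hHd hHc hsmall hlarge
  -- conclusion
  have hfin2 : Tendsto (fun T : ℝ => G T + φ 1 * (1 - cexp (-(T:ℂ)))) atTop (𝓝 (0 + φ 1 * (1 - 0))) := by
    apply hfin.add
    apply Tendsto.const_mul
    apply Tendsto.const_sub
    have := tendsto_pow_exp 1 (by norm_num) 0
    simpa using this
  have e0 : (0:ℂ) + φ 1 * (1 - 0) = φ 1 := by ring
  rw [e0] at hfin2
  refine hfin2.congr (fun T => ?_)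
  have h1 : ∫ t in (0:ℝ)..T, cexp (-(t:ℂ)) = 1 - cexp (-(T:ℂ)) := by
    have := integral_exp_mul_complex (a := 0) (b := T) (c := -1) (by norm_num)
    simp only [neg_mul, one_mul] at this
    rw [this]
    simp
    ring
  have h2 : G T = (∫ t in (0:ℝ)..T, L t * cexp (-(t:ℂ))) - φ 1 * ∫ t in (0:ℝ)..T, cexp (-(t:ℂ)) := by
    rw [← intervalIntegral.integral_const_mul, ← intervalIntegral.integral_sub]
    · rw [hG]
      simp only
      apply intervalIntegral.integral_congr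
      intro t _
      simp only [hg]
      ring
    · exact (hLc.mul (by fun_prop)).intervalIntegrable _ _
    · exact (Continuous.mul continuous_const (by fun_prop)).intervalIntegrable _ _
  rw [h2, h1]
  ring

theorem t_BOR (h : S_TAUB) : S_BOR := by
  intro φ c hc hs hd hcont hhol
  refine ⟨summ hc, ?_⟩
  apply bor_core h φ (fun t : ℝ => ∑' n : ℕ, c n / (n.factorial : ℂ) * (t:ℂ) ^ n) (L_cont hc)
  · intro t ht
    have := L_bound hc (t : ℂ)
    rwa [Complex.norm_real, Real.norm_of_nonneg ht] at this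
  · exact fun w hw => laplace_L hc hs w hw
  · exact hd
  · exact hcont
  · exact hhol

end Pool.Agent.Q268.MQ
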