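import Pool.Agent.Q268.MQ.Stm

set_option autoImplicit false

/-! Job QD: the Taylor coefficients of `Q_n` at `-1`. -/

namespace Pool.Agent.Q268.MQ

open Complex

lemma prod_choose (j k : ℕ) : (∏ i ∈ Finset.range k, ((j : ℂ) - i)) =
    (k.factorial : ℂ) * (j.choose k : ℂ) := by
  have h : ((j.descFactorial k : ℕ) : ℂ) = ∏ i ∈ Finset.range k, ((j : ℂ) - i) := by
    rw [Nat.descFactorial_eq_prod_range]
    push_cast
    by_cases hjk : k ≤ j
    · apply Finset.prod_congr rfl
      intro i hi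
      rw [Finset.mem_range] at hi
      rw [Nat.cast_sub (by omega)]
    · push Not at hjk
      rw [Finset.prod_eq_zero (Finset.mem_range.2 hjk) (by simp),
        Finset.prod_eq_zero (Finset.mem_range.2 hjk) (by simp)]
  rw [← h, Nat.descFactorial_eq_factorial_mul_choose]
  push_cast
  ring

lemma prod_choose' (j k : ℕ) : (∏ i ∈ Finset.range k, (((-((j : ℤ) + 2) : ℤ) : ℂ) - i)) =
    (-1) ^ k * ((k.factorial : ℂ) * ((j + k + 1).choose k : ℂ)) := by
  have h : ((Nat.ascFactorial (j + 2) k : ℕ) : ℂ) = ∏ i ∈ Finset.range k, ((j : ℂ) + 2 + i) := by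
    rw [Nat.ascFactorial_eq_prod_range]
    push_cast
    rfl
  have h2 : (∏ i ∈ Finset.range k, (((-((j : ℤ) + 2) : ℤ) : ℂ) - i)) =
      (-1) ^ k * ∏ i ∈ Finset.range k, ((j : ℂ) + 2 + i) := by
    rw [← Finset.card_range k, ← Finset.prod_const, Finset.card_range, ← Finset.prod_mul_distrib]
    apply Finset.prod_congr rfl
    intro i _
    push_cast
    ring
  rw [h2, ← h]
  congr 1
  have h3 := Nat.ascFactorial_eq_factorial_mul_choose (j + 1) k
  have h4 : j + 1 + k = j + k + 1 := by ring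
  rw [h4] at h3
  have h5 : (j + 2).ascFactorial k = (j + 1 + 1).ascFactorial k := rfl
  rw [h5, h3]
  push_cast
  ring

/-- the iterated derivative of `z^j` -/
lemma itd_pow (j k : ℕ) : iteratedDeriv k (fun z : ℂ => z ^ j) (-1) =
    (k.factorial : ℂ) * ((-1) ^ j * ((-1) ^ k * (j.choose k : ℂ))) := by
  rw [iteratedDeriv_eq_iterate, iter_deriv_pow, prod_choose]
  by_cases hjk : k ≤ j
  · have h : ((-1 : ℂ)) ^ (j - k) = (-1) ^ j * (-1) ^ k := by
      obtain ⟨d, rfl⟩ := Nat.exists_eq_add_of_le hjk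
      rw [Nat.add_sub_cancel_left, pow_add, mul_comm ((-1 : ℂ) ^ k), mul_assoc, ← mul_pow]
      norm_num
    rw [h]; ring
  · push Not at hjk
    rw [Nat.choose_eq_zero_of_lt hjk]
    simp

/-- the iterated derivative of `z^(-j-2)` -/
lemma itd_inv (j k : ℕ) : iteratedDeriv k (fun z : ℂ => 1 / z ^ (j + 2)) (-1) =
    (k.factorial : ℂ) * ((-1) ^ j * ((j + k + 1).choose k : ℂ)) := by
  have e : (fun z : ℂ => 1 / z ^ (j + 2)) = fun z : ℂ => z ^ (-((j : ℤ) + 2)) := by
    funext z
    rw [zpow_neg, one_div]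
    congr 1
  rw [e, iteratedDeriv_eq_iterate, iter_deriv_zpow, prod_choose']
  have h : ((-1 : ℂ)) ^ (-((j : ℤ) + 2) - (k : ℤ)) = (-1) ^ j * (-1) ^ k := by
    have h1 : (-((j : ℤ) + 2) - (k : ℤ)) = -((j + 2 + k : ℕ) : ℤ) := by push_cast; ring
    rw [h1, zpow_neg, zpow_natCast, ← inv_pow, pow_add, pow_add]
    norm_num
  rw [h]
  have h2 : ((-1 : ℂ) ^ k) * (-1) ^ k = 1 := by rw [← mul_pow]; norm_num
  linear_combination ((k.factorial : ℂ) * ((j + k + 1).choose k : ℂ) * (-1) ^ j) * h2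

lemma cd_pow (j n : ℕ) : ContDiffAt ℂ n (fun z : ℂ => z ^ j) (-1) := contDiffAt_id.pow j

lemma cd_inv (j n : ℕ) : ContDiffAt ℂ n (fun z : ℂ => 1 / z ^ (j + 2)) (-1) := by
  apply contDiffAt_const.div (contDiffAt_id.pow _)
  simp

lemma Q_succ (n : ℕ) : Q (n + 1) = fun z => 1 / 2 * ∑ j : Fin (n + 1), 1 / ((j : ℕ).factorial : ℂ) *
      iteratedDeriv (j : ℕ) (Q (n - j)) (-1) * (z ^ (j : ℕ) - 1 / z ^ ((j : ℕ) + 2)) := by
  conv_lhs => rw [Q]

lemma qq_succ (n k : ℕ) : qq (n + 1) k = 1 / 2 * ∑ j : Fin (n + 1), (-1) ^ (j : ℕ) *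
      ((-1) ^ k * ((j : ℕ).choose k : ℚ) - (((j : ℕ) + k + 1).choose k : ℚ)) * qq (n - j) j := by
  conv_lhs => rw [qq]

theorem t_QD : S_QD := by
  intro n
  induction n using Nat.strong_induction_on with
  | _ n ih =>
    intro k
    rcases n with _ | n
    · -- `Q_0`
      have e : Q 0 = fun z => (-1 / 2 : ℂ) * (z ^ (-1 : ℤ)) := by
        rw [Q]
        funext z
        rw [zpow_neg_one]
        by_cases hz : z = 0
        · simp [hz]
        · field_simp
      rw [e, iteratedDeriv_const_mul_field, iteratedDeriv_eq_iterate, iter_deriv_zpow]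
      have h1 : (∏ i ∈ Finset.range k, (((-1 : ℤ) : ℂ) - i)) = (-1) ^ k * (k.factorial : ℂ) := by
        rw [← Finset.prod_range_add_one_eq_factorial]
        push_cast
        rw [← Finset.card_range k, ← Finset.prod_const, Finset.card_range, ← Finset.prod_mul_distrib]
        apply Finset.prod_congr rfl
        intro i _
        ring
      have h2 : ((-1 : ℂ)) ^ ((-1 : ℤ) - (k : ℤ)) = -(-1) ^ k := by
        have h3 : ((-1 : ℤ) - (k : ℤ)) = -((k + 1 : ℕ) : ℤ) := by push_cast; ring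
        rw [h3, zpow_neg, zpow_natCast, ← inv_pow, pow_succ]
        norm_num
      rw [h1, h2, qq]
      have h4 : ((-1 : ℂ) ^ k) * (-1) ^ k = 1 := by rw [← mul_pow]; norm_num
      push_cast
      linear_combination (1 / 2 * (k.factorial : ℂ)) * h4
    · rw [Q_succ, iteratedDeriv_const_mul_field, iteratedDeriv_fun_sum]
      · rw [qq_succ]
        push_cast
        rw [Finset.mul_sum, Finset.mul_sum, Finset.mul_sum]
        apply Finset.sum_congr rfl
        intro j _
        rw [iteratedDeriv_const_mul_field, iteratedDeriv_fun_sub (cd_pow _ _) (cd_inv _ _),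
          itd_pow, itd_inv, ih (n - j) (by omega) j]
        have : ((j : ℕ).factorial : ℂ) ≠ 0 := by exact_mod_cast Nat.factorial_ne_zero _
        field_simp
      · intro j _
        exact contDiffAt_const.mul ((cd_pow _ _).sub (cd_inv _ _))

lemma cQ_eq (n : ℕ) : cQ n = (qq n 1 : ℂ) := by
  have h := t_QD n 1
  rw [iteratedDeriv_one] at h
  unfold cQ
  rw [h]; simp

end Pool.Agent.Q268.MQ
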