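import Pool.Agent.Q268.MQ.MOM
import Pool.Agent.Q268.MQ.QD

set_option autoImplicit false

/-! Job COEF. -/

namespace Pool.Agent.Q268.MQ

open Complex Filter Topology Asymptotics

/-- `β` -/
noncomputable def be (k j : ℕ) : ℂ :=
  1 / 2 * ((-1) ^ j * ((-1) ^ k * ((j.choose k : ℕ) : ℂ) - (((j + k + 1).choose k : ℕ) : ℂ)))

lemma aa_eq (k : ℕ) (s : ℂ) (j : ℕ) : aa k s j = be k j * s ^ (j + 1) := rfl

lemma qq_rec (n k : ℕ) : ((qq (n + 1) k : ℚ) : ℂ) =
    ∑ j ∈ Finset.range (n + 1), be k j * ((qq (n - j) j : ℚ) : ℂ) := by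
  rw [qq_succ, Finset.sum_range]
  push_cast
  rw [Finset.mul_sum]
  apply Finset.sum_congr rfl
  intro j _
  unfold be
  ring

/-- the partial sums -/
noncomputable def PP (n k : ℕ) (s : ℂ) : ℂ := ∑ i ∈ Finset.range n, ((qq i k : ℚ) : ℂ) * s ^ i

lemma PP_succ (n k : ℕ) (s : ℂ) : PP (n + 1) k s =
    1 / 2 + ∑ j ∈ Finset.range n, be k j * s ^ (j + 1) * PP (n - j) j s := by
  have h := Finset.sum_range_diag_flip n (fun j i => be k j * s ^ (j + 1) * (((qq i j : ℚ) : ℂ) * s ^ i))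
  unfold PP
  rw [Finset.sum_range_succ']
  have h0 : ((qq 0 k : ℚ) : ℂ) * s ^ 0 = 1 / 2 := by rw [qq]; norm_num
  rw [h0, add_comm]
  congr 1
  simp only [Finset.mul_sum]
  rw [← h]
  apply Finset.sum_congr rfl
  intro m _
  rw [qq_rec, Finset.sum_mul]
  apply Finset.sum_congr rfl
  intro j hj
  rw [Finset.mem_range] at hj
  have e : s ^ (m + 1) = s ^ (j + 1) * s ^ (m - j) := by
    rw [← pow_add]; congr 1; omega
  rw [e]; ring

lemma expand (h1 : S_MOM) (h2 : S_PHI) (n : ℕ) : ∀ k : ℕ,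
    (fun s : ℂ => Mo (k + 1) s - PP n k s) =O[𝓝 0] (fun s : ℂ => s ^ n) := by
  obtain ⟨-, -, -, -, -, -, hbd⟩ := h2
  have hev : ∀ᶠ s : ℂ in 𝓝 0, ‖s‖ ≤ 1 / 5 := by
    have := Metric.closedBall_mem_nhds (0:ℂ) (by norm_num : (0:ℝ) < 1 / 5)
    filter_upwards [this] with s hs
    rwa [mem_closedBall_zero_iff] at hs
  induction n using Nat.strong_induction_on with
  | _ n ih =>
    intro k
    rcases n with _ | n
    · apply IsBigO.of_bound (2 ^ (k + 1))
      filter_upwards [hev] with s hs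
      have := hbd s hs (k + 1)
      simpa [PP] using this
    · -- split
      have htail : (fun s : ℂ => Mo (k + 1) s - 1 / 2 -
          ∑ j ∈ Finset.range n, be k j * s ^ (j + 1) * Mo (j + 1) s) =O[𝓝 0]
          (fun s : ℂ => s ^ (n + 1)) := by
        -- constant
        have hsm := summable_aa (s := 1 / 5) (by norm_num) k
        have hsm' := (summable_nat_add_iff n).2 hsm
        apply IsBigO.of_bound (∑' j, ‖aa k (1 / 5) (j + n)‖ * 2 ^ (j + n + 1) * 5 ^ (n + 1))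
        filter_upwards [hev] with s hs
        have hM := h1 s hs k
        have hM' := (hasSum_nat_add_iff' n).2 hM
        have e : Mo (k + 1) s - 1 / 2 - ∑ j ∈ Finset.range n, be k j * s ^ (j + 1) * Mo (j + 1) s =
            ∑' j : ℕ, be k (j + n) * s ^ (j + n + 1) * Mo (j + n + 1) s := hM'.tsum_eq.symm
        rw [e]
        have hb : ∀ j : ℕ, ‖be k (j + n) * s ^ (j + n + 1) * Mo (j + n + 1) s‖ ≤
            (‖aa k (1 / 5) (j + n)‖ * 2 ^ (j + n + 1) * 5 ^ (n + 1)) * ‖s ^ (n + 1)‖ := by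
          intro j
          rw [aa_eq, norm_mul, norm_mul, norm_mul]
          have hb1 := hbd s hs (j + n + 1)
          have hb2 : ‖s ^ (j + n + 1)‖ ≤ ‖((1 / 5 : ℂ)) ^ (j + n + 1)‖ * 5 ^ (n + 1) * ‖s ^ (n + 1)‖ := by
            rw [norm_pow, norm_pow, norm_pow]
            have e5 : ‖(1 / 5 : ℂ)‖ = 1 / 5 := by norm_num
            rw [e5]
            have e6 : ‖s‖ ^ (j + n + 1) = ‖s‖ ^ j * ‖s‖ ^ (n + 1) := by rw [← pow_add]; rfl
            have e7 : (1 / 5 : ℝ) ^ (j + n + 1) * 5 ^ (n + 1) = (1 / 5) ^ j := by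
              have : (1 / 5 : ℝ) ^ (j + n + 1) = (1 / 5) ^ j * (1 / 5) ^ (n + 1) := by
                rw [← pow_add]; rfl
              rw [this, mul_assoc, ← mul_pow]; norm_num
            rw [e6, e7]
            apply mul_le_mul_of_nonneg_right _ (by positivity)
            exact pow_le_pow_left₀ (norm_nonneg _) hs j
          calc ‖be k (j + n)‖ * ‖s ^ (j + n + 1)‖ * ‖Mo (j + n + 1) s‖ ≤
              ‖be k (j + n)‖ * (‖((1 / 5 : ℂ)) ^ (j + n + 1)‖ * 5 ^ (n + 1) * ‖s ^ (n + 1)‖) *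
                2 ^ (j + n + 1) := by
                apply mul_le_mul (mul_le_mul_of_nonneg_left hb2 (norm_nonneg _)) hb1
                  (norm_nonneg _) (by positivity)
            _ = _ := by ring
        have hs2 : Summable (fun j : ℕ => (‖aa k (1 / 5) (j + n)‖ * 2 ^ (j + n + 1) *
            (5:ℝ) ^ (n + 1)) * ‖s ^ (n + 1)‖) := (hsm'.mul_right _).mul_right _
        have := tsum_of_norm_bounded hs2.hasSum hb
        rwa [tsum_mul_right] at this
      have hfin : (fun s : ℂ => ∑ j ∈ Finset.range n, be k j * s ^ (j + 1) *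
          (Mo (j + 1) s - PP (n - j) j s)) =O[𝓝 0] (fun s : ℂ => s ^ (n + 1)) := by
        apply IsBigO.fun_sum
        intro j hj
        rw [Finset.mem_range] at hj
        have h3 := ih (n - j) (by omega) j
        have h4 : (fun s : ℂ => be k j * s ^ (j + 1)) =O[𝓝 0] (fun s : ℂ => s ^ (j + 1)) :=
          (isBigO_refl _ _).const_mul_left _
        have h5 := h4.mul h3
        refine h5.congr_right (fun s => ?_)
        rw [← pow_add]; congr 1; omega
      refine (htail.add hfin).congr_left (fun s => ?_)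
      rw [PP_succ]
      simp only [mul_sub, Finset.sum_sub_distrib]
      ring

lemma uniq (d : ℕ → ℂ) (h : ∀ n, (fun s : ℂ => ∑ i ∈ Finset.range n, d i * s ^ i) =O[𝓝 0]
    (fun s : ℂ => s ^ n)) (n : ℕ) : d n = 0 := by
  induction n using Nat.strong_induction_on with
  | _ n ih =>
    have h1 := h (n + 1)
    have h2 : (fun s : ℂ => ∑ i ∈ Finset.range (n + 1), d i * s ^ i) = fun s => d n * s ^ n := by
      funext s
      rw [Finset.sum_range_succ, Finset.sum_eq_zero, zero_add]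
      intro i hi
      rw [ih i (Finset.mem_range.1 hi), zero_mul]
    rw [h2] at h1
    obtain ⟨C, hC⟩ := h1.bound
    have h3 : ∀ᶠ s : ℂ in 𝓝[≠] 0, ‖d n‖ ≤ C * ‖s‖ := by
      filter_upwards [nhdsWithin_le_nhds hC, self_mem_nhdsWithin] with s hs hs0
      have hs0' : (s : ℂ) ≠ 0 := hs0
      rw [norm_mul, norm_pow, norm_pow, pow_succ] at hs
      have hp : 0 < ‖s‖ ^ n := pow_pos (norm_pos_iff.2 hs0') n
      have : ‖d n‖ * ‖s‖ ^ n ≤ (C * ‖s‖) * ‖s‖ ^ n := by linarith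
      exact le_of_mul_le_mul_right this hp
    have h4 : Tendsto (fun s : ℂ => C * ‖s‖) (𝓝[≠] 0) (𝓝 0) := by
      have : Tendsto (fun s : ℂ => C * ‖s‖) (𝓝 0) (𝓝 (C * ‖(0:ℂ)‖)) :=
        (continuous_norm.tendsto 0).const_mul C
      rw [norm_zero, mul_zero] at this
      exact this.mono_left nhdsWithin_le_nhds
    have h5 : ‖d n‖ ≤ 0 := ge_of_tendsto h4 h3
    exact norm_le_zero_iff.1 h5

lemma ps_isBigO (p : ℕ → ℂ) (f : ℂ → ℂ) (hpb : ∀ n, ‖p n‖ ≤ 4 * 6 ^ n)
    (hps : ∀ s : ℂ, ‖s‖ < 1 / 5 → HasSum (fun n => p n * s ^ n) (f s)) (n : ℕ) :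
    (fun s : ℂ => f s - ∑ i ∈ Finset.range n, p i * s ^ i) =O[𝓝 0] (fun s : ℂ => s ^ n) := by
  have hev : ∀ᶠ s : ℂ in 𝓝 0, ‖s‖ ≤ 1 / 12 := by
    have := Metric.closedBall_mem_nhds (0:ℂ) (by norm_num : (0:ℝ) < 1 / 12)
    filter_upwards [this] with s hs
    rwa [mem_closedBall_zero_iff] at hs
  apply IsBigO.of_bound (8 * 6 ^ n)
  filter_upwards [hev] with s hs
  have h4 := (hasSum_nat_add_iff' n).2 (hps s (by linarith))
  rw [← h4.tsum_eq]
  have hg : HasSum (fun j : ℕ => 4 * 6 ^ n * ‖s ^ n‖ * (1 / 2 : ℝ) ^ j) (4 * 6 ^ n * ‖s ^ n‖ * 2) := by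
    have := (hasSum_geometric_of_lt_one (r := (1 / 2 : ℝ)) (by norm_num) (by norm_num)).mul_left
      (4 * 6 ^ n * ‖s ^ n‖)
    norm_num at this ⊢
    exact this
  have h5 : ‖∑' j : ℕ, p (j + n) * s ^ (j + n)‖ ≤ 4 * 6 ^ n * ‖s ^ n‖ * 2 := by
    apply tsum_of_norm_bounded hg
    intro j
    rw [norm_mul, pow_add, norm_mul, norm_pow]
    have h6 := hpb (j + n)
    have h7 : ‖s‖ ^ j ≤ (1 / 12) ^ j := pow_le_pow_left₀ (norm_nonneg _) hs j
    calc ‖p (j + n)‖ * (‖s‖ ^ j * ‖s ^ n‖) ≤ (4 * 6 ^ (j + n)) * ((1 / 12) ^ j * ‖s ^ n‖) := by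
          apply mul_le_mul h6 (mul_le_mul_of_nonneg_right h7 (norm_nonneg _)) (by positivity)
            (by positivity)
      _ = 4 * 6 ^ n * ‖s ^ n‖ * (6 * (1 / 12)) ^ j := by rw [mul_pow, pow_add]; ring
      _ = 4 * 6 ^ n * ‖s ^ n‖ * (1 / 2) ^ j := by norm_num
  linarith

theorem t_COEF (h1 : S_MOM) (h2 : S_PHI) (h3 : S_QD) : S_COEF := by
  have hphi := h2
  obtain ⟨-, -, -, -, -, hdiff, hbd⟩ := h2
  -- Taylor coefficients
  set p : ℕ → ℂ := fun n => ((n.factorial : ℂ))⁻¹ * iteratedDeriv n (Mo 2) 0 with hp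
  have hd := hdiff 2
  have hpb : ∀ n, ‖p n‖ ≤ 4 * 6 ^ n := by
    intro n
    have h4 := Complex.norm_iteratedDeriv_le_of_forall_mem_sphere_norm_le (n := n) (c := 0) (R := 1 / 6)
      (C := 4) (f := Mo 2) (by norm_num) (by
        apply DifferentiableOn.diffContOnCl
        apply hd.mono
        rw [closure_ball _ (by norm_num)]
        exact Metric.closedBall_subset_ball (by norm_num)) (by
        intro z hz
        rw [mem_sphere_zero_iff_norm] at hz
        have := hbd z (by rw [hz]; norm_num) 2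
        linarith)
    rw [hp]
    simp only [norm_mul, norm_inv, norm_natCast]
    rw [inv_mul_le_iff₀ (by positivity)]
    refine h4.trans (le_of_eq ?_)
    rw [div_pow, one_pow]
    field_simp
  have hps : ∀ s : ℂ, ‖s‖ < 1 / 5 → HasSum (fun n => p n * s ^ n) (Mo 2 s) := by
    intro s hs
    have h4 := Complex.hasSum_taylorSeries_on_ball hd (z := s) (by
      rw [mem_ball_zero_iff]; exact hs)
    refine hs_congr h4 (fun n => ?_) rfl
    simp only [hp, smul_eq_mul, sub_zero]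
    ring
  have hO := ps_isBigO p (Mo 2) hpb hps
  have heq : ∀ n, p n = cQ n := by
    intro n
    have h4 := uniq (fun i => p i - ((qq i 1 : ℚ) : ℂ)) (fun n => by
      have h5 := (expand h1 hphi n 1).sub (hO n)
      refine h5.congr_left (fun s => ?_)
      simp only [sub_mul, Finset.sum_sub_distrib, PP]
      ring) n
    have h6 : cQ n = ((qq n 1 : ℚ) : ℂ) := by
      have h := h3 n 1
      rw [iteratedDeriv_one] at h
      unfold cQ
      rw [h]; simp
    rw [h6]
    exact sub_eq_zero.1 h4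
  refine ⟨fun n => by rw [← heq]; exact hpb n, fun s hs => ?_⟩
  refine hs_congr (hps s (by linarith)) (fun n => ?_) rfl
  rw [heq]

end Pool.Agent.Q268.MQ
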