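import Pool.Agent.Q268.MQ.Stm

set_option autoImplicit false

/-! The explicit form of `u σ_m(1/u)` and `σ_n(u)` on the line `u = 1 - i t`. -/

namespace Pool.Agent.Q268.MQ

open Complex

section
variable (t : ℝ) (ht : 0 < t)

lemma cos_sq_mul : Real.cos (Real.arctan t) ^ 2 * (1 + t ^ 2) = 1 := by
  rw [Real.cos_sq_arctan]
  have : (0:ℝ) < 1 + t ^ 2 := by positivity
  field_simp

lemma sin_eq : Real.sin (Real.arctan t) = t * Real.cos (Real.arctan t) := by
  have h := Real.tan_arctan t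
  rw [Real.tan_eq_sin_div_cos] at h
  have hc := (Real.cos_arctan_pos t).ne'
  field_simp at h
  linarith

lemma u_ne : (1 - (t:ℂ) * I) ≠ 0 := by
  intro h
  have := congrArg Complex.re h
  simp at this

/-- `1/(1-it) = c e^{iθ}` -/
lemma inv_u : (1 : ℂ) / (1 - t * I) =
    (Real.cos (Real.arctan t) : ℂ) * exp ((Real.arctan t : ℂ) * I) := by
  rw [exp_mul_I, ← ofReal_cos, ← ofReal_sin, sin_eq]
  rw [div_eq_iff (u_ne t)]
  have h := cos_sq_mul t
  generalize Real.cos (Real.arctan t) = c at h ⊢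
  have h' : (c : ℂ) ^ 2 * (1 + (t:ℂ) ^ 2) = 1 := by exact_mod_cast h
  push_cast
  linear_combination (-1 : ℂ) * h' + (c : ℂ) ^ 2 * (t:ℂ)^2 * I_sq

lemma u_eq : (1 - (t:ℂ) * I) =
    ((1 / Real.cos (Real.arctan t) : ℝ) : ℂ) * exp (-((Real.arctan t : ℂ) * I)) := by
  have h := inv_u t
  have h2 : (1 - (t:ℂ) * I) = 1 / (1 / (1 - t * I)) := by simp
  rw [h2, h]
  have hc : (Real.cos (Real.arctan t) : ℂ) ≠ 0 := by
    exact_mod_cast (Real.cos_arctan_pos t).ne'
  rw [exp_neg]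
  have he := exp_ne_zero ((Real.arctan t : ℂ) * I)
  push_cast
  field_simp

/-- the powers of `s` -/
lemma s_pow (m : ℕ) : ((1 : ℂ) / (1 - t * I)) ^ m =
    ((Real.cos (Real.arctan t) ^ m * Real.cos (m * Real.arctan t) : ℝ) : ℂ) +
    ((Real.cos (Real.arctan t) ^ m * Real.sin (m * Real.arctan t) : ℝ) : ℂ) * I := by
  rw [inv_u, mul_pow, ← exp_nat_mul]
  have : (m:ℂ) * ((Real.arctan t : ℂ) * I) = ((m * Real.arctan t : ℝ) : ℂ) * I := by
    push_cast; ring
  rw [this, exp_mul_I, ← ofReal_cos, ← ofReal_sin]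
  push_cast
  ring

/-- the powers of `u` -/
lemma u_pow (m : ℕ) : (1 - (t:ℂ) * I) ^ m =
    (((1 / Real.cos (Real.arctan t)) ^ m * Real.cos (m * Real.arctan t) : ℝ) : ℂ) -
    (((1 / Real.cos (Real.arctan t)) ^ m * Real.sin (m * Real.arctan t) : ℝ) : ℂ) * I := by
  rw [u_eq, mul_pow, ← exp_nat_mul]
  have : (m:ℂ) * (-((Real.arctan t : ℂ) * I)) = ((-(m * Real.arctan t) : ℝ) : ℂ) * I := by
    push_cast; ring
  rw [this, exp_mul_I, ← ofReal_cos, ← ofReal_sin, Real.cos_neg, Real.sin_neg]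
  push_cast
  ring

include ht in
lemma D_eq (m : ℕ) : (1 - t * I) * sg m (1 / (1 - t * I)) =
    (2 + ((1 - t ^ 2) / t : ℝ) * I) * (1 - ((1 : ℂ) / (1 - t * I)) ^ m) := by
  have hu := u_ne t
  have ht' : (t:ℂ) ≠ 0 := by exact_mod_cast ht.ne'
  have h1 : (1 - (1 : ℂ) / (1 - t * I)) * sg m (1 / (1 - t * I)) =
      1 - ((1 : ℂ) / (1 - t * I)) ^ m := by
    unfold sg
    exact mul_neg_geom_sum _ _
  rw [← h1]
  have h2 : (2 + (((1 - t ^ 2) / t : ℝ) : ℂ) * I) * (1 - (1 : ℂ) / (1 - t * I)) = 1 - t * I := by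
    push_cast
    field_simp
    ring_nf
    simp only [I_sq]
    ring_nf
  rw [← mul_assoc, h2]

include ht in
lemma C_eq (n : ℕ) : sg n (1 - t * I) = ((1 - (t:ℂ) * I) ^ n - 1) * (1 / t * I) := by
  have ht' : (t:ℂ) ≠ 0 := by exact_mod_cast ht.ne'
  have h1 : (1 - (t:ℂ) * I - 1) * sg n (1 - t * I) = (1 - (t:ℂ) * I) ^ n - 1 := by
    unfold sg
    exact mul_geom_sum _ _
  rw [← h1]
  have : (1 - (t:ℂ) * I - 1) * (1 / t * I) = 1 := by
    field_simp
    ring_nf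
    simp
  calc sg n (1 - t * I) = ((1 - (t:ℂ) * I - 1) * (1 / t * I)) * sg n (1 - t * I) := by
        rw [this, one_mul]
    _ = _ := by ring

include ht in
/-- the square of the modulus of `D` -/
lemma D_norm (m : ℕ) : ‖(1 - t * I) * sg m (1 / (1 - t * I))‖ ^ 2 =
    (1 + t ^ 2) ^ 2 / t ^ 2 *
      (1 - 2 * (Real.cos (Real.arctan t) ^ m * Real.cos (m * Real.arctan t)) +
        (Real.cos (Real.arctan t) ^ m) ^ 2) := by
  rw [D_eq t ht, s_pow, ← normSq_eq_norm_sq, normSq_apply]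
  have hsc := Real.sin_sq_add_cos_sq (m * Real.arctan t)
  simp only [mul_re, mul_im, add_re, add_im, sub_re, sub_im, ofReal_re, ofReal_im, I_re, I_im,
    one_re, one_im, re_ofNat, im_ofNat]
  have hs : Real.sin (m * Real.arctan t) ^ 2 = 1 - Real.cos (m * Real.arctan t) ^ 2 := by linarith
  generalize Real.sin (m * Real.arctan t) = S at hs ⊢
  generalize Real.cos (m * Real.arctan t) = C at hs ⊢
  generalize Real.cos (Real.arctan t) ^ m = ρ
  field_simp
  linear_combination (ρ ^ 2 * (1 + t ^ 2) ^ 2) * hs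

include ht in
/-- the real part of `D` -/
lemma D_re (m : ℕ) : ((1 - t * I) * sg m (1 / (1 - t * I))).re =
    2 * (1 - Real.cos (Real.arctan t) ^ m * Real.cos (m * Real.arctan t)) +
    (1 - t ^ 2) / t * (Real.cos (Real.arctan t) ^ m * Real.sin (m * Real.arctan t)) := by
  rw [D_eq t ht, s_pow]
  simp only [mul_re, mul_im, add_re, add_im, sub_re, sub_im, ofReal_re, ofReal_im, I_re, I_im,
    one_re, one_im, re_ofNat, im_ofNat]
  ring

include ht in
/-- the square of the modulus of `C` -/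
lemma C_norm (n : ℕ) : ‖sg n (1 - t * I)‖ ^ 2 =
    ((((1 / Real.cos (Real.arctan t)) ^ n) ^ 2 -
      2 * ((1 / Real.cos (Real.arctan t)) ^ n * Real.cos (n * Real.arctan t)) + 1)) / t ^ 2 := by
  rw [C_eq t ht, u_pow, ← normSq_eq_norm_sq, normSq_apply]
  have hsc := Real.sin_sq_add_cos_sq (n * Real.arctan t)
  have h1 : ((1 : ℂ) / t * I) = ((1 / t : ℝ) : ℂ) * I := by push_cast; ring
  rw [h1]
  set R := (1 / Real.cos (Real.arctan t)) ^ n with hR
  simp only [mul_re, mul_im, add_re, add_im, sub_re, sub_im, ofReal_re, ofReal_im, I_re, I_im,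
    one_re, one_im]
  have hs : Real.sin (n * Real.arctan t) ^ 2 = 1 - Real.cos (n * Real.arctan t) ^ 2 := by linarith
  have e : ∀ C S : ℝ, S ^ 2 = 1 - C ^ 2 → 
     (((R * C - (R * S * 0 - 0 * 1)) - 1) * (1 / t * 0 - 0 * 1) -
      ((0 - (R * S * 1 + 0 * 0)) - 0) * (1 / t * 1 + 0 * 0)) *
     (((R * C - (R * S * 0 - 0 * 1)) - 1) * (1 / t * 0 - 0 * 1) -
      ((0 - (R * S * 1 + 0 * 0)) - 0) * (1 / t * 1 + 0 * 0)) +
     (((R * C - (R * S * 0 - 0 * 1)) - 1) * (1 / t * 1 + 0 * 0) +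
      ((0 - (R * S * 1 + 0 * 0)) - 0) * (1 / t * 0 - 0 * 1)) *
     (((R * C - (R * S * 0 - 0 * 1)) - 1) * (1 / t * 1 + 0 * 0) +
      ((0 - (R * S * 1 + 0 * 0)) - 0) * (1 / t * 0 - 0 * 1)) =
     (R ^ 2 - 2 * (R * C) + 1) / t ^ 2 := by
    intro C S h
    field_simp
    linear_combination R ^ 2 * h
  exact e _ _ hs

lemma E_norm (n : ℕ) : ‖(1 - t * I) * sg n (1 - t * I)‖ ^ 2 =
    (1 + t ^ 2) * ‖sg n (1 - t * I)‖ ^ 2 := by
  rw [norm_mul, mul_pow]
  congr 1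
  rw [← normSq_eq_norm_sq, normSq_apply]
  simp
  ring

include ht in
lemma E_re (n : ℕ) : ((1 - t * I) * sg n (1 - t * I)).re =
    (1 / Real.cos (Real.arctan t)) ^ n * Real.cos (n * Real.arctan t) - 1 +
    (1 / Real.cos (Real.arctan t)) ^ n * Real.sin (n * Real.arctan t) / t := by
  rw [C_eq t ht, u_pow]
  have h1 : ((1 : ℂ) / t * I) = ((1 / t : ℝ) : ℂ) * I := by push_cast; ring
  rw [h1]
  simp only [mul_re, mul_im, add_re, add_im, sub_re, sub_im, ofReal_re, ofReal_im, I_re, I_im,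
    one_re, one_im]
  field_simp
  ring

end

end Pool.Agent.Q268.MQ
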