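import Pool.Agent.Q268.MQ.EE

set_option autoImplicit false

/-! Job CON: contraction. -/

namespace Pool.Agent.Q268.MQ

open Complex

/-- the contraction inequality of the parabola theorem -/
lemma contr_ineq {a V : ℂ} (ha : ‖a‖ - a.re ≤ 22 / 45) (hV : (23 / 45 : ℝ) ≤ V.re)
    (hV3 : ‖V‖ ≤ 3) :
    ‖a‖ * (V.re - 1 / 2) ≤ 225 / 226 * (‖V‖ ^ 2 * ((1 + a / V).re - 1 / 2)) := by
  have hV0 := ne_of_re hV
  have hVn : 0 < ‖V‖ := norm_pos_iff.2 hV0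
  have hVs : ‖V‖ ^ 2 = V.re ^ 2 + V.im ^ 2 := by
    rw [← normSq_eq_norm_sq, normSq_apply]; ring
  have has : ‖a‖ ^ 2 = a.re ^ 2 + a.im ^ 2 := by
    rw [← normSq_eq_norm_sq, normSq_apply]; ring
  have h1 : ‖V‖ ^ 2 * ((1 + a / V).re - 1 / 2) = ‖V‖ ^ 2 / 2 + (a.re * V.re + a.im * V.im) := by
    rw [add_re, one_re, div_re, normSq_eq_norm_sq]
    field_simp
    ring
  rw [h1, hVs]
  have hre : V.re ≤ 3 := (re_le_norm V).trans hV3
  have hA := norm_nonneg a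
  generalize ‖a‖ = A at *
  have h2 : (V.re ^ 2 + V.im ^ 2) / 2 + (a.re * V.re + a.im * V.im) - A * (V.re - 1 / 2) =
      ((V.re + a.re - A) ^ 2 + (V.im + a.im) ^ 2) / 2 + A * (1 - 2 * (A - a.re)) / 2 := by
    linear_combination (1 / 2 : ℝ) * has
  have h3 : 0 ≤ A * (1 - 2 * (A - a.re) - 1 / 45) := mul_nonneg hA (by linarith)
  have h4 : 0 ≤ A * (3 - V.re) := mul_nonneg hA (by linarith)
  nlinarith [sq_nonneg (V.re + a.re - A), sq_nonneg (V.im + a.im)]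

/-- pairs -/
def Pr (s : ℂ) (Δ : ℝ) (y y' : ℂ) : Prop := ∃ n, 1 ≤ n ∧ ∃ V V' : ℂ, y = cc n s / V ∧
  y' = cc n s / V' ∧ (23 / 45 : ℝ) ≤ V.re ∧ (23 / 45 : ℝ) ≤ V'.re ∧ ‖V‖ ≤ 3 ∧ ‖V'‖ ≤ 3 ∧
  ‖V - V'‖ ^ 2 ≤ Δ ^ 2 * ((V.re - 1 / 2) * (V'.re - 1 / 2))

lemma Pr_step (h : S_PAR) {s : ℂ} (hs : s ∈ cd) {Δ : ℝ} {y y' : ℂ} (hp : Pr s Δ y y') {m : ℕ}
    (hm : 1 ≤ m) : Pr s (225 / 226 * Δ) (T s m y) (T s m y') := by
  obtain ⟨n, hn, V, V', rfl, rfl, hV, hV', hV3, hV3', hd⟩ := hp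
  obtain ⟨-, ha1, ha2, -⟩ := h s hs m n hm hn
  have hW := T_mem_W h hs hn hV
  have hW' := T_mem_W h hs hn hV'
  have e : ∀ Z : ℂ, bb m s * (cc n s / Z) = bb m s * cc n s / Z := fun Z => by ring
  have hr : (23 / 45 : ℝ) ≤ (1 + bb m s * cc n s / V).re := by rw [← e]; exact re_of_W hW hm
  have hr' : (23 / 45 : ℝ) ≤ (1 + bb m s * cc n s / V').re := by rw [← e]; exact re_of_W hW' hm
  have hb : ∀ Z : ℂ, (23 / 45 : ℝ) ≤ Z.re → ‖1 + bb m s * cc n s / Z‖ ≤ 3 := by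
    intro Z hZ
    have h1 := norm_add_le (1 : ℂ) (bb m s * cc n s / Z)
    rw [norm_one, norm_div] at h1
    have h2 : ‖bb m s * cc n s‖ / ‖Z‖ ≤ 2 := by
      rw [div_le_iff₀ (norm_pos_iff.2 (ne_of_re hZ))]
      have := norm_of_re hZ
      linarith
    linarith
  refine ⟨m, hm, 1 + bb m s * cc n s / V, 1 + bb m s * cc n s / V', ?_, ?_, hr, hr', hb V hV,
    hb V' hV', ?_⟩
  · unfold T; rw [e]
  · unfold T; rw [e]
  · set a := bb m s * cc n s with ha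
    have h1 := contr_ineq ha1 hV hV3
    have h2 := contr_ineq ha1 hV' hV3'
    have hVn : 0 < ‖V‖ := norm_pos_iff.2 (ne_of_re hV)
    have hVn' : 0 < ‖V'‖ := norm_pos_iff.2 (ne_of_re hV')
    have h3 : ‖1 + a / V - (1 + a / V')‖ = ‖a‖ * ‖V - V'‖ / (‖V‖ * ‖V'‖) := by
      have : 1 + a / V - (1 + a / V') = a * (V' - V) / (V * V') := by
        have := ne_of_re hV
        have := ne_of_re hV'
        field_simp
        ring
      rw [this, norm_div, norm_mul, norm_mul V V', norm_sub_rev]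
    rw [h3, div_pow, div_le_iff₀ (by positivity)]
    have h4 : 0 ≤ ‖a‖ * (V.re - 1 / 2) := mul_nonneg (norm_nonneg _) (by linarith)
    have h5 : 0 ≤ ‖a‖ * (V'.re - 1 / 2) := mul_nonneg (norm_nonneg _) (by linarith)
    have h6 := mul_le_mul h1 h2 h5 (h4.trans h1)
    calc (‖a‖ * ‖V - V'‖) ^ 2 = ‖a‖ ^ 2 * ‖V - V'‖ ^ 2 := by ring
      _ ≤ ‖a‖ ^ 2 * (Δ ^ 2 * ((V.re - 1 / 2) * (V'.re - 1 / 2))) :=
          mul_le_mul_of_nonneg_left hd (by positivity)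
      _ = Δ ^ 2 * ((‖a‖ * (V.re - 1 / 2)) * (‖a‖ * (V'.re - 1 / 2))) := by ring
      _ ≤ Δ ^ 2 * ((225 / 226 * (‖V‖ ^ 2 * ((1 + a / V).re - 1 / 2))) *
            (225 / 226 * (‖V'‖ ^ 2 * ((1 + a / V').re - 1 / 2)))) :=
          mul_le_mul_of_nonneg_left h6 (by positivity)
      _ = _ := by ring

lemma Pr_base (h : S_PAR) {s : ℂ} (hs : s ∈ cd) {Δ : ℝ} (hΔ : 0 ≤ Δ) {x x' : ℂ}
    (hp : Pr s Δ x x') : ‖x ^ 2 - x' ^ 2‖ ≤ 40 * Δ := by
  obtain ⟨n, hn, V, V', rfl, rfl, hV, hV', hV3, hV3', hd⟩ := hp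
  have hc := (h s hs 1 n le_rfl hn).2.2.2
  have hW := T_mem_W h hs hn hV
  have hW' := T_mem_W h hs hn hV'
  have h2V := norm_of_re hV
  have h2V' := norm_of_re hV'
  have h1 : ‖V - V'‖ ≤ 5 / 2 * Δ := by
    have h0 : ‖V - V'‖ ^ 2 ≤ (5 / 2 * Δ) ^ 2 := by
      refine hd.trans ?_
      have a1 : V.re - 1 / 2 ≤ 5 / 2 := by linarith [re_le_norm V]
      have a2 : V'.re - 1 / 2 ≤ 5 / 2 := by linarith [re_le_norm V']
      have a3 : (V.re - 1 / 2) * (V'.re - 1 / 2) ≤ 5 / 2 * (5 / 2) :=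
        mul_le_mul a1 a2 (by linarith) (by norm_num)
      calc Δ ^ 2 * ((V.re - 1 / 2) * (V'.re - 1 / 2)) ≤ Δ ^ 2 * (5 / 2 * (5 / 2)) :=
            mul_le_mul_of_nonneg_left a3 (by positivity)
        _ = _ := by ring
    exact (abs_le_of_sq_le_sq' h0 (by positivity)).2
  have h2 : ‖cc n s / V - cc n s / V'‖ ≤ 10 * Δ := by
    have e : cc n s / V - cc n s / V' = cc n s * (V' - V) / (V * V') := by
      have := ne_of_re hV
      have := ne_of_re hV'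
      field_simp
    rw [e, norm_div, norm_mul, norm_mul, norm_sub_rev, div_le_iff₀ (by positivity)]
    have h4 : 1 / 4 ≤ ‖V‖ * ‖V'‖ := by nlinarith
    have h5 : ‖cc n s‖ * ‖V - V'‖ ≤ 5 / 2 * Δ := by nlinarith [norm_nonneg (V - V')]
    nlinarith
  have h3 : ‖cc n s / V + cc n s / V'‖ ≤ 4 := by
    have := norm_add_le (cc n s / V) (cc n s / V')
    linarith [hW.1, hW'.1]
  have e2 : (cc n s / V) ^ 2 - (cc n s / V') ^ 2 =
      (cc n s / V - cc n s / V') * (cc n s / V + cc n s / V') := by ring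
  rw [e2, norm_mul]
  nlinarith [norm_nonneg (cc n s / V - cc n s / V'), norm_nonneg (cc n s / V + cc n s / V')]

lemma gN_zero (k : ℕ) (s x : ℂ) : gN k s 0 x = x ^ k := rfl

lemma gN_succ (k : ℕ) (s : ℂ) (N : ℕ) (x : ℂ) :
    gN k s (N + 1) x = (gN k s N (Am s x) + gN k s N (Bm s x)) / 2 := by
  unfold gN
  rw [Function.iterate_succ_apply']
  rfl

lemma half_norm {a b c d : ℂ} {x y : ℝ} (h1 : ‖a - c‖ ≤ x) (h2 : ‖b - d‖ ≤ y) :
    ‖(a + b) / 2 - (c + d) / 2‖ ≤ (x + y) / 2 := by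
  have e : (a + b) / 2 - (c + d) / 2 = ((a - c) + (b - d)) / 2 := by ring
  rw [e, norm_div]
  have h2' : ‖(2:ℂ)‖ = 2 := by norm_num
  rw [h2']
  have := norm_add_le (a - c) (b - d)
  linarith

lemma con2 (h : S_PAR) {s : ℂ} (hs : s ∈ cd) (N : ℕ) : ∀ (Δ : ℝ), 0 ≤ Δ → ∀ y y' : ℂ,
    Pr s Δ y y' → ∀ m, 1 ≤ m →
      ‖gN 2 s N (T s m y) - gN 2 s N (T s m y')‖ ≤ 40 * Δ * (451 / 452) ^ N := by
  induction N with
  | zero =>
    intro Δ hΔ y y' hp m hm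
    rw [gN_zero, gN_zero, pow_zero, mul_one]
    refine (Pr_base h hs (by positivity) (Pr_step h hs hp hm)).trans ?_
    nlinarith
  | succ N ih =>
    intro Δ hΔ y y' hp m hm
    have hW : y ∈ W s ∧ y' ∈ W s := by
      obtain ⟨n, hn, V, V', rfl, rfl, hV, hV', -, -, -⟩ := hp
      exact ⟨T_mem_W h hs hn hV, T_mem_W h hs hn hV'⟩
    rw [gN_succ, gN_succ]
    have eA : ∀ z ∈ W s, Am s (T s m z) = T s (m + 1) z := fun z hz =>
      A_T hs hm (ne_of_re (re_of_W hz hm)) (ne_of_re (re_of_W hz (by omega)))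
    rw [eA y hW.1, eA y' hW.2, B_eq, B_eq]
    have h1 := ih Δ hΔ y y' hp (m + 1) (by omega)
    have h2 := ih _ (by positivity) _ _ (Pr_step h hs hp hm) 1 le_rfl
    refine (half_norm h1 h2).trans ?_
    rw [pow_succ]
    have : 0 ≤ Δ * (451 / 452 : ℝ) ^ N := by positivity
    nlinarith

lemma Pr_W (h : S_PAR) {s : ℂ} (hs : s ∈ cd) {y y' : ℂ} (hy : y ∈ W s) (hy' : y' ∈ W s) {m : ℕ}
    (hm : 1 ≤ m) : Pr s 700 (T s m y) (T s m y') := by
  have hb : ‖bb m s‖ ≤ 1 := by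
    have := (h s hs m 1 hm le_rfl).2.2.1
    rwa [cc_one, mul_one] at this
  have hr := re_of_W hy hm
  have hr' := re_of_W hy' hm
  have hb3 : ∀ z ∈ W s, ‖1 + bb m s * z‖ ≤ 3 := by
    intro z hz
    have h1 := norm_add_le (1 : ℂ) (bb m s * z)
    rw [norm_one, norm_mul] at h1
    have := hz.1
    nlinarith [norm_nonneg (bb m s), norm_nonneg z]
  refine ⟨m, hm, 1 + bb m s * y, 1 + bb m s * y', rfl, rfl, hr, hr', hb3 y hy, hb3 y' hy', ?_⟩
  have h1 : ‖1 + bb m s * y - (1 + bb m s * y')‖ ≤ 4 := by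
    have e : 1 + bb m s * y - (1 + bb m s * y') = bb m s * (y - y') := by ring
    rw [e, norm_mul]
    have h2 := norm_sub_le y y'
    have := hy.1
    have := hy'.1
    nlinarith [norm_nonneg (bb m s), norm_nonneg (y - y')]
  have h2 : ‖1 + bb m s * y - (1 + bb m s * y')‖ ^ 2 ≤ 4 ^ 2 := pow_le_pow_left₀ (norm_nonneg _) h1 2
  have h3 : (1 / 90 : ℝ) * (1 / 90) ≤ ((1 + bb m s * y).re - 1 / 2) * ((1 + bb m s * y').re - 1 / 2) :=
    mul_le_mul (by linarith) (by linarith) (by norm_num) (by linarith)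
  linarith

lemma con1 (h : S_PAR) {s : ℂ} (hs : s ∈ cd) (N : ℕ) : ∀ y ∈ W s, ∀ y' ∈ W s, ∀ m, 1 ≤ m →
      ‖gN 2 s N (T s m y) - gN 2 s N (T s m y')‖ ≤ 28200 * (451 / 452) ^ N := by
  induction N with
  | zero =>
    intro y hy y' hy' m hm
    rw [gN_zero, gN_zero, pow_zero, mul_one]
    have := Pr_base h hs (by norm_num) (Pr_W h hs hy hy' hm)
    linarith
  | succ N ih =>
    intro y hy y' hy' m hm
    rw [gN_succ, gN_succ]
    have eA : ∀ z ∈ W s, Am s (T s m z) = T s (m + 1) z := fun z hz =>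
      A_T hs hm (ne_of_re (re_of_W hz hm)) (ne_of_re (re_of_W hz (by omega)))
    rw [eA y hy, eA y' hy', B_eq, B_eq]
    have h1 := ih y hy y' hy' (m + 1) (by omega)
    have h2 := con2 h hs N 700 (by norm_num) _ _ (Pr_W h hs hy hy' hm) 1 le_rfl
    refine (half_norm h1 h2).trans ?_
    rw [pow_succ]
    have : 0 ≤ (451 / 452 : ℝ) ^ N := by positivity
    nlinarith

lemma con0 (h : S_PAR) {s : ℂ} (hs : s ∈ cd) (N : ℕ) : ∀ x, (∀ j : ℕ, (Am s)^[j] x ∈ W s) →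
      ‖gN 2 s N x - gN 2 s N 0‖ ≤ 28400 * (451 / 452) ^ N := by
  induction N with
  | zero =>
    intro x hx
    rw [gN_zero, gN_zero, pow_zero, mul_one, zero_pow (by norm_num), sub_zero, norm_pow]
    have := (hx 0).1
    simp only [Function.iterate_zero, id] at this
    nlinarith [norm_nonneg x]
  | succ N ih =>
    intro x hx
    rw [gN_succ, gN_succ, Am_zero, B_eq, B_eq]
    have h1 := ih (Am s x) (fun j => by
      have := hx (j + 1)
      rwa [Function.iterate_succ_apply] at this)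
    have h0 : x ∈ W s := hx 0
    have h2 := con1 h hs N x h0 0 (W_zero s) 1 le_rfl
    refine (half_norm h1 h2).trans ?_
    rw [pow_succ]
    have : 0 ≤ (451 / 452 : ℝ) ^ N := by positivity
    nlinarith

theorem t_CON (h : S_PAR) : S_CON :=
  ⟨28400, 451 / 452, by norm_num, by norm_num, by norm_num,
    fun s hs x _ hx N => con0 h hs N x hx⟩

end Pool.Agent.Q268.MQ
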