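import Mathlib

set_option autoImplicit false

/-! Project MQ (Borel summation of the second moment of the Minkowski question mark function):
the definitions. -/

namespace Pool.Agent.Q268.MQ

open Finset

/-! ### The question mark function -/

/-- the Gauss map `x ↦ {1/x}` (with `0 ↦ 0`) -/
noncomputable def gauss (x : ℝ) : ℝ := Int.fract (1 / x)

/-- the partial quotient `a_{k+1}(x)` of the regular continued fraction of `x ∈ [0,1]`
(`0` if the expansion has at most `k` partial quotients) -/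
noncomputable def pq (x : ℝ) (k : ℕ) : ℕ := ⌊1 / (gauss^[k] x)⌋₊

/-- Minkowski's question mark function `2^(1-a₁) - 2^(1-(a₁+a₂)) + 2^(1-(a₁+a₂+a₃)) - ⋯` on `[0,1]` -/
noncomputable def qm (x : ℝ) : ℝ :=
  ∑' k : ℕ, if gauss^[k] x = 0 then 0
    else (-1) ^ k * (2 : ℝ) ^ (1 - (∑ i ∈ range (k + 1), (pq x i : ℤ)) : ℤ)

/-! ### The rational functions `Q_n` -/

/-- the rational functions of the problem: `Q_0(z) = -1/(2z)`,
`Q_{n+1}(z) = (1/2) ∑_{j ≤ n} (1/j!) Q_{n-j}^{(j)}(-1) (z^j - 1/z^(j+2))` -/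
noncomputable def Q : ℕ → ℂ → ℂ
  | 0 => fun z => -1 / (2 * z)
  | n + 1 => fun z => 1 / 2 * ∑ j : Fin (n + 1), 1 / ((j : ℕ).factorial : ℂ) *
      iteratedDeriv (j : ℕ) (Q (n - j)) (-1) * (z ^ (j : ℕ) - 1 / z ^ ((j : ℕ) + 2))
  termination_by n => n
  decreasing_by omega

/-- the coefficients `Q_n'(-1)` -/
noncomputable def cQ (n : ℕ) : ℂ := deriv (Q n) (-1)

/-- `Λ(t) = ∑ Q_n'(-1) t^n / n!` -/
noncomputable def Lam (t : ℂ) : ℂ := ∑' n : ℕ, cQ n / (n.factorial : ℂ) * t ^ n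

/-! ### The deformed Farey maps -/

/-- `x ↦ s x / (1 + s x)` -/
noncomputable def Am (s x : ℂ) : ℂ := s * x / (1 + s * x)

/-- `x ↦ 1 / (1 + s x)` -/
noncomputable def Bm (s x : ℂ) : ℂ := 1 / (1 + s * x)

/-- the transfer operator -/
noncomputable def Lo (s : ℂ) (f : ℂ → ℂ) (x : ℂ) : ℂ := (f (Am s x) + f (Bm s x)) / 2

/-- the iterates of the transfer operator applied to `x ^ k` -/
noncomputable def gN (k : ℕ) (s : ℂ) (N : ℕ) : ℂ → ℂ := (Lo s)^[N] (fun x => x ^ k)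

/-- the moment `∫ x ^ k` of the self-similar measure of parameter `s` -/
noncomputable def Mo (k : ℕ) (s : ℂ) : ℂ := Filter.limUnder Filter.atTop (fun N => gN k s N 0)

/-- `1 + s + ⋯ + s^(n-1)` -/
noncomputable def sg (n : ℕ) (s : ℂ) : ℂ := ∑ k ∈ range n, s ^ k

/-- `b_m = s / (1 + s + ⋯ + s^(m-1))` -/
noncomputable def bb (m : ℕ) (s : ℂ) : ℂ := s / sg m s

/-- `c_m = s^(m-1) / (1 + s + ⋯ + s^(m-1))` -/
noncomputable def cc (m : ℕ) (s : ℂ) : ℂ := s ^ (m - 1) / sg m s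

/-- the map `A^(m-1) B` -/
noncomputable def T (s : ℂ) (m : ℕ) (y : ℂ) : ℂ := cc m s / (1 + bb m s * y)

/-- a convex region of the `x`-plane -/
def W (s : ℂ) : Set ℂ := {y | ‖y‖ ≤ 2 ∧ ∀ m, 1 ≤ m → -(22 / 45 : ℝ) ≤ (bb m s * y).re}

/-- a region invariant under `A` and `B` -/
def ES (s : ℂ) : Set ℂ := {x | x = 0 ∨ ∃ m, 1 ≤ m ∧ ∃ y ∈ W s, x = T s m y}

/-- the closed disc with diameter `[0,1]` -/
def cd : Set ℂ := {s | ‖s - 1 / 2‖ ≤ 1 / 2}

/-- the Taylor coefficients `Q_n^{(k)}(-1)/k!` -/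
def qq : ℕ → ℕ → ℚ
  | 0, _ => 1 / 2
  | n + 1, k => 1 / 2 * ∑ j : Fin (n + 1), (-1) ^ (j : ℕ) *
      ((-1) ^ k * ((j : ℕ).choose k : ℚ) - (((j : ℕ) + k + 1).choose k : ℚ)) * qq (n - j) j
  termination_by n => n
  decreasing_by omega

end Pool.Agent.Q268.MQ
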