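import Pool.Agent.Q268.MQ.PAR

set_option autoImplicit false

/-! Job EE: invariance. -/

namespace Pool.Agent.Q268.MQ

open Complex

lemma bb_one (s : ℂ) : bb 1 s = s := by unfold bb; rw [sg_one, div_one]
lemma cc_one (s : ℂ) : cc 1 s = 1 := by unfold cc; rw [sg_one]; simp

lemma re_of_W {s y : ℂ} (hy : y ∈ W s) {m : ℕ} (hm : 1 ≤ m) :
    (23 / 45 : ℝ) ≤ (1 + bb m s * y).re := by
  have := hy.2 m hm
  rw [add_re, one_re]
  linarith

lemma ne_of_re {V : ℂ} (h : (23 / 45 : ℝ) ≤ V.re) : V ≠ 0 := by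
  intro h0; rw [h0] at h; simp at h; linarith

lemma norm_of_re {V : ℂ} (h : (23 / 45 : ℝ) ≤ V.re) : 1 / 2 ≤ ‖V‖ := by
  have := re_le_norm V
  linarith

/-- `1/V = 1 + ζ` with `|ζ| ≤ 1` if `Re V ≥ 1/2` -/
lemma inv_half {V : ℂ} (h : (1 / 2 : ℝ) ≤ V.re) : ‖1 / V - 1‖ ≤ 1 := by
  have hV : V ≠ 0 := by intro h0; rw [h0] at h; simp at h; linarith
  have h1 : 1 / V - 1 = (1 - V) / V := by field_simp
  rw [h1, norm_div, div_le_one (norm_pos_iff.2 hV)]
  have h2 : ‖1 - V‖ ^ 2 ≤ ‖V‖ ^ 2 := by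
    rw [← normSq_eq_norm_sq, ← normSq_eq_norm_sq, normSq_apply, normSq_apply]
    simp
    nlinarith
  exact (abs_le_of_sq_le_sq' h2 (norm_nonneg _)).2

lemma T_mem_W (h : S_PAR) {s : ℂ} (hs : s ∈ cd) {m : ℕ} (hm : 1 ≤ m) {V : ℂ}
    (hV : (23 / 45 : ℝ) ≤ V.re) : cc m s / V ∈ W s := by
  have hc := (h s hs 1 m le_rfl hm).2.2.2
  constructor
  · rw [norm_div, div_le_iff₀ (norm_pos_iff.2 (ne_of_re hV))]
    have := norm_of_re hV
    linarith
  · intro k hk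
    have hp := (h s hs k m hk hm).2.1
    have h1 : bb k s * (cc m s / V) = bb k s * cc m s + bb k s * cc m s * (1 / V - 1) := by
      ring
    rw [h1, add_re]
    have h2 : -‖bb k s * cc m s‖ ≤ (bb k s * cc m s * (1 / V - 1)).re := by
      have h3 := abs_re_le_norm (bb k s * cc m s * (1 / V - 1))
      rw [abs_le] at h3
      have h4 : ‖bb k s * cc m s * (1 / V - 1)‖ ≤ ‖bb k s * cc m s‖ := by
        rw [norm_mul]
        have := inv_half (V := V) (by linarith)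
        nlinarith [norm_nonneg (bb k s * cc m s)]
      linarith [h3.1]
    linarith

lemma W_zero (s : ℂ) : (0:ℂ) ∈ W s := by
  constructor
  · simp
  · intro m _; simp; norm_num

lemma sg_succ' (m : ℕ) (s : ℂ) : sg (m + 1) s = sg m s + s ^ m := by
  unfold sg; rw [Finset.sum_range_succ]

/-- `A (T_m y) = T_(m+1) y` -/
lemma A_T {s : ℂ} (hs : s ∈ cd) {m : ℕ} (hm : 1 ≤ m) {y : ℂ}
    (h1 : 1 + bb m s * y ≠ 0) (h2 : 1 + bb (m + 1) s * y ≠ 0) :
    Am s (T s m y) = T s (m + 1) y := by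
  have hg := sg_ne hs hm
  have hg1 := sg_ne hs (show 1 ≤ m + 1 by omega)
  unfold Am T
  have e1 : 1 + s * (cc m s / (1 + bb m s * y)) =
      (sg (m + 1) s / sg m s) * ((1 + bb (m + 1) s * y) / (1 + bb m s * y)) := by
    have hp : s * cc m s = s ^ m / sg m s := by
      unfold cc
      obtain ⟨k, rfl⟩ : ∃ k, m = k + 1 := ⟨m - 1, by omega⟩
      simp only [Nat.add_sub_cancel]
      rw [pow_succ]; ring
    rw [← mul_div_assoc, hp]
    unfold bb at h1 h2 ⊢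
    rw [sg_succ'] at hg1 h2 ⊢
    have e3 : 1 + s / sg m s * y = (sg m s + s * y) / sg m s := by field_simp
    have e4 : 1 + s / (sg m s + s ^ m) * y = (sg m s + s ^ m + s * y) / (sg m s + s ^ m) := by
      field_simp
    rw [e3] at h1 ⊢
    rw [e4]
    have h1' : sg m s + s * y ≠ 0 := fun h0 => h1 (by rw [h0, zero_div])
    field_simp
    ring
  have e2 : s * (cc m s / (1 + bb m s * y)) = (s ^ m / sg m s) / (1 + bb m s * y) := by
    unfold cc
    obtain ⟨k, rfl⟩ : ∃ k, m = k + 1 := ⟨m - 1, by omega⟩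
    simp only [Nat.add_sub_cancel]
    rw [pow_succ]; ring
  rw [e1, e2]
  unfold cc
  rw [Nat.add_sub_cancel]
  field_simp

/-- `B x = T_1 x` -/
lemma B_eq (s x : ℂ) : Bm s x = T s 1 x := by
  unfold Bm T
  rw [cc_one, bb_one]

lemma Am_zero (s : ℂ) : Am s 0 = 0 := by unfold Am; simp
lemma Bm_zero (s : ℂ) : Bm s 0 = 1 := by unfold Bm; simp

theorem t_EE (h : S_PAR) : S_EE := by
  intro s hs
  have hB : ∀ x ∈ W s, 23 / 45 ≤ (1 + s * x).re ∧ Bm s x ∈ ES s := by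
    intro x hx
    have h1 := re_of_W hx le_rfl
    rw [bb_one] at h1
    exact ⟨h1, Or.inr ⟨1, le_rfl, x, hx, B_eq s x⟩⟩
  refine ⟨W_zero s, ?_, hB, ?_⟩
  · have := (hB 0 (W_zero s)).2
    rwa [Bm_zero] at this
  · intro x hx
    have hxW : x ∈ W s := by
      rcases hx with rfl | ⟨m, hm, y, hy, rfl⟩
      · exact W_zero s
      · exact T_mem_W h hs hm (re_of_W hy hm)
    refine ⟨hxW, ?_, (hB x hxW).2⟩
    rcases hx with rfl | ⟨m, hm, y, hy, rfl⟩
    · rw [Am_zero]; exact Or.inl rfl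
    · refine Or.inr ⟨m + 1, by omega, y, hy, ?_⟩
      exact A_T hs hm (ne_of_re (re_of_W hy hm)) (ne_of_re (re_of_W hy (by omega)))

end Pool.Agent.Q268.MQ
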