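import Pool.Agent.Q268.MQ.Stm

set_option autoImplicit false

/-! Job FIN: the second moment of the question mark measure. -/

namespace Pool.Agent.Q268.MQ

open Filter Topology MeasureTheory Set

lemma one_mem_cd : (1:ℂ) ∈ cd := by show ‖(1:ℂ) - 1 / 2‖ ≤ 1 / 2; norm_num

lemma real_mem_W {x : ℝ} (h0 : 0 ≤ x) (h1 : x ≤ 1) : (x:ℂ) ∈ W 1 := by
  refine ⟨?_, fun m hm => ?_⟩
  · rw [Complex.norm_real, Real.norm_of_nonneg h0]; linarith
  · have : bb m 1 * (x:ℂ) = ((x / m : ℝ) : ℂ) := by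
      unfold bb sg
      simp only [one_pow, Finset.sum_const, Finset.card_range, nsmul_eq_mul, mul_one]
      push_cast
      ring
    rw [this, Complex.ofReal_re]
    have : 0 ≤ x / m := by positivity
    linarith

lemma Am_one_real (x : ℝ) : Am 1 (x:ℂ) = ((x / (1 + x) : ℝ) : ℂ) := by
  unfold Am; push_cast; ring

lemma Bm_one_real (x : ℝ) : Bm 1 (x:ℂ) = ((1 / (1 + x) : ℝ) : ℂ) := by
  unfold Bm; push_cast; ring

lemma a_mem {x : ℝ} (hx : x ∈ Icc (0:ℝ) 1) : x / (1 + x) ∈ Icc (0:ℝ) 1 := by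
  have h4 : 0 < 1 + x := by linarith [hx.1]
  exact ⟨div_nonneg hx.1 h4.le, (div_le_one h4).2 (by linarith)⟩

lemma b_mem {x : ℝ} (hx : x ∈ Icc (0:ℝ) 1) : 1 / (1 + x) ∈ Icc (0:ℝ) 1 := by
  have h4 : 0 < 1 + x := by linarith [hx.1]
  exact ⟨by positivity, (div_le_one h4).2 (by linarith [hx.1])⟩

lemma iter_real (j : ℕ) : ∀ x ∈ Icc (0:ℝ) 1, ∃ y ∈ Icc (0:ℝ) 1, (Am 1)^[j] (x:ℂ) = (y:ℂ) := by
  induction j with
  | zero => exact fun x hx => ⟨x, hx, rfl⟩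
  | succ j ih =>
    intro x hx
    rw [Function.iterate_succ_apply, Am_one_real]
    exact ih _ (a_mem hx)

lemma gN_real_succ (N : ℕ) (x : ℝ) : gN 2 1 (N + 1) (x:ℂ) =
    (gN 2 1 N ((x / (1 + x) : ℝ) : ℂ) + gN 2 1 N ((1 / (1 + x) : ℝ) : ℂ)) / 2 := by
  unfold gN
  rw [Function.iterate_succ_apply']
  show (_ + _) / 2 = _
  rw [Am_one_real, Bm_one_real]

lemma gN_real_cont (N : ℕ) : ContinuousOn (fun x : ℝ => gN 2 1 N (x:ℂ)) (Icc 0 1) := by
  induction N with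
  | zero =>
    apply Continuous.continuousOn
    show Continuous (fun x : ℝ => ((x:ℂ)) ^ 2)
    fun_prop
  | succ N ih =>
    have h : (fun x : ℝ => gN 2 1 (N + 1) (x:ℂ)) = fun x : ℝ =>
        (gN 2 1 N ((x / (1 + x) : ℝ) : ℂ) + gN 2 1 N ((1 / (1 + x) : ℝ) : ℂ)) / 2 :=
      funext (gN_real_succ N)
    rw [h]
    have hne : ∀ x ∈ Icc (0:ℝ) 1, 1 + x ≠ 0 := by
      intro x hx
      have := hx.1
      linarith
    apply ContinuousOn.div_const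
    apply ContinuousOn.add
    · exact ih.comp (t := Icc 0 1) (f := fun x : ℝ => x / (1 + x))
        (ContinuousOn.div continuousOn_id (by fun_prop) hne) (fun x hx => a_mem hx)
    · exact ih.comp (t := Icc 0 1) (f := fun x : ℝ => 1 / (1 + x))
        (ContinuousOn.div continuousOn_const (by fun_prop) hne) (fun x hx => b_mem hx)

theorem t_FIN (h2 : S_CON) (h3 : S_PHI) (h4 : S_INV) : S_FIN := by
  intro F hF0 hFq hF1 hFc
  obtain ⟨huniv, hcompl, hinv⟩ := h4 F hF0 hFq hF1 hFc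
  obtain ⟨C, q, hC, hq0, hq1, hcon⟩ := h2
  set μ := F.measure
  have : IsFiniteMeasure μ := ⟨by rw [huniv]; exact ENNReal.one_lt_top⟩
  have hIcc : μ.real (Icc (0:ℝ) 1) = 1 := by
    have h5 : μ (Icc (0:ℝ) 1) = 1 := by
      rw [← huniv]
      apply measure_congr
      have : ∀ᵐ x ∂μ, x ∈ Icc (0:ℝ) 1 := by rw [ae_iff]; exact hcompl
      filter_upwards [this] with x hx
      exact propext ⟨fun _ => trivial, fun _ => hx⟩
    rw [Measure.real, h5]; rfl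
  have hI : ∀ N : ℕ, ∫ x in Icc (0:ℝ) 1, gN 2 1 N (x:ℂ) ∂μ = ∫ x in Icc (0:ℝ) 1, (x:ℂ) ^ 2 ∂μ := by
    intro N
    induction N with
    | zero => rfl
    | succ N ih =>
      rw [← ih, hinv _ (gN_real_cont N)]
      simp_rw [gN_real_succ]
  have hbd : ∀ N : ℕ, ‖(∫ x in Icc (0:ℝ) 1, (x:ℂ) ^ 2 ∂μ) - gN 2 1 N 0‖ ≤ C * q ^ N := by
    intro N
    have e1 : ∫ x in Icc (0:ℝ) 1, gN 2 1 N 0 ∂μ = gN 2 1 N 0 := by
      rw [setIntegral_const, hIcc, one_smul]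
    have hint : IntegrableOn (fun x : ℝ => gN 2 1 N (x:ℂ)) (Icc 0 1) μ :=
      (gN_real_cont N).integrableOn_Icc
    have e2 : (∫ x in Icc (0:ℝ) 1, (x:ℂ) ^ 2 ∂μ) - gN 2 1 N 0 =
        ∫ x in Icc (0:ℝ) 1, (gN 2 1 N (x:ℂ) - gN 2 1 N 0) ∂μ := by
      rw [integral_sub hint (integrable_const _), e1, hI]
    rw [e2]
    have h5 := norm_setIntegral_le_of_norm_le_const (μ := μ) (s := Icc (0:ℝ) 1)
      (f := fun x : ℝ => gN 2 1 N (x:ℂ) - gN 2 1 N 0) (C := C * q ^ N) (measure_lt_top _ _) (by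
        intro x hx
        apply hcon 1 one_mem_cd _ (real_mem_W hx.1 hx.2)
        intro j
        obtain ⟨y, hy, e⟩ := iter_real j x hx
        rw [e]
        exact real_mem_W hy.1 hy.2)
    rwa [hIcc, mul_one] at h5
  have hlim : Tendsto (fun N : ℕ => C * q ^ N) atTop (𝓝 0) := by
    have := (tendsto_pow_atTop_nhds_zero_of_lt_one hq0.le hq1).const_mul C
    simpa using this
  have h6 : Tendsto (fun N : ℕ => (∫ x in Icc (0:ℝ) 1, (x:ℂ) ^ 2 ∂μ) - gN 2 1 N 0) atTop (𝓝 0) :=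
    squeeze_zero_norm hbd hlim
  have h7 : Tendsto (fun N : ℕ => (∫ x in Icc (0:ℝ) 1, (x:ℂ) ^ 2 ∂μ) - gN 2 1 N 0) atTop
      (𝓝 ((∫ x in Icc (0:ℝ) 1, (x:ℂ) ^ 2 ∂μ) - Mo 2 1)) :=
    (h3.1 1 one_mem_cd).const_sub _
  have h8 := tendsto_nhds_unique h7 h6
  rw [← sub_eq_zero, ← h8]
  congr 1
  rw [← integral_complex_ofReal]
  apply integral_congr_ae
  refine Eventually.of_forall (fun x => ?_)
  simp

end Pool.Agent.Q268.MQ
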