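import Pool.Agent.Q268.MQ.IQ1

set_option autoImplicit false

/-! Job L1. -/

namespace Pool.Agent.Q268.MQ

open Real

lemma l1_mid {ρ C : ℝ} (hρ0 : 0 < ρ) (hC : C ≤ 642 / 1000) :
    (61 / 80) ^ 2 ≤ 1 - 2 * (ρ * C) + ρ ^ 2 := by
  have h3 : 0 ≤ ρ * (642 / 1000 - C) := mul_nonneg hρ0.le (by linarith)
  nlinarith [sq_nonneg (ρ - 642 / 1000)]

lemma l1_poly {t : ℝ} (ht : 0 < t) (ht1 : t ≤ 6 / 5) :
    1 + t ^ 2 ≤ (1 + t ^ 2 - 61 / 40 * t) *
      (1 + 27 / 5 / 2 * t + (27 / 5 / 2 * t) ^ 2 / 2 - (27 / 5 / 2 * t) * t ^ 2 / 2) := by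
  have h : (1 + t ^ 2 - 61 / 40 * t) *
      (1 + 27 / 5 / 2 * t + (27 / 5 / 2 * t) ^ 2 / 2 - (27 / 5 / 2 * t) * t ^ 2 / 2) - (1 + t ^ 2) =
      t * (47 / 40 - 189 / 400 * t - 33669 / 8000 * t ^ 2 + 4563 / 800 * t ^ 3
        - 27 / 20 * t ^ 4) := by ring
  have h2 : 0 ≤ 47 / 40 - 189 / 400 * t - 33669 / 8000 * t ^ 2 + 4563 / 800 * t ^ 3
        - 27 / 20 * t ^ 4 := by
    nlinarith [sq_nonneg (t - 2 / 3), sq_nonneg (t * (t - 2 / 3)), mul_nonneg ht.le (sub_nonneg.2 ht1),
      mul_nonneg (sq_nonneg t) (sub_nonneg.2 ht1), mul_nonneg ht.le (sq_nonneg (t - 2 / 3))]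
  nlinarith [mul_nonneg ht.le h2]

theorem t_L1 : S_L1 := by
  intro t ht m hm
  have hn0 : 0 ≤ ‖(1 - t * Complex.I) * sg m (1 / (1 - t * Complex.I))‖ := norm_nonneg _
  have hD := D_norm t ht m
  have hR := D_re t ht m
  have hc := c_pos t
  have hc1 := c_le t
  have hρ0 : 0 < cos (arctan t) ^ m := pow_pos hc m
  have hρ1 : cos (arctan t) ^ m ≤ 1 := pow_le_one₀ hc.le hc1
  have hpi1 := Real.pi_gt_d4
  have hpi2 := Real.pi_lt_d4
  have hm2 : (2:ℝ) ≤ m := by exact_mod_cast hm
  set σ := 2 * t / (1 + t ^ 2) with hσ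
  have hσ0 : 0 < σ := by positivity
  have hσ1 : σ ≤ 1 := by
    rw [hσ, div_le_one (by positivity)]; nlinarith [sq_nonneg (t - 1)]
  have hσ2 : (1 + t ^ 2) ^ 2 / t ^ 2 = 4 / σ ^ 2 := by rw [hσ]; field_simp; ring
  rw [hσ2] at hD
  -- it suffices to bound `N²`
  have key : (61 / 80) ^ 2 * σ ^ 2 ≤ (1 - 2 * (cos (arctan t) ^ m * cos (m * arctan t)) +
      (cos (arctan t) ^ m) ^ 2) → 61 / 40 ≤ ‖(1 - t * Complex.I) * sg m (1 / (1 - t * Complex.I))‖ := by
    intro h
    have h1 : (61 / 40) ^ 2 ≤ ‖(1 - t * Complex.I) * sg m (1 / (1 - t * Complex.I))‖ ^ 2 := by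
      rw [hD]
      rw [div_mul_eq_mul_div, le_div_iff₀ (by positivity)]
      linarith
    exact (abs_le_of_sq_le_sq' h1 hn0).2
  rcases le_total (m * arctan t) π with hψ | hψ
  · -- `Re D ≥ 2`
    have h1 : 2 ≤ ((1 - t * Complex.I) * sg m (1 / (1 - t * Complex.I))).re := by
      rw [hR]
      have hs : 0 ≤ sin (m * arctan t - 2 * arctan t) := by
        apply sin_nonneg_of_nonneg_of_le_pi
        · nlinarith [th_pos ht]
        · linarith [th_pos ht]
      have h3 : sin (2 * arctan t) = 2 * t * cos (arctan t) ^ 2 := by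
        rw [sin_two_mul, sin_eq]; ring
      have h4 : cos (2 * arctan t) = (1 - t ^ 2) * cos (arctan t) ^ 2 := by
        rw [cos_two_mul]
        linear_combination (cos_sq_mul t)
      rw [sin_sub, h3, h4] at hs
      have h5 : 0 ≤ (1 - t ^ 2) * sin (m * arctan t) - 2 * t * cos (m * arctan t) := by
        have : 0 < cos (arctan t) ^ 2 := by positivity
        by_contra hcon
        push Not at hcon
        nlinarith
      have h6 : 2 * (1 - cos (arctan t) ^ m * cos (m * arctan t)) +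
          (1 - t ^ 2) / t * (cos (arctan t) ^ m * sin (m * arctan t)) =
          2 + cos (arctan t) ^ m / t *
            ((1 - t ^ 2) * sin (m * arctan t) - 2 * t * cos (m * arctan t)) := by
        field_simp
        ring
      rw [h6]
      have : 0 ≤ cos (arctan t) ^ m / t *
            ((1 - t ^ 2) * sin (m * arctan t) - 2 * t * cos (m * arctan t)) := by positivity
      linarith
    have h2 := Complex.re_le_norm ((1 - t * Complex.I) * sg m (1 / (1 - t * Complex.I)))
    linarith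
  rcases le_total (m * arctan t) (27 / 5) with hψ3 | hψ3
  · apply key
    have h := l1_mid hρ0 (cos_le_54 hψ hψ3)
    nlinarith [sq_nonneg σ]
  · have hN : (1 - cos (arctan t) ^ m) ^ 2 ≤ 1 - 2 * (cos (arctan t) ^ m * cos (m * arctan t)) +
      (cos (arctan t) ^ m) ^ 2 := by
      have := cos_le_one (m * arctan t)
      nlinarith
    have hm4 : 4 ≤ m := by
      have h1 : arctan t < π / 2 := arctan_lt_pi_div_two t
      have h2 : (3:ℝ) < m := by
        by_contra hcon
        push Not at hcon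
        nlinarith [th_pos ht]
      exact_mod_cast h2
    rcases le_total t (6 / 5) with ht1 | ht1
    · apply key
      refine le_trans ?_ hN
      have hK := K2 ht ht1 hm4 (27 / 5) (by norm_num) hψ3
      have hP := l1_poly ht ht1
      have hRρ : (1 / cos (arctan t)) ^ m * cos (arctan t) ^ m = 1 := by
        rw [← mul_pow]; field_simp; simp
      have h0 : 0 ≤ 1 + t ^ 2 - 61 / 40 * t := by nlinarith [sq_nonneg (t - 3 / 4)]
      have h1 : 1 + t ^ 2 ≤ (1 + t ^ 2 - 61 / 40 * t) * (1 / cos (arctan t)) ^ m :=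
        hP.trans (mul_le_mul_of_nonneg_left hK h0)
      have h2 : (1 + t ^ 2) * cos (arctan t) ^ m ≤ 1 + t ^ 2 - 61 / 40 * t := by
        have := mul_le_mul_of_nonneg_right h1 hρ0.le
        rw [mul_assoc, hRρ, mul_one] at this
        exact this
      have h3 : 61 / 80 * σ ≤ 1 - cos (arctan t) ^ m := by
        rw [hσ]
        rw [show 61 / 80 * (2 * t / (1 + t ^ 2)) = (61 / 40 * t) / (1 + t ^ 2) by ring]
        rw [div_le_iff₀ (by positivity)]
        linarith
      rw [← mul_pow]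
      exact pow_le_pow_left₀ (by positivity) h3 2
    · -- `t ≥ 6/5`
      have hρ4 : cos (arctan t) ^ m ≤ cos (arctan t) ^ 4 := pow_le_pow_of_le_one hc.le hc1 hm4
      have hc4 : cos (arctan t) ^ 4 * (1 + t ^ 2) ^ 2 = 1 := by
        have := cos_sq_mul t
        calc cos (arctan t) ^ 4 * (1 + t ^ 2) ^ 2 = (cos (arctan t) ^ 2 * (1 + t ^ 2)) ^ 2 := by ring
          _ = 1 := by rw [this]; norm_num
      apply key
      refine le_trans ?_ hN
      have h3 : 61 / 80 * σ ≤ 1 - cos (arctan t) ^ m := by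
        have h4 : cos (arctan t) ^ 4 ≤ 1 - 61 / 80 * σ := by
          have h5 : cos (arctan t) ^ 4 = 1 / (1 + t ^ 2) ^ 2 := by
            field_simp; linarith
          rw [h5, hσ, div_le_iff₀ (by positivity)]
          have h6 : (1 - 61 / 80 * (2 * t / (1 + t ^ 2))) * (1 + t ^ 2) ^ 2 =
              (1 + t ^ 2) ^ 2 - 61 / 40 * t * (1 + t ^ 2) := by
            field_simp
            ring
          rw [h6]
          nlinarith [mul_nonneg (sub_nonneg.2 ht1) (sub_nonneg.2 ht1), mul_pos ht ht,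
            mul_nonneg (mul_pos ht ht).le (sub_nonneg.2 ht1), mul_nonneg (mul_pos ht (mul_pos ht ht)).le (sub_nonneg.2 ht1)]
        linarith
      rw [← mul_pow]
      exact pow_le_pow_left₀ (by positivity) h3 2

end Pool.Agent.Q268.MQ
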