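import Pool.Agent.Q268.MQ.IL1

set_option autoImplicit false

/-! Job L2. -/

namespace Pool.Agent.Q268.MQ

open Real

/-- `1 - cos ψ ≥ 2 ψ²/π²` on `[0, π]` -/
lemma one_sub_cos_ge {ψ : ℝ} (h0 : 0 ≤ ψ) (h1 : ψ ≤ π) : 2 * ψ ^ 2 / π ^ 2 ≤ 1 - cos ψ := by
  have h2 : 1 - cos ψ = 2 * sin (ψ / 2) ^ 2 := by
    have := cos_sq (ψ / 2)
    have h3 := sin_sq_add_cos_sq (ψ / 2)
    have h4 : 2 * (ψ / 2) = ψ := by ring
    rw [h4] at this
    linarith
  have h5 : 2 / π * (ψ / 2) ≤ sin (ψ / 2) := mul_le_sin (by linarith) (by linarith)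
  have h6 : 0 ≤ 2 / π * (ψ / 2) := by positivity
  have h7 := pow_le_pow_left₀ h6 h5 2
  rw [h2]
  have h8 : 2 * ψ ^ 2 / π ^ 2 = 2 * (2 / π * (ψ / 2)) ^ 2 := by ring
  rw [h8]
  linarith

/-- `arctan t ≥ (π/4) t` on `[0,1]` -/
lemma arctan_ge {t : ℝ} (ht : 0 < t) (ht1 : t ≤ 1) : π / 4 * t ≤ arctan t := by
  -- `tan` is convex on `[0, π/2)`; alternatively use the mean value inequality for `arctan t / t`.
  have hpi := Real.pi_pos
  -- `f x = arctan x - (π/4) x` is concave on `[0,1]` with `f 0 = f 1 = 0`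
  have hconc : ConcaveOn ℝ (Set.Ici (0:ℝ)) arctan := by
    apply AntitoneOn.concaveOn_of_deriv (convex_Ici 0) continuous_arctan.continuousOn
      (fun x _ => (differentiable_arctan x).differentiableWithinAt)
    rw [interior_Ici]
    intro x hx y hy hxy
    rw [Real.deriv_arctan]
    have hx' : (0:ℝ) < x := hx
    have hy' : (0:ℝ) < y := hy
    simp only
    apply one_div_le_one_div_of_le (by positivity)
    nlinarith
  have h := hconc.2 (show (0:ℝ) ∈ Set.Ici 0 by simp) (show (1:ℝ) ∈ Set.Ici 0 by simp)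
    (sub_nonneg.2 ht1) ht.le (by ring)
  simp only [smul_eq_mul, mul_zero, zero_add, mul_one, arctan_zero, arctan_one] at h
  linarith

/-- the real quantity `t² |C|²` -/
noncomputable def CC (t : ℝ) (n : ℕ) : ℝ := ((1 / cos (arctan t)) ^ n) ^ 2 -
      2 * ((1 / cos (arctan t)) ^ n * cos (n * arctan t)) + 1

lemma R_ge_one (t : ℝ) (n : ℕ) : 1 ≤ (1 / cos (arctan t)) ^ n := by
  have hc := c_pos t
  apply one_le_pow₀
  rw [le_div_iff₀ hc]
  linarith [c_le t]

lemma R_mono (t : ℝ) {m n : ℕ} (h : m ≤ n) :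
    (1 / cos (arctan t)) ^ m ≤ (1 / cos (arctan t)) ^ n := by
  have hc := c_pos t
  apply pow_le_pow_right₀ _ h
  rw [le_div_iff₀ hc]
  linarith [c_le t]

lemma R_four (t : ℝ) : (1 / cos (arctan t)) ^ 4 = (1 + t ^ 2) ^ 2 := by
  have h := R_sq t 2
  rw [← h]; ring

lemma CC_ge (t : ℝ) (n : ℕ) : ((1 / cos (arctan t)) ^ n - 1) ^ 2 ≤ CC t n := by
  unfold CC
  have := cos_le_one (n * arctan t)
  have hR := R_ge_one t n
  nlinarith

/-- small cases by polynomials -/
lemma L2_small {t : ℝ} (ht : 0 < t) {n : ℕ} (hn : 3 ≤ n) (hn5 : n ≤ 5) :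
    (27 / 10 : ℝ) ^ 2 ≤ ‖sg n (1 - t * Complex.I)‖ ^ 2 := by
  rw [← Complex.normSq_eq_norm_sq, Complex.normSq_apply]
  interval_cases n
  · have h : sg 3 (1 - t * Complex.I) = ((3 - t ^ 2 : ℝ) : ℂ) + ((-3 * t : ℝ) : ℂ) * Complex.I := by
      simp only [sg, Finset.sum_range_succ, Finset.sum_range_zero]
      push_cast
      linear_combination ((t:ℂ) ^ 2) * Complex.I_sq
    rw [h]
    simp only [Complex.add_re, Complex.add_im, Complex.mul_re, Complex.mul_im, Complex.ofReal_re,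
      Complex.ofReal_im, Complex.I_re, Complex.I_im]
    ring_nf
    nlinarith [sq_nonneg t, sq_nonneg (t ^ 2)]
  · have h : sg 4 (1 - t * Complex.I) = ((4 - 4 * t ^ 2 : ℝ) : ℂ) +
        ((-6 * t + t ^ 3 : ℝ) : ℂ) * Complex.I := by
      simp only [sg, Finset.sum_range_succ, Finset.sum_range_zero]
      push_cast
      linear_combination (4 * (t:ℂ) ^ 2 - (t:ℂ) ^ 3 * Complex.I) * Complex.I_sq
    rw [h]
    simp only [Complex.add_re, Complex.add_im, Complex.mul_re, Complex.mul_im, Complex.ofReal_re,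
      Complex.ofReal_im, Complex.I_re, Complex.I_im]
    ring_nf
    nlinarith [sq_nonneg t, sq_nonneg (t ^ 2), sq_nonneg (t ^ 3)]
  · have h : sg 5 (1 - t * Complex.I) = ((5 - 10 * t ^ 2 + t ^ 4 : ℝ) : ℂ) +
        ((-10 * t + 5 * t ^ 3 : ℝ) : ℂ) * Complex.I := by
      simp only [sg, Finset.sum_range_succ, Finset.sum_range_zero]
      push_cast
      linear_combination (10 * (t:ℂ) ^ 2 - 5 * (t:ℂ) ^ 3 * Complex.I +
        (t:ℂ) ^ 4 * (Complex.I ^ 2 - 1)) * Complex.I_sq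
    rw [h]
    simp only [Complex.add_re, Complex.add_im, Complex.mul_re, Complex.mul_im, Complex.ofReal_re,
      Complex.ofReal_im, Complex.I_re, Complex.I_im]
    ring_nf
    nlinarith [sq_nonneg t, sq_nonneg (t ^ 2), sq_nonneg (t ^ 3), sq_nonneg (t ^ 4)]

lemma L2_large {t : ℝ} (ht : 0 < t) {n : ℕ} (hn : 6 ≤ n) :
    (27 / 10 : ℝ) ^ 2 * t ^ 2 ≤ CC t n := by
  have hR1 := R_ge_one t n
  have hn' : (6:ℝ) ≤ n := by exact_mod_cast hn
  have hpi1 := Real.pi_gt_d4
  have hpi2 := Real.pi_lt_d4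
  rcases le_total 1 t with ht1 | ht1
  · refine le_trans ?_ (CC_ge t n)
    have h1 : (1 + t ^ 2) ^ 2 ≤ (1 / cos (arctan t)) ^ n := by
      rw [← R_four]; exact R_mono t (by omega)
    have h2 : 27 / 10 * t ≤ (1 / cos (arctan t)) ^ n - 1 := by nlinarith [sq_nonneg (t - 1), mul_pos ht ht]
    rw [← mul_pow]
    exact pow_le_pow_left₀ (by positivity) h2 2
  -- `t ≤ 1`
  have hfac : CC t n = ((1 / cos (arctan t)) ^ n - 1) ^ 2 +
      2 * (1 / cos (arctan t)) ^ n * (1 - cos (n * arctan t)) := by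
    unfold CC; ring
  rcases le_total (n * arctan t) π with hψ | hψ
  · have h0 : 0 ≤ n * arctan t := by have := th_pos ht; positivity
    have h1 := one_sub_cos_ge h0 hψ
    have h2 := arctan_ge ht ht1
    have h3 : (n * (π / 4 * t)) ^ 2 ≤ (n * arctan t) ^ 2 := by
      apply pow_le_pow_left₀ (by positivity)
      exact mul_le_mul_of_nonneg_left h2 (by positivity)
    have h4 : n ^ 2 * t ^ 2 / 8 ≤ 1 - cos (n * arctan t) := by
      refine le_trans ?_ h1
      rw [le_div_iff₀ (by positivity)]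
      nlinarith
    have h5 : 36 * t ^ 2 / 8 ≤ 1 - cos (n * arctan t) := by
      refine le_trans ?_ h4
      have : (36:ℝ) ≤ n ^ 2 := by nlinarith
      nlinarith [sq_nonneg t]
    rw [hfac]
    nlinarith [sq_nonneg ((1 / cos (arctan t)) ^ n - 1), sq_nonneg t]
  rcases le_total (n * arctan t) (3 * π / 2) with hψ2 | hψ2
  · have hC : cos (n * arctan t) ≤ 0 := cos_nonpos_mid (by linarith) hψ2
    have hK := K1' ht (m := n) (by omega) (157 / 50) (by linarith)
    have h1 : ((1 / cos (arctan t)) ^ n) ^ 2 + 1 ≤ CC t n := by unfold CC; nlinarith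
    have h2 := pow_le_pow_left₀ (by positivity) hK 2
    nlinarith [mul_nonneg ht.le (sub_nonneg.2 ht1)]
  rcases le_total (n * arctan t) (27 / 5) with hψ3 | hψ3
  · have hC := cos_le_54 hψ hψ3
    have hK := K1' ht (m := n) (by omega) (471 / 100) (by linarith)
    rw [hfac]
    have h2 : (471 / 200 * t) ^ 2 ≤ ((1 / cos (arctan t)) ^ n - 1) ^ 2 :=
      pow_le_pow_left₀ (by positivity) (by linarith) 2
    have h3 : (1 + 471 / 200 * t) * (358 / 1000) ≤
        (1 / cos (arctan t)) ^ n * (1 - cos (n * arctan t)) :=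
      mul_le_mul (by linarith) (by linarith) (by norm_num) (by linarith)
    nlinarith [mul_nonneg ht.le (sub_nonneg.2 ht1)]
  · have hK := K1' ht (m := n) (by omega) (27 / 5) hψ3
    refine le_trans ?_ (CC_ge t n)
    rw [← mul_pow]
    exact pow_le_pow_left₀ (by positivity) (by linarith) 2

theorem L2_sq {t : ℝ} (ht : 0 < t) {n : ℕ} (hn : 3 ≤ n) :
    (27 / 10 : ℝ) ^ 2 ≤ ‖sg n (1 - t * Complex.I)‖ ^ 2 := by
  rcases le_total n 5 with h | h
  · exact L2_small ht hn h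
  rcases Nat.lt_or_ge n 6 with h6 | h6
  · exact L2_small ht hn (by omega)
  rw [C_norm t ht, le_div_iff₀ (by positivity)]
  exact L2_large ht h6

theorem t_L2 : S_L2 := by
  intro t ht n hn
  exact (abs_le_of_sq_le_sq' (L2_sq ht hn) (norm_nonneg _)).2

end Pool.Agent.Q268.MQ
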