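import Pool.Agent.Q268.MQ.ST

set_option autoImplicit false

/-! Job INV: invariance of the measure of the question mark function. -/

namespace Pool.Agent.Q268.MQ

open Filter Topology MeasureTheory Set

theorem t_INV (hQM : S_QM) : S_INV := by
  intro F hF0 hFq hF1 hFc
  obtain ⟨hq0, hq1, hq⟩ := hQM
  set μ := F.measure with hμ
  have hbot : Tendsto F atBot (𝓝 0) := by
    apply tendsto_const_nhds.congr'
    filter_upwards [eventually_lt_atBot 0] with x hx
    exact (hF0 x hx).symm
  have htop : Tendsto F atTop (𝓝 1) := by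
    apply tendsto_const_nhds.congr'
    filter_upwards [eventually_gt_atTop 1] with x hx
    exact (hF1 x hx).symm
  have hF1' : F 1 = 1 := by rw [hFq 1 zero_le_one le_rfl, hq1]
  have hF0' : F 0 = 0 := by rw [hFq 0 le_rfl zero_le_one, hq0]
  have hll : ∀ x, Function.leftLim F x = F x := fun x =>
    ContinuousWithinAt.leftLim_eq hFc.continuousAt.continuousWithinAt
  have huniv : μ univ = 1 := by
    rw [hμ, F.measure_univ hbot htop]; simp
  have hIic : ∀ x, μ (Iic x) = ENNReal.ofReal (F x) := by
    intro x; rw [hμ, F.measure_Iic hbot, sub_zero]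
  have hIci : ∀ x, μ (Ici x) = ENNReal.ofReal (1 - F x) := by
    intro x; rw [hμ, F.measure_Ici htop, hll]
  have hcompl : μ (Icc 0 1)ᶜ = 0 := by
    have : (Icc (0:ℝ) 1)ᶜ = Iio 0 ∪ Ioi 1 := by
      ext x; simp only [mem_compl_iff, mem_Icc, mem_union, mem_Iio, mem_Ioi, not_and_or, not_le]
    rw [this]
    apply le_antisymm _ (by simp)
    refine (measure_union_le _ _).trans ?_
    have e1 : μ (Iio 0) = 0 := by
      rw [hμ, F.measure_Iio hbot, hll, hF0']; simp
    have e2 : μ (Ioi 1) = 0 := by
      rw [hμ, F.measure_Ioi htop, hF1']; simp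
    rw [e1, e2]; simp
  refine ⟨huniv, hcompl, ?_⟩
  have : IsFiniteMeasure μ := ⟨by rw [huniv]; exact ENNReal.one_lt_top⟩
  have hae : ∀ᵐ x ∂μ, x ∈ Icc (0:ℝ) 1 := by
    rw [ae_iff]; exact hcompl
  have hset : ∀ s t : Set ℝ, (∀ x ∈ Icc (0:ℝ) 1, (x ∈ s ↔ x ∈ t)) → μ s = μ t := by
    intro s t hst
    apply measure_congr
    filter_upwards [hae] with x hx
    exact propext (hst x hx)
  have hma : Measurable (fun x : ℝ => x / (1 + x)) := by fun_prop
  have hmb : Measurable (fun x : ℝ => 1 / (1 + x)) := by fun_prop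
  have hinv : μ + μ = Measure.map (fun x : ℝ => x / (1 + x)) μ + Measure.map (fun x : ℝ => 1 / (1 + x)) μ := by
    apply Measure.ext_of_Iic
    intro t
    rw [Measure.add_apply, Measure.add_apply, Measure.map_apply hma measurableSet_Iic,
      Measure.map_apply hmb measurableSet_Iic]
    rcases lt_or_ge t 0 with h | h
    · -- t < 0
      have e1 : μ ((fun x : ℝ => x / (1 + x)) ⁻¹' Iic t) = μ ∅ := by
        apply hset
        intro x hx
        have : 0 ≤ x / (1 + x) := div_nonneg hx.1 (by linarith [hx.1])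
        simp only [mem_preimage, mem_Iic, mem_empty_iff_false, iff_false, not_le]
        linarith
      have e2 : μ ((fun x : ℝ => 1 / (1 + x)) ⁻¹' Iic t) = μ ∅ := by
        apply hset
        intro x hx
        have : 0 ≤ 1 / (1 + x) := div_nonneg zero_le_one (by linarith [hx.1])
        simp only [mem_preimage, mem_Iic, mem_empty_iff_false, iff_false, not_le]
        linarith
      rw [e1, e2, hIic, hF0 t h]; simp
    rcases lt_or_ge t (1 / 2) with h2 | h2
    · have e1 : μ ((fun x : ℝ => x / (1 + x)) ⁻¹' Iic t) = μ (Iic (t / (1 - t))) := by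
        apply hset
        intro x hx
        have h3 : 0 < 1 + x := by linarith [hx.1]
        have h4 : 0 < 1 - t := by linarith
        simp only [mem_preimage, mem_Iic]
        rw [div_le_iff₀ h3, le_div_iff₀ h4]
        constructor <;> intro h <;> linarith
      have e2 : μ ((fun x : ℝ => 1 / (1 + x)) ⁻¹' Iic t) = μ ∅ := by
        apply hset
        intro x hx
        have h3 : 0 < 1 + x := by linarith [hx.1]
        simp only [mem_preimage, mem_Iic, mem_empty_iff_false, iff_false, not_le]
        rw [lt_div_iff₀ h3]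
        nlinarith [hx.1, hx.2]
      obtain ⟨a1, a2, a3⟩ := left_inv h h2.le
      have e3 := (hq _ a1 a2).2.2.1
      rw [← a3] at e3
      rw [e1, e2, hIic, hIic, hFq t h (by linarith), hFq _ a1 a2, e3, measure_empty, add_zero,
        ← ENNReal.ofReal_add (by have := (hq _ a1 a2).1; linarith) (by have := (hq _ a1 a2).1; linarith)]
      congr 1; ring
    rcases le_or_gt t 1 with h3 | h3
    · have ht : 0 < t := by linarith
      have e1 : μ ((fun x : ℝ => x / (1 + x)) ⁻¹' Iic t) = μ univ := by
        apply hset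
        intro x hx
        have h4 : 0 < 1 + x := by linarith [hx.1]
        simp only [mem_preimage, mem_Iic, mem_univ, iff_true]
        rw [div_le_iff₀ h4]
        nlinarith [hx.1, hx.2]
      have e2 : μ ((fun x : ℝ => 1 / (1 + x)) ⁻¹' Iic t) = μ (Ici ((1 - t) / t)) := by
        apply hset
        intro x hx
        have h4 : 0 < 1 + x := by linarith [hx.1]
        simp only [mem_preimage, mem_Iic, mem_Ici]
        rw [div_le_iff₀ h4, div_le_iff₀ ht]
        constructor <;> intro h <;> linarith
      obtain ⟨a1, a2, a3⟩ := right_inv h2 h3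
      have e3 := (hq _ a1 a2).2.2.2
      rw [← a3] at e3
      have f1 := (hq _ a1 a2).1
      have f2 := (hq _ a1 a2).2.1
      rw [e1, e2, hIic, hIci, hFq t h h3, hFq _ a1 a2, e3, huniv, ← ENNReal.ofReal_one,
        ← ENNReal.ofReal_add (by linarith) (by linarith),
        ← ENNReal.ofReal_add (by norm_num) (by linarith)]
      congr 1; ring
    · have e1 : μ ((fun x : ℝ => x / (1 + x)) ⁻¹' Iic t) = μ univ := by
        apply hset
        intro x hx
        have h4 : 0 < 1 + x := by linarith [hx.1]
        simp only [mem_preimage, mem_Iic, mem_univ, iff_true]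
        rw [div_le_iff₀ h4]
        nlinarith [hx.1, hx.2]
      have e2 : μ ((fun x : ℝ => 1 / (1 + x)) ⁻¹' Iic t) = μ univ := by
        apply hset
        intro x hx
        have h4 : 0 < 1 + x := by linarith [hx.1]
        simp only [mem_preimage, mem_Iic, mem_univ, iff_true]
        rw [div_le_iff₀ h4]
        nlinarith [hx.1, hx.2]
      rw [e1, e2, hIic, hF1 t h3, huniv, ENNReal.ofReal_one]
  intro f hf
  -- continuous extension
  set g : ℝ → ℂ := fun x => f (max 0 (min x 1)) with hg
  have hclamp : ∀ x : ℝ, max 0 (min x 1) ∈ Icc (0:ℝ) 1 := fun x =>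
    ⟨le_max_left _ _, max_le zero_le_one (min_le_right _ _)⟩
  have hgc : Continuous g := hf.comp_continuous (by fun_prop) hclamp
  have hgf : ∀ x ∈ Icc (0:ℝ) 1, g x = f x := by
    intro x hx
    simp only [hg]
    rw [min_eq_left hx.2, max_eq_right hx.1]
  obtain ⟨C, hC⟩ := isCompact_Icc.exists_bound_of_continuousOn hf
  have hgb : ∀ x, ‖g x‖ ≤ C := fun x => hC _ (hclamp x)
  have hrest : μ.restrict (Icc 0 1) = μ := Measure.restrict_eq_self_of_ae_mem hae
  have e1 : ∫ x in Icc (0:ℝ) 1, f x ∂μ = ∫ x, g x ∂μ := by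
    rw [← hrest]
    rw [hrest]
    exact setIntegral_congr_fun measurableSet_Icc (fun x hx => (hgf x hx).symm) |>.trans (by rw [hrest])
  have e2 : ∫ x in Icc (0:ℝ) 1, (f (x / (1 + x)) + f (1 / (1 + x))) / 2 ∂μ =
      ∫ x, (g (x / (1 + x)) + g (1 / (1 + x))) / 2 ∂μ := by
    have : ∫ x in Icc (0:ℝ) 1, (f (x / (1 + x)) + f (1 / (1 + x))) / 2 ∂μ =
        ∫ x in Icc (0:ℝ) 1, (g (x / (1 + x)) + g (1 / (1 + x))) / 2 ∂μ := by
      apply setIntegral_congr_fun measurableSet_Icc
      intro x hx
      have h4 : 0 < 1 + x := by linarith [hx.1]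
      simp only
      rw [hgf (x / (1 + x)) ⟨div_nonneg hx.1 h4.le, (div_le_one h4).2 (by linarith)⟩,
        hgf (1 / (1 + x)) ⟨by positivity, (div_le_one h4).2 (by linarith [hx.1])⟩]
    rw [this, hrest]
  rw [e1, e2]
  have hgi : Integrable g μ := Integrable.of_bound hgc.aestronglyMeasurable C (Eventually.of_forall hgb)
  have hga : Integrable (fun x => g (x / (1 + x))) μ :=
    Integrable.of_bound (hgc.stronglyMeasurable.comp_measurable hma).aestronglyMeasurable C
      (Eventually.of_forall (fun x => hgb _))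
  have hgb' : Integrable (fun x => g (1 / (1 + x))) μ :=
    Integrable.of_bound (hgc.stronglyMeasurable.comp_measurable hmb).aestronglyMeasurable C
      (Eventually.of_forall (fun x => hgb _))
  have h5 : ∫ x, g x ∂(μ + μ) = ∫ x, g x ∂(Measure.map (fun x : ℝ => x / (1 + x)) μ +
    Measure.map (fun x : ℝ => 1 / (1 + x)) μ) := by rw [hinv]
  rw [integral_add_measure hgi hgi, integral_add_measure
    (Integrable.of_bound hgc.aestronglyMeasurable C (Eventually.of_forall hgb))
    (Integrable.of_bound hgc.aestronglyMeasurable C (Eventually.of_forall hgb)),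
    integral_map_of_stronglyMeasurable hma hgc.stronglyMeasurable,
    integral_map_of_stronglyMeasurable hmb hgc.stronglyMeasurable] at h5
  rw [integral_div, integral_add hga hgb', ← h5]
  ring

end Pool.Agent.Q268.MQ
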