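import Pool.Agent.Q268.MQ.Key

set_option autoImplicit false

/-! Job Q1 and job L1. -/

namespace Pool.Agent.Q268.MQ

open Real

/-- `cos ψ ≤ 0.642` on `[π, 5.4]`, `cos ψ ≤ 0` on `[π, 3π/2]`. -/
lemma cos_le_54 {ψ : ℝ} (h1 : π ≤ ψ) (h2 : ψ ≤ 27 / 5) : cos ψ ≤ 642 / 1000 := by
  have hpi1 := Real.pi_gt_d4
  have hpi2 := Real.pi_lt_d4
  have e1 : cos ψ = cos (2 * π - ψ) := by rw [cos_two_pi_sub]
  rw [e1]
  have h3 : cos (2 * π - ψ) ≤ cos (2 * π - 27 / 5) := by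
    apply cos_le_cos_of_nonneg_of_le_pi <;> linarith
  refine h3.trans ?_
  have h4 : |2 * π - 27 / 5| ≤ 1 := by rw [abs_le]; constructor <;> linarith
  have h5 := Real.cos_bound h4
  rw [abs_le] at h5
  have h6 : |2 * π - 27 / 5| = 2 * π - 27 / 5 := abs_of_nonneg (by linarith)
  rw [h6] at h5
  have h7 : 2 * π - 27 / 5 ≤ 8834 / 10000 := by linarith
  have h8 : 8830 / 10000 ≤ 2 * π - 27 / 5 := by linarith
  have h9 : (2 * π - 27 / 5) ^ 4 ≤ (8834 / 10000) ^ 4 := pow_le_pow_left₀ (by linarith) h7 4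
  have h10 : (8830 / 10000) ^ 2 ≤ (2 * π - 27 / 5) ^ 2 := pow_le_pow_left₀ (by norm_num) h8 2
  norm_num at h9 h10
  linarith [h5.2]

lemma cos_nonpos_mid {ψ : ℝ} (h1 : π / 2 ≤ ψ) (h2 : ψ ≤ 3 * π / 2) : cos ψ ≤ 0 :=
  cos_nonpos_of_pi_div_two_le_of_le h1 (by linarith)

lemma case2 {ρ σ X C : ℝ} (hρ0 : 0 < ρ) (hσ0 : 0 < σ) (hσ1 : σ ≤ 1) (hX : -1 ≤ X) (hC : C ≤ 0) :
    0 ≤ 7 / 10 * (1 - 2 * (ρ * C) + ρ ^ 2) + σ ^ 2 / 10 + σ * ρ * X := by
  have h1 : 0 ≤ σ * ρ * (X + 1) := by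
    apply mul_nonneg (by positivity) (by linarith)
  have h2 : 0 ≤ ρ * (1 - σ) := mul_nonneg hρ0.le (by linarith)
  have h3 : 0 ≤ ρ * (-C) := mul_nonneg hρ0.le (by linarith)
  nlinarith [sq_nonneg (ρ - 1), sq_nonneg σ]

lemma case3 {ρ σ X C : ℝ} (hρ0 : 0 < ρ) (hσ0 : 0 < σ) (hX : -1 ≤ X) (hC : C ≤ 642 / 1000)
    (hK : ρ * (471 / 100 / 4 * σ) ^ 2 ≤ (1 - ρ) ^ 2) :
    0 ≤ 7 / 10 * (1 - 2 * (ρ * C) + ρ ^ 2) + σ ^ 2 / 10 + σ * ρ * X := by
  have h1 : 0 ≤ σ * ρ * (X + 1) := by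
    apply mul_nonneg (by positivity) (by linarith)
  have h2 : 0 ≤ ρ * (7 / 10 * (471 / 100 / 4 * σ) ^ 2 + 14 / 10 * (358 / 1000) - σ) := by
    apply mul_nonneg hρ0.le
    nlinarith [sq_nonneg (σ - 51 / 100)]
  have h3 : 0 ≤ ρ * (642 / 1000 - C) := mul_nonneg hρ0.le (by linarith)
  have h4 := sq_nonneg σ
  nlinarith

lemma case4 {ρ σ χ S C : ℝ} (hρ0 : 0 < ρ) (hρ1 : ρ ≤ 1) 
    (hCS : (14 / 10 + σ ^ 2) * C - σ * χ * S ≤ 14 / 10 + 13572 / 10000 * σ ^ 2)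
    (hK : ρ * (27 / 5 / 4 * σ) ^ 2 ≤ (1 - ρ) ^ 2) :
    0 ≤ 7 / 10 * (1 - 2 * (ρ * C) + ρ ^ 2) + σ ^ 2 / 10 + σ * ρ * (χ * S - σ * C) := by
  have h1 : 0 ≤ ρ * (14 / 10 + 13572 / 10000 * σ ^ 2 - ((14 / 10 + σ ^ 2) * C - σ * χ * S)) :=
    mul_nonneg hρ0.le (by linarith)
  have h2 : 0 ≤ (1 - ρ) * σ ^ 2 := mul_nonneg (by linarith) (sq_nonneg _)
  have h3 : 0 ≤ ρ * σ ^ 2 := mul_nonneg hρ0.le (sq_nonneg _)
  nlinarith

/-- the inequality `G ≥ 0` -/
lemma G_nonneg {t : ℝ} (ht : 0 < t) {m : ℕ} (hm : 2 ≤ m) :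
    0 ≤ 7 / 10 * (1 - 2 * (cos (arctan t) ^ m * cos (m * arctan t)) + (cos (arctan t) ^ m) ^ 2) +
      (2 * t / (1 + t ^ 2)) ^ 2 / 10 +
      (2 * t / (1 + t ^ 2)) * cos (arctan t) ^ m *
        ((1 - t ^ 2) / (1 + t ^ 2) * sin (m * arctan t) -
          (2 * t / (1 + t ^ 2)) * cos (m * arctan t)) := by
  have hc := c_pos t
  have hc1 := c_le t
  have hρ0 : 0 < cos (arctan t) ^ m := pow_pos hc m
  have hρ1 : cos (arctan t) ^ m ≤ 1 := pow_le_one₀ hc.le hc1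
  have hpi1 := Real.pi_gt_d4
  have hpi2 := Real.pi_lt_d4
  set σ := 2 * t / (1 + t ^ 2) with hσ
  set χ := (1 - t ^ 2) / (1 + t ^ 2) with hχ
  have hσ0 : 0 < σ := by positivity
  have hσ1 : σ ≤ 1 := by
    rw [hσ, div_le_one (by positivity)]; nlinarith [sq_nonneg (t - 1)]
  have hσχ : σ ^ 2 + χ ^ 2 = 1 := by
    rw [hσ, hχ]; field_simp; ring
  have hsc := sin_sq_add_cos_sq (m * arctan t)
  -- the sine of `ψ - 2θ`
  have hsin : χ * sin (m * arctan t) - σ * cos (m * arctan t) = sin (m * arctan t - 2 * arctan t) := by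
    have h1 : sin (2 * arctan t) = σ := by
      rw [sin_two_mul, sin_eq]
      have h := cos_sq_mul t
      rw [hσ]
      field_simp
      linear_combination h
    have h2 : cos (2 * arctan t) = χ := by
      rw [cos_two_mul]
      have h := cos_sq_mul t
      rw [hχ]
      field_simp
      linear_combination 2 * h
    rw [sin_sub, h1, h2]; ring
  have hle : -1 ≤ χ * sin (m * arctan t) - σ * cos (m * arctan t) := by
    rw [hsin]; exact neg_one_le_sin _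
  have hN : 0 ≤ 1 - 2 * (cos (arctan t) ^ m * cos (m * arctan t)) + (cos (arctan t) ^ m) ^ 2 := by
    nlinarith [sq_nonneg (cos (arctan t) ^ m - cos (m * arctan t)), sq_nonneg (sin (m * arctan t))]
  rcases le_total (m * arctan t) π with hψ | hψ
  · -- case 1
    have h1 : 0 ≤ χ * sin (m * arctan t) - σ * cos (m * arctan t) := by
      rw [hsin]
      apply sin_nonneg_of_nonneg_of_le_pi
      · have : (2:ℝ) ≤ m := by exact_mod_cast hm
        nlinarith [th_pos ht]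
      · linarith [th_pos ht]
    exact add_nonneg (add_nonneg (mul_nonneg (by norm_num) hN) (by positivity))
      (mul_nonneg (by positivity) h1)
  rcases le_total (m * arctan t) (3 * π / 2) with hψ2 | hψ2
  · -- case 2
    have hC : cos (m * arctan t) ≤ 0 := cos_nonpos_mid (by linarith) hψ2
    exact case2 hρ0 hσ0 hσ1 hle hC
  rcases le_total (m * arctan t) (27 / 5) with hψ3 | hψ3
  · -- case 3
    have hC : cos (m * arctan t) ≤ 642 / 1000 := cos_le_54 hψ hψ3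
    have hK := K3' ht m (471 / 100) (by norm_num) (by linarith)
    rw [← hσ] at hK
    exact case3 hρ0 hσ0 hle hC hK
  · -- case 4
    have hK := K3' ht m (27 / 5) (by norm_num) (by linarith)
    rw [← hσ] at hK
    have hCS : (14 / 10 + σ ^ 2) * cos (m * arctan t) - σ * χ * sin (m * arctan t) ≤
        14 / 10 + 13572 / 10000 * σ ^ 2 := by
      refine (abs_le_of_sq_le_sq' ?_ (by positivity)).2
      · have h1 : ((14 / 10 + σ ^ 2) * cos (m * arctan t) - σ * χ * sin (m * arctan t)) ^ 2 ≤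
            ((14 / 10 + σ ^ 2) ^ 2 + (σ * χ) ^ 2) *
              (sin (m * arctan t) ^ 2 + cos (m * arctan t) ^ 2) := by
          nlinarith [sq_nonneg ((14 / 10 + σ ^ 2) * sin (m * arctan t) +
            σ * χ * cos (m * arctan t))]
        rw [hsc] at h1
        have h2 : χ ^ 2 = 1 - σ ^ 2 := by linarith
        have h3 : (σ * χ) ^ 2 = σ ^ 2 * (1 - σ ^ 2) := by rw [mul_pow, h2]
        rw [h3] at h1
        nlinarith [sq_nonneg (σ ^ 2)]
    exact case4 hρ0 hρ1 hCS hK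

theorem t_Q1 : S_Q1 := by
  intro t ht m hm
  have hG := G_nonneg ht hm
  rw [D_norm t ht, D_re t ht]
  have hc := c_pos t
  have h : 7 / 20 * ((1 + t ^ 2) ^ 2 / t ^ 2 *
      (1 - 2 * (cos (arctan t) ^ m * cos (m * arctan t)) + (cos (arctan t) ^ m) ^ 2)) +
      (2 * (1 - cos (arctan t) ^ m * cos (m * arctan t)) +
      (1 - t ^ 2) / t * (cos (arctan t) ^ m * sin (m * arctan t))) - 9 / 5 =
      (1 + t ^ 2) ^ 2 / (2 * t ^ 2) * (7 / 10 * (1 - 2 * (cos (arctan t) ^ m * cos (m * arctan t)) +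
        (cos (arctan t) ^ m) ^ 2) +
      (2 * t / (1 + t ^ 2)) ^ 2 / 10 +
      (2 * t / (1 + t ^ 2)) * cos (arctan t) ^ m *
        ((1 - t ^ 2) / (1 + t ^ 2) * sin (m * arctan t) -
          (2 * t / (1 + t ^ 2)) * cos (m * arctan t))) := by
    generalize cos (arctan t) ^ m = ρ
    generalize sin (m * arctan t) = S
    generalize cos (m * arctan t) = C
    field_simp
    ring
  have h2 : 0 ≤ (1 + t ^ 2) ^ 2 / (2 * t ^ 2) := by positivity
  have h3 := mul_nonneg h2 hG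
  rw [← h] at h3
  linarith

end Pool.Agent.Q268.MQ
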