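import Pool.Agent.Q268.MQ.IL2

set_option autoImplicit false

/-! Job Q2. -/

namespace Pool.Agent.Q268.MQ

open Real

/-- `G₂` -/
noncomputable def G2 (t c R C Sn : ℝ) : ℝ :=
  7 / 20 * (R ^ 2 - 2 * (R * C) + 1) + t ^ 2 * c ^ 2 * (R * C - 14 / 5) + t * c ^ 2 * (R * Sn)

lemma of_G2 {t c R C Sn : ℝ} (ht : 0 < t) (hc : 0 < c) (hct : c ^ 2 * (1 + t ^ 2) = 1)
    (h : 0 ≤ G2 t c R C Sn) :
    (9 / 5 : ℝ) ≤ 7 / 20 * ((1 + t ^ 2) * ((R ^ 2 - 2 * (R * C) + 1) / t ^ 2)) +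
      (R * C - 1 + R * Sn / t) := by
  have h1 : (t ^ 2 * c ^ 2) * (7 / 20 * ((1 + t ^ 2) * ((R ^ 2 - 2 * (R * C) + 1) / t ^ 2)) +
      (R * C - 1 + R * Sn / t) - 9 / 5) = G2 t c R C Sn := by
    unfold G2
    field_simp
    linear_combination (7 / 20 * (R ^ 2 - 2 * (R * C) + 1)) * 100 * hct
  have h2 : 0 < t ^ 2 * c ^ 2 := by positivity
  by_contra hcon
  push Not at hcon
  have := mul_neg_of_pos_of_neg h2 (sub_neg.2 hcon)
  rw [h1] at this
  linarith

lemma brak {t c C Sn : ℝ} (hct : c ^ 2 * (1 + t ^ 2) = 1) (hsc : Sn ^ 2 + C ^ 2 = 1) :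
    ((7 / 10 - t ^ 2 * c ^ 2) * C - t * c ^ 2 * Sn) ^ 2 ≤ 49 / 100 - 4 / 10 * (t ^ 2 * c ^ 2) := by
  have h1 : ((7 / 10 - t ^ 2 * c ^ 2) * C - t * c ^ 2 * Sn) ^ 2 ≤
      ((7 / 10 - t ^ 2 * c ^ 2) ^ 2 + (t * c ^ 2) ^ 2) * (Sn ^ 2 + C ^ 2) := by
    nlinarith [sq_nonneg ((7 / 10 - t ^ 2 * c ^ 2) * Sn + t * c ^ 2 * C)]
  rw [hsc] at h1
  have h2 : (t * c ^ 2) ^ 2 = t ^ 2 * c ^ 2 * (1 - t ^ 2 * c ^ 2) := by
    linear_combination (t ^ 2 * c ^ 2) * hct
  rw [h2] at h1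
  nlinarith

lemma G2_eq (t c R C Sn : ℝ) : G2 t c R C Sn = 7 / 20 * (R ^ 2 + 1) - 14 / 5 * (t ^ 2 * c ^ 2) -
    R * ((7 / 10 - t ^ 2 * c ^ 2) * C - t * c ^ 2 * Sn) := by
  unfold G2; ring

/-- `t ≥ 1`, all angles -/
lemma G2_big {t c R C Sn : ℝ} (ht1 : 1 ≤ t) (hct : c ^ 2 * (1 + t ^ 2) = 1)
    (hsc : Sn ^ 2 + C ^ 2 = 1) (hR0 : 0 < R) (hR : (1 + t ^ 2) ^ 3 ≤ R ^ 2) :
    0 ≤ G2 t c R C Sn := by
  rw [G2_eq]
  have hb := brak hct hsc
  have hx : (1:ℝ) / 2 ≤ t ^ 2 * c ^ 2 := by nlinarith [sq_nonneg c]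
  have hb2 : ((7 / 10 - t ^ 2 * c ^ 2) * C - t * c ^ 2 * Sn) ≤ 5386 / 10000 := by
    refine (abs_le_of_sq_le_sq' (hb.trans ?_) (by norm_num)).2
    nlinarith
  have hy : 2 ≤ 1 + t ^ 2 := by nlinarith
  have hS : t ^ 2 * c ^ 2 = 1 - c ^ 2 := by linear_combination hct
  have hR2 : 8 ≤ R ^ 2 := by
    refine le_trans ?_ hR
    have := pow_le_pow_left₀ (by norm_num) hy 3
    linarith
  have hRR : 2828 / 1000 ≤ R := (abs_le_of_sq_le_sq' (a := 2828 / 1000) (b := R) (by norm_num; linarith) hR0.le).2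
  have hRR2 : 2828 / 1000 * R ≤ R ^ 2 := by nlinarith
  have h1 : R * ((7 / 10 - t ^ 2 * c ^ 2) * C - t * c ^ 2 * Sn) ≤ R * (5386 / 10000) :=
    mul_le_mul_of_nonneg_left hb2 hR0.le
  have h2 : R * (5386 / 10000) ≤ 19046 / 100000 * R ^ 2 := by nlinarith
  have h3 : 0 ≤ 15954 / 100000 * (1 + t ^ 2) ^ 3 + 7 / 20 - 14 / 5 * (t ^ 2 * c ^ 2) := by
    rw [hS]
    set y := 1 + t ^ 2 with hyd
    have hcy : c ^ 2 = 1 / y := by field_simp; exact hct
    rw [hcy]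
    have h5 : 0 ≤ 15954 / 100000 * y ^ 4 - 49 / 20 * y + 14 / 5 := by
      nlinarith [sq_nonneg (y - 2), sq_nonneg (y ^ 2 - 4), mul_nonneg (sub_nonneg.2 hy) (sub_nonneg.2 hy)]
    have hy0 : 0 < y := by linarith
    have h6 : 15954 / 100000 * y ^ 3 + 7 / 20 - 14 / 5 * (1 - 1 / y) =
        (15954 / 100000 * y ^ 4 - 49 / 20 * y + 14 / 5) / y := by
      field_simp; ring
    rw [h6]
    positivity
  nlinarith

/-- `R ≥ 1 + 2.7 t`, all angles -/
lemma G2_far {t c R C Sn : ℝ} (ht : 0 < t) (hct : c ^ 2 * (1 + t ^ 2) = 1)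
    (hsc : Sn ^ 2 + C ^ 2 = 1) (hR : 1 + 27 / 10 * t ≤ R) :
    0 ≤ G2 t c R C Sn := by
  rw [G2_eq]
  have hb := brak hct hsc
  have hR1 : 1 ≤ R := by linarith
  have hx0 : 0 ≤ t ^ 2 * c ^ 2 := by positivity
  have hxt : t ^ 2 * c ^ 2 ≤ t ^ 2 := by nlinarith [sq_nonneg c, sq_nonneg t]
  have hx1 : t ^ 2 * c ^ 2 ≤ 1 := by nlinarith [sq_nonneg c]
  have hb2 : ((7 / 10 - t ^ 2 * c ^ 2) * C - t * c ^ 2 * Sn) ≤ 7 / 10 - 2857 / 10000 * (t ^ 2 * c ^ 2) := by
    refine (abs_le_of_sq_le_sq' (hb.trans ?_) (by linarith)).2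
    nlinarith [sq_nonneg (t ^ 2 * c ^ 2)]
  have h1 : R * ((7 / 10 - t ^ 2 * c ^ 2) * C - t * c ^ 2 * Sn) ≤
      R * (7 / 10 - 2857 / 10000 * (t ^ 2 * c ^ 2)) :=
    mul_le_mul_of_nonneg_left hb2 (by linarith)
  have h2 : (27 / 10 * t) ^ 2 ≤ (R - 1) ^ 2 := pow_le_pow_left₀ (by positivity) (by linarith) 2
  have h3 : t ^ 2 * c ^ 2 ≤ R * (t ^ 2 * c ^ 2) := by nlinarith
  nlinarith

/-- case (iii) -/
lemma case_iii {c R : ℝ} (hc7 : (1:ℝ) / 2 ≤ c ^ 2) (hc1 : c ≤ 1) (hc0 : 0 < c) (hR1 : 1 ≤ R)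
    (hR : 1 ≤ R * c ^ 3) :
    (1 - c ^ 2) * (R + 14 / 5) ≤ 7 / 20 * (R ^ 2 + 2 * c * R + 1) := by
  rcases le_total (c ^ 2) (68 / 100) with h | h
  · have hc7' : 7 / 10 ≤ c := (abs_le_of_sq_le_sq' (a := 7 / 10) (b := c) (by linarith) hc0.le).2
    have hc8 : c ≤ 8247 / 10000 := (abs_le_of_sq_le_sq' (a := c) (b := 8247 / 10000) (by linarith) (by norm_num)).2
    have hc3 : c ^ 3 ≤ 561 / 1000 := by nlinarith
    have hR2 : 178 / 100 ≤ R := by
      by_contra hcon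
      push Not at hcon
      nlinarith [pow_pos hc0 3]
    nlinarith [mul_nonneg (sub_nonneg.2 hc7') (by linarith : (0:ℝ) ≤ R)]
  · have hc8 : 8246 / 10000 ≤ c := (abs_le_of_sq_le_sq' (a := 8246 / 10000) (b := c) (by linarith) hc0.le).2
    nlinarith [mul_nonneg (sub_nonneg.2 hc8) (by linarith : (0:ℝ) ≤ R)]

lemma E_two (t : ℝ) : (1 - t * Complex.I) * sg 2 (1 - t * Complex.I) =
    ((2 - t ^ 2 : ℝ) : ℂ) + ((-3 * t : ℝ) : ℂ) * Complex.I := by
  simp only [sg, Finset.sum_range_succ, Finset.sum_range_zero]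
  push_cast
  linear_combination ((t:ℂ) ^ 2) * Complex.I_sq

lemma poly_iv_a {t : ℝ} (ht : 0 < t) (ht1 : t ≤ 1) :
    169 / 10 * t ^ 2 ≤ (1 + t ^ 2) * ((1 + 157 / 100 * t + 447 / 1000 * t ^ 2) ^ 2 + 1) := by
  nlinarith [sq_nonneg (t - 7 / 10), sq_nonneg (t * (t - 7 / 10)), mul_nonneg ht.le (sq_nonneg (t - 7 / 10)),
    mul_nonneg ht.le (sub_nonneg.2 ht1), pow_pos ht 5, pow_pos ht 6, pow_pos ht 3, pow_pos ht 4]

lemma poly_iv_b {t : ℝ} (ht : 0 < t) (ht1 : t ≤ 1) :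
    169 / 10 * t ^ 2 ≤ (1 + t ^ 2) * ((471 / 200 * t + 1595 / 1000 * t ^ 2) ^ 2 +
      716 / 1000 * (1 + 471 / 200 * t + 1595 / 1000 * t ^ 2)) := by
  nlinarith [sq_nonneg (t - 4 / 10), sq_nonneg (t * (t - 4 / 10)), mul_nonneg ht.le (sq_nonneg (t - 4 / 10)),
    mul_nonneg ht.le (sub_nonneg.2 ht1), pow_pos ht 5, pow_pos ht 6, pow_pos ht 3, pow_pos ht 4]

/-- if `|E|² ≥ 16.9` -/
lemma of_norm {z : ℂ} (h : 169 / 10 ≤ ‖z‖ ^ 2) : (9 / 5 : ℝ) ≤ 7 / 20 * ‖z‖ ^ 2 + z.re := by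
  have h1 : -‖z‖ ≤ z.re := by
    have := Complex.abs_re_le_norm z
    rw [abs_le] at this
    exact this.1
  have h2 := norm_nonneg z
  have h3 : 411 / 100 ≤ ‖z‖ := (abs_le_of_sq_le_sq' (a := 411 / 100) (by norm_num; linarith) h2).2
  nlinarith

theorem t_Q2 : S_Q2 := by
  intro t ht n hn
  have hc := c_pos t
  have hc1 := c_le t
  have hct := cos_sq_mul t
  have hpi1 := Real.pi_gt_d4
  have hpi2 := Real.pi_lt_d4
  have hR1 := R_ge_one t n
  have hθ0 := th_pos ht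
  rcases Nat.lt_or_ge n 3 with h3 | h3
  · -- `n = 2`
    have hn2 : n = 2 := by omega
    subst hn2
    rw [← Complex.normSq_eq_norm_sq, Complex.normSq_apply, E_two]
    simp only [Complex.add_re, Complex.add_im, Complex.mul_re, Complex.mul_im, Complex.ofReal_re,
      Complex.ofReal_im, Complex.I_re, Complex.I_im]
    nlinarith [sq_nonneg t, sq_nonneg (t ^ 2)]
  have hsc := sin_sq_add_cos_sq (n * arctan t)
  have hR6 : (1 + t ^ 2) ^ 3 ≤ ((1 / cos (arctan t)) ^ n) ^ 2 := by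
    rw [R_sq]
    exact pow_le_pow_right₀ (by nlinarith [sq_nonneg t]) h3
  -- reduction to `G2`
  have red : 0 ≤ G2 t (cos (arctan t)) ((1 / cos (arctan t)) ^ n) (cos (n * arctan t))
      (sin (n * arctan t)) → (9 / 5 : ℝ) ≤
      7 / 20 * ‖(1 - t * Complex.I) * sg n (1 - t * Complex.I)‖ ^ 2 +
      ((1 - t * Complex.I) * sg n (1 - t * Complex.I)).re := by
    intro h
    rw [E_norm t n, E_re t ht n, C_norm t ht n]
    exact of_G2 ht hc hct h
  rcases le_total 1 t with ht1 | ht1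
  · exact red (G2_big ht1 hct hsc (by linarith) hR6)
  have hθ4 : arctan t ≤ π / 4 := by
    rw [← arctan_one]; exact arctan_strictMono.monotone ht1
  rcases le_total (n * arctan t) (π / 2) with hψ | hψ
  · -- (i)
    rw [E_norm t n, E_re t ht n]
    have hL := L2_sq ht h3
    have hC : 0 ≤ cos (n * arctan t) := cos_nonneg_of_neg_pi_div_two_le_of_le
      (by have : (0:ℝ) ≤ n * arctan t := by positivity
          linarith) hψ
    have hS : 0 ≤ sin (n * arctan t) := sin_nonneg_of_nonneg_of_le_pi (by positivity) (by linarith)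
    have hCS : 1 ≤ cos (n * arctan t) + sin (n * arctan t) := by nlinarith
    have h4 : (1 / cos (arctan t)) ^ n * sin (n * arctan t) ≤
        (1 / cos (arctan t)) ^ n * sin (n * arctan t) / t := by
      rw [le_div_iff₀ ht]
      have : 0 ≤ (1 / cos (arctan t)) ^ n * sin (n * arctan t) := by positivity
      nlinarith
    nlinarith [sq_nonneg t]
  -- the bound (R sin(ψ+θ) - S)/S
  have hRe : ((1 - t * Complex.I) * sg n (1 - t * Complex.I)).re =
      ((1 / cos (arctan t)) ^ n * sin (n * arctan t + arctan t)) / sin (arctan t) - 1 := by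
    rw [E_re t ht n, sin_add, sin_eq]
    field_simp
    ring
  have hS0 : 0 < sin (arctan t) := by rw [sin_eq]; positivity
  rcases le_total (n * arctan t) (π - arctan t) with hψ2 | hψ2
  · -- (ii)
    have hs : 0 ≤ sin (n * arctan t + arctan t) :=
      sin_nonneg_of_nonneg_of_le_pi (by positivity) (by linarith)
    have h1 : -1 ≤ ((1 - t * Complex.I) * sg n (1 - t * Complex.I)).re := by
      rw [hRe]
      have : 0 ≤ ((1 / cos (arctan t)) ^ n * sin (n * arctan t + arctan t)) / sin (arctan t) := by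
        positivity
      linarith
    have hC : cos (n * arctan t) ≤ 0 := cos_nonpos_mid (by linarith) (by linarith)
    rw [E_norm t n, C_norm t ht n]
    have h2 : 8 ≤ (1 + t ^ 2) * ((((1 / cos (arctan t)) ^ n) ^ 2 -
        2 * ((1 / cos (arctan t)) ^ n * cos (n * arctan t)) + 1) / t ^ 2) := by
      rw [← mul_div_assoc, le_div_iff₀ (by positivity)]
      have h5 : (1 + t ^ 2) ^ 2 ≤ ((1 / cos (arctan t)) ^ n) ^ 2 := by
        refine le_trans ?_ hR6
        exact pow_le_pow_right₀ (by nlinarith [sq_nonneg t]) (by norm_num)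
      have h6 : 0 ≤ (1 / cos (arctan t)) ^ n * (-cos (n * arctan t)) :=
        mul_nonneg (by linarith) (by linarith)
      have h7 : (1 + t ^ 2) ^ 2 + 1 ≤ ((1 / cos (arctan t)) ^ n) ^ 2 -
        2 * ((1 / cos (arctan t)) ^ n * cos (n * arctan t)) + 1 := by linarith
      have h8 := mul_le_mul_of_nonneg_left h7 (by positivity : 0 ≤ 1 + t ^ 2)
      refine le_trans ?_ h8
      nlinarith [sq_nonneg (t ^ 2 - 1 / 2), sq_nonneg t, mul_nonneg (sq_nonneg t) (sq_nonneg (t ^ 2 - 1 / 2))]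
    linarith
  rcases le_total (n * arctan t) π with hψ3 | hψ3
  · -- (iii)
    have hs : -sin (arctan t) ≤ sin (n * arctan t + arctan t) := by
      have h1 : sin (n * arctan t + arctan t) = -sin (n * arctan t + arctan t - π) := by
        rw [sin_sub_pi]; ring
      rw [h1]
      have h2 : sin (n * arctan t + arctan t - π) ≤ sin (arctan t) :=
        sin_le_sin_of_le_of_le_pi_div_two (by linarith) (by linarith) (by linarith)
      linarith
    have h1 : -((1 / cos (arctan t)) ^ n) - 1 ≤ ((1 - t * Complex.I) * sg n (1 - t * Complex.I)).re := by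
      rw [hRe]
      have : -((1 / cos (arctan t)) ^ n) ≤
          ((1 / cos (arctan t)) ^ n * sin (n * arctan t + arctan t)) / sin (arctan t) := by
        rw [le_div_iff₀ hS0]
        nlinarith
      linarith
    have hC : cos (n * arctan t) ≤ -cos (arctan t) := by
      rw [← cos_pi_sub]
      exact cos_le_cos_of_nonneg_of_le_pi (by linarith) hψ3 hψ2
    have hcc : (1:ℝ) / 2 ≤ cos (arctan t) ^ 2 := by nlinarith [sq_nonneg (cos (arctan t))]
    have hR3 : 1 ≤ (1 / cos (arctan t)) ^ n * cos (arctan t) ^ 3 := by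
      have h5 := R_mono t h3
      have h6 : (1 / cos (arctan t)) ^ 3 * cos (arctan t) ^ 3 = 1 := by
        rw [← mul_pow, one_div_mul_cancel hc.ne', one_pow]
      have h7 := mul_le_mul_of_nonneg_right h5 (by positivity : 0 ≤ cos (arctan t) ^ 3)
      linarith
    have h3' := case_iii hcc hc1 hc hR1 hR3
    rw [E_norm t n, C_norm t ht n]
    have h2 : (1 / cos (arctan t)) ^ n + 14 / 5 ≤ 7 / 20 * ((1 + t ^ 2) * ((((1 / cos (arctan t)) ^ n) ^ 2 -
        2 * ((1 / cos (arctan t)) ^ n * cos (n * arctan t)) + 1) / t ^ 2)) := by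
      generalize (1 / cos (arctan t)) ^ n = R at *
      generalize cos (n * arctan t) = C at *
      generalize cos (arctan t) = c at *
      have h4 : 1 - c ^ 2 = t ^ 2 * c ^ 2 := by linear_combination (-1 : ℝ) * hct
      rw [h4] at h3'
      have h5 : R ^ 2 + 2 * c * R + 1 ≤ R ^ 2 - 2 * (R * C) + 1 := by nlinarith
      have h6 : t ^ 2 * c ^ 2 * (R + 14 / 5) ≤ 7 / 20 * (R ^ 2 - 2 * (R * C) + 1) := by linarith
      have h7 : t ^ 2 * (R + 14 / 5) ≤ 7 / 20 * (R ^ 2 - 2 * (R * C) + 1) * (1 + t ^ 2) := by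
        have := mul_le_mul_of_nonneg_right h6 (by positivity : 0 ≤ 1 + t ^ 2)
        calc t ^ 2 * (R + 14 / 5) = t ^ 2 * c ^ 2 * (R + 14 / 5) * (1 + t ^ 2) := by
              linear_combination (-(t ^ 2 * (R + 14 / 5))) * hct
          _ ≤ _ := this
      rw [show 7 / 20 * ((1 + t ^ 2) * ((R ^ 2 - 2 * (R * C) + 1) / t ^ 2)) =
        (7 / 20 * (R ^ 2 - 2 * (R * C) + 1) * (1 + t ^ 2)) / t ^ 2 by ring]
      rw [le_div_iff₀ (by positivity)]
      linarith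
    linarith
  -- now `n ≥ 4`
  have hn4 : 4 ≤ n := by
    have h1 : (3:ℝ) < n := by
      by_contra hcon
      push Not at hcon
      nlinarith
    exact_mod_cast h1
  rcases le_total (27 / 5) (n * arctan t) with hψ4 | hψ4
  · -- (v)
    apply red
    apply G2_far ht hct hsc
    have := K1' ht (m := n) hn (27 / 5) hψ4
    linarith
  -- (iv)
  apply of_norm
  rw [E_norm t n, C_norm t ht n, ← mul_div_assoc, le_div_iff₀ (by positivity)]
  rcases le_total (n * arctan t) (3 * π / 2) with hψ5 | hψ5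
  · have hC : cos (n * arctan t) ≤ 0 := cos_nonpos_mid (by linarith) hψ5
    have hK := K2 ht (by linarith) hn4 (157 / 50) (by norm_num) (by linarith)
    have h1 : 1 + 157 / 100 * t + 447 / 1000 * t ^ 2 ≤ (1 / cos (arctan t)) ^ n := by
      refine le_trans ?_ hK
      nlinarith [mul_nonneg (sq_nonneg t) (sub_nonneg.2 ht1)]
    have h2 := pow_le_pow_left₀ (by positivity) h1 2
    have h6 : 0 ≤ (1 / cos (arctan t)) ^ n * (-cos (n * arctan t)) :=
      mul_nonneg (by linarith) (by linarith)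
    have h7 : (1 + 157 / 100 * t + 447 / 1000 * t ^ 2) ^ 2 + 1 ≤ ((1 / cos (arctan t)) ^ n) ^ 2 -
        2 * ((1 / cos (arctan t)) ^ n * cos (n * arctan t)) + 1 := by linarith
    exact (poly_iv_a ht ht1).trans (mul_le_mul_of_nonneg_left h7 (by positivity))
  · have hC := cos_le_54 hψ3 hψ4
    have hK := K2 ht (by linarith) hn4 (471 / 100) (by norm_num) (by linarith)
    have h1 : 1 + 471 / 200 * t + 1595 / 1000 * t ^ 2 ≤ (1 / cos (arctan t)) ^ n := by
      refine le_trans ?_ hK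
      nlinarith [mul_nonneg (sq_nonneg t) (sub_nonneg.2 ht1)]
    have h2 : (471 / 200 * t + 1595 / 1000 * t ^ 2) ^ 2 ≤ ((1 / cos (arctan t)) ^ n - 1) ^ 2 :=
      pow_le_pow_left₀ (by positivity) (by linarith) 2
    have h7 : (471 / 200 * t + 1595 / 1000 * t ^ 2) ^ 2 +
      716 / 1000 * (1 + 471 / 200 * t + 1595 / 1000 * t ^ 2) ≤ ((1 / cos (arctan t)) ^ n) ^ 2 -
        2 * ((1 / cos (arctan t)) ^ n * cos (n * arctan t)) + 1 := by
      have h8 : 0 ≤ (1 / cos (arctan t)) ^ n * (642 / 1000 - cos (n * arctan t)) :=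
        mul_nonneg (by linarith) (by linarith)
      have e : ((1 / cos (arctan t)) ^ n) ^ 2 -
        2 * ((1 / cos (arctan t)) ^ n * cos (n * arctan t)) + 1 = ((1 / cos (arctan t)) ^ n - 1) ^ 2 +
          716 / 1000 * (1 / cos (arctan t)) ^ n +
          2 * ((1 / cos (arctan t)) ^ n * (642 / 1000 - cos (n * arctan t))) := by ring
      rw [e]
      linarith
    exact (poly_iv_b ht ht1).trans (mul_le_mul_of_nonneg_left h7 (by positivity))

end Pool.Agent.Q268.MQ
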