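import Pool.Agent.Q268.MQ.Circ

set_option autoImplicit false

/-! The key bounds (K1), (K2), (K3). -/

namespace Pool.Agent.Q268.MQ

open Real

lemma th_pos {t : ℝ} (ht : 0 < t) : 0 < arctan t := by
  rw [← arctan_zero]; exact arctan_strictMono ht

lemma th_lt {t : ℝ} (ht : 0 < t) : arctan t < t := by
  have := Real.lt_tan (th_pos ht) (arctan_lt_pi_div_two t)
  rwa [tan_arctan] at this

lemma c_pos (t : ℝ) : 0 < cos (arctan t) := cos_arctan_pos t

lemma c_le (t : ℝ) : cos (arctan t) ≤ 1 := cos_le_one _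

lemma log_c (t : ℝ) : log (cos (arctan t)) = -(1 / 2) * log (1 + t ^ 2) := by
  have h := cos_sq_mul t
  have h1 : log (cos (arctan t) ^ 2 * (1 + t ^ 2)) = 0 := by rw [h]; exact log_one
  have hc := c_pos t
  rw [log_mul (by positivity) (by positivity), log_pow] at h1
  push_cast at h1
  linarith

/-- `(1 - e^{-L})² ≥ e^{-L} L²` -/
lemma one_sub_exp_sq {L : ℝ} (hL : 0 ≤ L) : exp (-L) * L ^ 2 ≤ (1 - exp (-L)) ^ 2 := by
  have h1 : L / 2 ≤ sinh (L / 2) := self_le_sinh_iff.2 (by linarith)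
  rw [sinh_eq] at h1
  have h2 : L ≤ exp (L / 2) - exp (-(L / 2)) := by linarith
  have h3 : (1 - exp (-L)) = exp (-(L / 2)) * (exp (L / 2) - exp (-(L / 2))) := by
    rw [mul_sub, ← exp_add, ← exp_add]
    ring_nf
    simp
    ring
  have h4 : exp (-L) = exp (-(L / 2)) ^ 2 := by
    rw [sq, ← exp_add]; ring_nf
  rw [h3, mul_pow, h4]
  apply mul_le_mul_of_nonneg_left _ (by positivity)
  exact pow_le_pow_left₀ hL h2 2

/-- (K3) -/
lemma K3 {t : ℝ} (m : ℕ) :
    cos (arctan t) ^ m * (m * t ^ 2 / (2 * (1 + t ^ 2))) ^ 2 ≤ (1 - cos (arctan t) ^ m) ^ 2 := by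
  have hc := c_pos t
  set L := (m : ℝ) / 2 * log (1 + t ^ 2) with hL
  have h1 : cos (arctan t) ^ m = exp (-L) := by
    rw [← exp_log (pow_pos hc m), log_pow, log_c]
    congr 1
    rw [hL]; ring
  have h2 : t ^ 2 / (1 + t ^ 2) ≤ log (1 + t ^ 2) := by
    have h := one_sub_inv_le_log_of_pos (x := 1 + t ^ 2) (by positivity)
    have h3 : 1 - (1 + t ^ 2)⁻¹ = t ^ 2 / (1 + t ^ 2) := by field_simp; ring
    linarith [h3]
  have h0 : (m * t ^ 2 / (2 * (1 + t ^ 2))) ≤ L := by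
    have : (m * t ^ 2 / (2 * (1 + t ^ 2))) = (m : ℝ) / 2 * (t ^ 2 / (1 + t ^ 2)) := by
      field_simp
    rw [this, hL]
    exact mul_le_mul_of_nonneg_left h2 (by positivity)
  have h00 : 0 ≤ (m * t ^ 2 / (2 * (1 + t ^ 2))) := by positivity
  rw [h1]
  refine le_trans ?_ (one_sub_exp_sq (h00.trans h0))
  exact mul_le_mul_of_nonneg_left (pow_le_pow_left₀ h00 h0 2) (exp_pos _).le

/-- (K3) in the form used -/
lemma K3' {t : ℝ} (ht : 0 < t) (m : ℕ) (a : ℝ) (ha : 0 ≤ a) (h : a ≤ m * arctan t) :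
    cos (arctan t) ^ m * (a / 4 * (2 * t / (1 + t ^ 2))) ^ 2 ≤
      (1 - cos (arctan t) ^ m) ^ 2 := by
  refine le_trans ?_ (K3 (t := t) m)
  have hc := c_pos t
  apply mul_le_mul_of_nonneg_left _ (by positivity)
  apply pow_le_pow_left₀ (by positivity)
  have h1 : a ≤ m * t := h.trans (mul_le_mul_of_nonneg_left (th_lt ht).le (by positivity))
  have : a / 4 * (2 * t / (1 + t ^ 2)) = a * t / (2 * (1 + t ^ 2)) := by
    field_simp; ring
  rw [this]
  apply div_le_div_of_nonneg_right _ (by positivity)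
  nlinarith

/-- `R = (1/c)^m` and `R² = (1+t²)^m` -/
lemma R_sq (t : ℝ) (m : ℕ) : ((1 / cos (arctan t)) ^ m) ^ 2 = (1 + t ^ 2) ^ m := by
  rw [← pow_mul, mul_comm, pow_mul, div_pow, one_pow]
  congr 1
  have h := cos_sq_mul t
  have hc := c_pos t
  rw [div_eq_iff (by positivity)]
  linarith

lemma R_rpow (t : ℝ) (m : ℕ) : (1 / cos (arctan t)) ^ m = (1 + t ^ 2) ^ ((m : ℝ) / 2) := by
  have hc := c_pos t
  have h0 : (0:ℝ) < (1 / cos (arctan t)) ^ m := by positivity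
  have h1 : (0:ℝ) < (1 + t ^ 2) ^ ((m : ℝ) / 2) := by positivity
  have h2 : ((1 + t ^ 2) ^ ((m : ℝ) / 2)) ^ 2 = (1 + t ^ 2) ^ m := by
    rw [← rpow_natCast ((1 + t ^ 2) ^ ((m : ℝ) / 2)), ← rpow_mul (by positivity),
      ← rpow_natCast (1 + t ^ 2)]
    congr 1
    push_cast
    ring
  have h3 := R_sq t m
  rw [← h2] at h3
  exact (pow_left_inj₀ h0.le h1.le (by norm_num)).1 h3

/-- (K1) -/
lemma K1 {t : ℝ} {m : ℕ} (hm : 2 ≤ m) : 1 + m * t ^ 2 / 2 ≤ (1 / cos (arctan t)) ^ m := by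
  rw [R_rpow]
  have hm' : (2:ℝ) ≤ m := by exact_mod_cast hm
  have h := one_add_mul_self_le_rpow_one_add (s := t ^ 2) (by nlinarith [sq_nonneg t])
    (p := (m:ℝ) / 2) (by linarith)
  linarith

lemma K1' {t : ℝ} (ht : 0 < t) {m : ℕ} (hm : 2 ≤ m) (a : ℝ) (h : a ≤ m * arctan t) :
    1 + a / 2 * t ≤ (1 / cos (arctan t)) ^ m := by
  refine le_trans ?_ (K1 hm)
  have h1 : a ≤ m * t := h.trans (mul_le_mul_of_nonneg_left (th_lt ht).le (by positivity))
  nlinarith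

/-- second order Bernoulli -/
lemma bern2 {y p : ℝ} (hy : 0 ≤ y) (hp : 2 ≤ p) :
    1 + p * y + p * (p - 1) / 2 * y ^ 2 ≤ (1 + y) ^ p := by
  -- f(y) = (1+y)^p - 1 - p y - p(p-1)/2 y² has f(0) = 0 and f' ≥ 0 by the first order inequality
  set f : ℝ → ℝ := fun y => (1 + y) ^ p - (1 + p * y + p * (p - 1) / 2 * y ^ 2) with hf
  have hd : ∀ x ∈ Set.Ici (0:ℝ), HasDerivAt f (p * (1 + x) ^ (p - 1) - (p + p * (p - 1) * x)) x := by
    intro x hx
    have hx' : (0:ℝ) ≤ x := hx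
    have h1 : HasDerivAt (fun y : ℝ => (1 + y) ^ p) (p * (1 + x) ^ (p - 1)) x := by
      have := (HasDerivAt.rpow_const (p := p) ((hasDerivAt_id x).const_add 1)
        (Or.inr (by linarith)))
      simpa using this
    have h2 : HasDerivAt (fun y : ℝ => 1 + p * y + p * (p - 1) / 2 * y ^ 2)
        (p + p * (p - 1) * x) x := by
      have := (((hasDerivAt_id x).const_mul p).const_add 1).add
        (((hasDerivAt_id x).pow 2).const_mul (p * (p - 1) / 2))
      refine this.congr_deriv ?_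
      norm_num
      ring
    exact h1.sub h2
  have hmono : MonotoneOn f (Set.Ici 0) := by
    apply monotoneOn_of_deriv_nonneg (convex_Ici 0)
    · intro x hx
      exact (hd x hx).continuousAt.continuousWithinAt
    · intro x hx
      rw [interior_Ici] at hx
      exact (hd x hx.out.le).differentiableAt.differentiableWithinAt
    · intro x hx
      rw [interior_Ici] at hx
      have hx' : (0:ℝ) < x := hx
      rw [(hd x hx.out.le).deriv]
      have h := one_add_mul_self_le_rpow_one_add (s := x) (by linarith)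
        (p := p - 1) (by linarith)
      nlinarith
  have h := hmono (Set.self_mem_Ici) (show y ∈ Set.Ici (0:ℝ) from hy) hy
  simp only [hf] at h
  norm_num at h
  linarith

/-- (K2) -/
lemma K2 {t : ℝ} (ht : 0 < t) (ht1 : t ≤ 6 / 5) {m : ℕ} (hm : 4 ≤ m) (a : ℝ) (ha : 0 ≤ a)
    (h : a ≤ m * arctan t) :
    1 + a / 2 * t + (a / 2 * t) ^ 2 / 2 - (a / 2 * t) * t ^ 2 / 2 ≤
      (1 / cos (arctan t)) ^ m := by
  rw [R_rpow]
  have hm' : (4:ℝ) ≤ m := by exact_mod_cast hm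
  refine le_trans ?_ (bern2 (by positivity) (by linarith))
  have h1 : a ≤ m * t := h.trans (mul_le_mul_of_nonneg_left (th_lt ht).le (by positivity))
  have h2 : a / 2 * t ≤ m * t ^ 2 / 2 := by nlinarith
  have h3 : 0 ≤ a / 2 * t := by positivity
  generalize a / 2 * t = x at h2 h3 ⊢
  have h4 : (m:ℝ) / 2 * ((m:ℝ) / 2 - 1) / 2 * (t ^ 2) ^ 2 =
      (m * t ^ 2 / 2) ^ 2 / 2 - (m * t ^ 2 / 2) * t ^ 2 / 2 := by ring
  rw [h4]
  have h5 : (m:ℝ) / 2 * t ^ 2 = m * t ^ 2 / 2 := by ring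
  rw [h5]
  generalize (m:ℝ) * t ^ 2 / 2 = y at h2 ⊢
  have h6 : t ^ 2 ≤ 36 / 25 := by nlinarith
  nlinarith

end Pool.Agent.Q268.MQ
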