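import Pool.Agent.Q268.MQ.Contr

set_option autoImplicit false

/-! Jobs LIP, SM, DIF. -/

namespace Pool.Agent.Q268.MQ

open Complex

/-- the difference of `A` and of `B` -/
lemma AB_diff {s s' x x' : ℂ} (h1 : 1 + s * x ≠ 0) (h2 : 1 + s' * x' ≠ 0) :
    Am s x - Am s' x' = (s * x - s' * x') / ((1 + s * x) * (1 + s' * x')) ∧
    Bm s x - Bm s' x' = -(s * x - s' * x') / ((1 + s * x) * (1 + s' * x')) := by
  unfold Am Bm
  constructor
  · field_simp
    ring
  · field_simp
    ring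

lemma AB_norm {s s' x x' : ℂ} {r : ℝ} (hr : 0 < r) (h1 : r ≤ ‖1 + s * x‖) (h2 : r ≤ ‖1 + s' * x'‖) :
    ‖Am s x - Am s' x'‖ ≤ ‖s * x - s' * x'‖ / r ^ 2 ∧
    ‖Bm s x - Bm s' x'‖ ≤ ‖s * x - s' * x'‖ / r ^ 2 := by
  have n1 : 1 + s * x ≠ 0 := by rw [← norm_pos_iff]; linarith
  have n2 : 1 + s' * x' ≠ 0 := by rw [← norm_pos_iff]; linarith
  have hd := AB_diff n1 n2
  have h3 : r ^ 2 ≤ ‖(1 + s * x) * (1 + s' * x')‖ := by
    rw [norm_mul, sq]
    exact mul_le_mul h1 h2 hr.le (norm_nonneg _)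
  constructor
  · rw [hd.1, norm_div]
    exact div_le_div_of_nonneg_left (norm_nonneg _) (by positivity) h3
  · rw [hd.2, norm_div, norm_neg]
    exact div_le_div_of_nonneg_left (norm_nonneg _) (by positivity) h3

theorem t_LIP (h : S_EE) : S_LIP := by
  intro s hs s' hs' N
  induction N with
  | zero =>
    intro x hx x' hx'
    rw [gN_zero, gN_zero, pow_zero, mul_one]
    have h1 := (((h s hs).2.2.2 x hx).1).1
    have h2 := (((h s' hs').2.2.2 x' hx').1).1
    have e : x ^ 2 - x' ^ 2 = (x - x') * (x + x') := by ring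
    rw [e, norm_mul]
    have h3 := norm_add_le x x'
    nlinarith [norm_nonneg (x - x'), norm_nonneg (x + x'), norm_nonneg (s - s')]
  | succ N ih =>
    intro x hx x' hx'
    rw [gN_succ, gN_succ]
    obtain ⟨hW, hA, hB⟩ := (h s hs).2.2.2 x hx
    obtain ⟨hW', hA', hB'⟩ := (h s' hs').2.2.2 x' hx'
    have n1 := norm_of_re ((h s hs).2.2.1 x hW).1
    have n2 := norm_of_re ((h s' hs').2.2.1 x' hW').1
    have hAB := AB_norm (by norm_num) n1 n2
    have h3 : ‖s * x - s' * x'‖ ≤ 2 * ‖s - s'‖ + ‖x - x'‖ := by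
      have e : s * x - s' * x' = (s - s') * x + s' * (x - x') := by ring
      rw [e]
      refine (norm_add_le _ _).trans ?_
      rw [norm_mul, norm_mul]
      have := hW.1
      have := cd_norm hs'
      nlinarith [norm_nonneg (s - s'), norm_nonneg (x - x'), norm_nonneg x, norm_nonneg s']
    have h4 := ih _ hA _ hA'
    have h5 := ih _ hB _ hB'
    refine (half_norm h4 h5).trans ?_
    have h6 := hAB.1
    have h7 := hAB.2
    norm_num at h6 h7
    rw [pow_succ]
    have hp : (0:ℝ) < 4 ^ N := by positivity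
    have h8 : (‖Am s x - Am s' x'‖ + 3 * ‖s - s'‖ + (‖Bm s x - Bm s' x'‖ + 3 * ‖s - s'‖)) / 2 ≤
        4 * (‖x - x'‖ + 3 * ‖s - s'‖) := by
      have := norm_nonneg (s - s')
      linarith
    nlinarith

lemma SM_ball {s x : ℂ} (hs : ‖s‖ ≤ 1 / 5) (hx : ‖x‖ ≤ 2) :
    3 / 5 ≤ ‖1 + s * x‖ ∧ ‖Am s x‖ ≤ 2 ∧ ‖Bm s x‖ ≤ 2 := by
  have h1 : ‖s * x‖ ≤ 2 / 5 := by
    rw [norm_mul]
    nlinarith [norm_nonneg s, norm_nonneg x]
  have h2 : 3 / 5 ≤ ‖1 + s * x‖ := by
    have := norm_sub_le_norm_add (1:ℂ) (s * x)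
    rw [norm_one] at this
    linarith
  refine ⟨h2, ?_, ?_⟩
  · unfold Am
    rw [norm_div, div_le_iff₀ (by linarith)]
    linarith
  · unfold Bm
    rw [norm_div, norm_one, div_le_iff₀ (by linarith)]
    linarith

lemma gN_diffAt {s : ℂ} {P : Set ℂ} (hA : ∀ x ∈ P, Am s x ∈ P ∧ Bm s x ∈ P)
    (hne : ∀ x ∈ P, 1 + s * x ≠ 0) (k N : ℕ) : ∀ x : ℂ → ℂ, DifferentiableAt ℂ x s → x s ∈ P →
      DifferentiableAt ℂ (fun z => gN k z N (x z)) s := by
  induction N with
  | zero =>
    intro x hx _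
    simp only [gN_zero]
    exact hx.pow k
  | succ N ih =>
    intro x hx hP
    simp only [gN_succ]
    have hn := hne _ hP
    have h1 : DifferentiableAt ℂ (fun z => Am z (x z)) s := by
      unfold Am
      exact (differentiableAt_id.mul hx).div ((differentiableAt_id.mul hx).const_add 1) hn
    have h2 : DifferentiableAt ℂ (fun z => Bm z (x z)) s := by
      unfold Bm
      exact (differentiableAt_const 1).div ((differentiableAt_id.mul hx).const_add 1) hn
    exact ((ih _ h1 (hA _ hP).1).add (ih _ h2 (hA _ hP).2)).div_const 2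

lemma pow_lip {x x' : ℂ} (hx : ‖x‖ ≤ 2) (hx' : ‖x'‖ ≤ 2) (k : ℕ) :
    ‖x ^ k - x' ^ k‖ ≤ k * 2 ^ k * ‖x - x'‖ := by
  induction k with
  | zero => simp
  | succ k ih =>
    have e : x ^ (k + 1) - x' ^ (k + 1) = x * (x ^ k - x' ^ k) + (x - x') * x' ^ k := by ring
    rw [e]
    refine (norm_add_le _ _).trans ?_
    rw [norm_mul, norm_mul, norm_pow]
    have h1 : ‖x'‖ ^ k ≤ 2 ^ k := pow_le_pow_left₀ (norm_nonneg _) hx' k
    have h2 : ‖x‖ * ‖x ^ k - x' ^ k‖ ≤ 2 * (k * 2 ^ k * ‖x - x'‖) :=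
      mul_le_mul hx ih (norm_nonneg _) (by norm_num)
    have h3 : ‖x - x'‖ * ‖x'‖ ^ k ≤ ‖x - x'‖ * 2 ^ k :=
      mul_le_mul_of_nonneg_left h1 (norm_nonneg _)
    push_cast
    rw [pow_succ]
    have : 0 ≤ ‖x - x'‖ * 2 ^ k := by positivity
    nlinarith

theorem t_SM : S_SM := by
  intro s hs k N
  constructor
  · induction N with
    | zero =>
      intro x x' hx hx'
      rw [gN_zero, gN_zero, pow_zero, mul_one]
      refine ⟨?_, pow_lip hx hx' k⟩
      rw [norm_pow]
      exact pow_le_pow_left₀ (norm_nonneg _) hx k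
    | succ N ih =>
      intro x x' hx hx'
      rw [gN_succ, gN_succ]
      obtain ⟨n1, hA, hB⟩ := SM_ball hs hx
      obtain ⟨n2, hA', hB'⟩ := SM_ball hs hx'
      have hAB := AB_norm (by norm_num) n1 n2
      have h3 : ‖s * x - s * x'‖ ≤ 1 / 5 * ‖x - x'‖ := by
        rw [← mul_sub, norm_mul]
        exact mul_le_mul_of_nonneg_right hs (norm_nonneg _)
      constructor
      · rw [norm_div]
        have h4 := norm_add_le (gN k s N (Am s x)) (gN k s N (Bm s x))
        have h5 := (ih _ _ hA hA).1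
        have h6 := (ih _ _ hB hB).1
        have : ‖(2:ℂ)‖ = 2 := by norm_num
        rw [this]
        linarith
      · have h4 := (ih _ _ hA hA').2
        have h5 := (ih _ _ hB hB').2
        refine (half_norm h4 h5).trans ?_
        have h6 := hAB.1
        have h7 := hAB.2
        norm_num at h6 h7
        rw [pow_succ]
        have hp : (0:ℝ) ≤ k * 2 ^ k * (5 / 9) ^ N := by positivity
        have h8 : (‖Am s x - Am s x'‖ + ‖Bm s x - Bm s x'‖) / 2 ≤ 5 / 9 * ‖x - x'‖ := by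
          linarith
        nlinarith
  · apply gN_diffAt (P := {x | ‖x‖ ≤ 2}) _ _ k N (fun _ => 0) (differentiableAt_const _)
    · simp
    · intro x hx
      exact (SM_ball hs hx).2
    · intro x hx
      have := (SM_ball hs hx).1
      rw [← norm_pos_iff]; linarith

theorem t_DIF (h : S_EE) : S_DIF := by
  intro s hs N
  constructor
  · apply gN_diffAt (P := ES s) _ _ 2 N (fun _ => 0) (differentiableAt_const _)
    · exact Or.inl rfl
    · intro x hx
      exact ((h s hs).2.2.2 x hx).2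
    · intro x hx
      exact ne_of_re ((h s hs).2.2.1 x ((h s hs).2.2.2 x hx).1).1
  · induction N with
    | zero =>
      intro x hx
      rw [gN_zero, norm_pow]
      have := (((h s hs).2.2.2 x hx).1).1
      nlinarith [norm_nonneg x]
    | succ N ih =>
      intro x hx
      rw [gN_succ, norm_div]
      obtain ⟨-, hA, hB⟩ := (h s hs).2.2.2 x hx
      have h4 := norm_add_le (gN 2 s N (Am s x)) (gN 2 s N (Bm s x))
      have h5 := ih _ hA
      have h6 := ih _ hB
      have : ‖(2:ℂ)‖ = 2 := by norm_num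
      rw [this]
      linarith

end Pool.Agent.Q268.MQ
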