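import Pool.Agent.Q268.MQ.PHI

set_option autoImplicit false

/-! Job MOM. -/

namespace Pool.Agent.Q268.MQ

open Complex Filter Topology

lemma hs_congr {f g : ℕ → ℂ} {a b : ℂ} (h : HasSum f a) (hf : ∀ j, g j = f j) (hab : b = a) :
    HasSum g b := by
  have : g = f := funext hf
  rw [this, hab]; exact h

/-- expansion of `B^(k+1)` -/
lemma hs_B {w : ℂ} (hw : ‖w‖ < 1) (k : ℕ) :
    HasSum (fun j : ℕ => (-1) ^ (j + 1) * (((j + k + 1).choose k : ℕ) : ℂ) * w ^ (j + 1))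
      ((1 / (1 + w)) ^ (k + 1) - 1) := by
  have h := hasSum_choose_mul_geometric_of_norm_lt_one (r := -w) k (by rwa [norm_neg])
  have h2 := (hasSum_nat_add_iff' (f := fun n : ℕ => (((n + k).choose k : ℕ) : ℂ) * (-w) ^ n) 1).2 h
  simp only [Finset.range_one, Finset.sum_singleton, pow_zero, mul_one, zero_add,
    Nat.choose_self, Nat.cast_one] at h2
  refine hs_congr h2 (fun j => ?_) ?_
  · have : j + 1 + k = j + k + 1 := by ring
    rw [this, neg_pow w]
    ring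
  · rw [sub_neg_eq_add, one_div_pow]

/-- expansion of `A^(k+1)` -/
lemma hs_A {w : ℂ} (hw : ‖w‖ < 1) (k : ℕ) :
    HasSum (fun j : ℕ => (-1) ^ j * ((-1) ^ k * ((j.choose k : ℕ) : ℂ)) * w ^ (j + 1))
      ((w / (1 + w)) ^ (k + 1)) := by
  have h := hasSum_choose_mul_geometric_of_norm_lt_one (r := -w) k (by rwa [norm_neg])
  have h1 := h.mul_left (w ^ (k + 1))
  have h2 : HasSum (fun n : ℕ => (-1) ^ (n + k) * ((-1) ^ k * (((n + k).choose k : ℕ) : ℂ)) *
      w ^ (n + k + 1)) ((w / (1 + w)) ^ (k + 1)) := by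
    refine hs_congr h1 (fun n => ?_) ?_
    · have e : ((-1 : ℂ)) ^ (n + k) * (-1) ^ k = (-1) ^ n := by
        rw [pow_add, mul_assoc, ← mul_pow]; norm_num
      calc (-1 : ℂ) ^ (n + k) * ((-1) ^ k * (((n + k).choose k : ℕ) : ℂ)) * w ^ (n + k + 1)
          = ((-1 : ℂ) ^ (n + k) * (-1) ^ k) * (((n + k).choose k : ℕ) : ℂ) * w ^ (n + k + 1) := by
            ring
        _ = _ := by rw [e, neg_pow w]; ring
    · rw [sub_neg_eq_add, div_pow]; ring
  have h3 := (hasSum_nat_add_iff (f := fun j : ℕ => (-1) ^ j * ((-1) ^ k * ((j.choose k : ℕ) : ℂ)) *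
    w ^ (j + 1)) k).1 h2
  have h4 : ∑ i ∈ Finset.range k, (-1 : ℂ) ^ i * ((-1) ^ k * ((i.choose k : ℕ) : ℂ)) * w ^ (i + 1) = 0 := by
    apply Finset.sum_eq_zero
    intro i hi
    rw [Nat.choose_eq_zero_of_lt (Finset.mem_range.1 hi)]
    simp
  rw [h4, add_zero] at h3
  exact h3

/-- the coefficients -/
noncomputable def aa (k : ℕ) (s : ℂ) (j : ℕ) : ℂ :=
  1 / 2 * ((-1) ^ j * ((-1) ^ k * ((j.choose k : ℕ) : ℂ) -
    (((j + k + 1).choose k : ℕ) : ℂ))) * s ^ (j + 1)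

lemma hs_base {s x : ℂ} (hs : ‖s‖ ≤ 1 / 5) (hx : ‖x‖ ≤ 2) (k : ℕ) :
    HasSum (fun j : ℕ => aa k s j * x ^ (j + 1)) (Lo s (fun x => x ^ (k + 1)) x - 1 / 2) := by
  have hw : ‖s * x‖ < 1 := by
    rw [norm_mul]
    nlinarith [norm_nonneg s, norm_nonneg x]
  have h := ((hs_A hw k).add (hs_B hw k)).mul_left (1 / 2)
  refine hs_congr h (fun j => ?_) ?_
  · unfold aa
    rw [mul_pow]
    ring
  · unfold Lo Am Bm
    ring

lemma summable_aa {s : ℂ} (hs : ‖s‖ ≤ 1 / 5) (k : ℕ) :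
    Summable (fun j : ℕ => ‖aa k s j‖ * 2 ^ (j + 1)) := by
  have h1 := summable_choose_mul_geometric_of_norm_lt_one (r := (2 / 5 : ℝ)) k
    (by rw [Real.norm_of_nonneg (by norm_num)]; norm_num)
  have h2 : Summable (fun j : ℕ => (((j + 1 + k).choose k : ℕ) : ℝ) * (2 / 5) ^ (j + 1)) :=
    (summable_nat_add_iff 1).2 h1
  apply Summable.of_nonneg_of_le (fun j => by positivity) _ h2
  intro j
  unfold aa
  rw [norm_mul, norm_mul, norm_mul, norm_pow, norm_pow, norm_neg, norm_one, one_pow, one_mul]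
  have e1 : ‖(1 / 2 : ℂ)‖ = 1 / 2 := by norm_num
  have e2 : ‖(-1 : ℂ) ^ k * ((j.choose k : ℕ) : ℂ) - (((j + k + 1).choose k : ℕ) : ℂ)‖ ≤
      2 * (((j + 1 + k).choose k : ℕ) : ℝ) := by
    refine (norm_sub_le _ _).trans ?_
    rw [norm_mul, norm_pow, norm_neg, norm_one, one_pow, one_mul, norm_natCast, norm_natCast]
    have h3 : j.choose k ≤ (j + 1 + k).choose k := Nat.choose_le_choose k (by omega)
    have h4 : ((j.choose k : ℕ) : ℝ) ≤ (((j + 1 + k).choose k : ℕ) : ℝ) := by exact_mod_cast h3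
    have h5 : j + k + 1 = j + 1 + k := by ring
    rw [h5]
    linarith
  have e3 : ‖s‖ ^ (j + 1) * 2 ^ (j + 1) ≤ (2 / 5) ^ (j + 1) := by
    rw [← mul_pow]
    apply pow_le_pow_left₀ (by positivity)
    linarith
  rw [e1]
  calc 1 / 2 * ‖(-1 : ℂ) ^ k * ((j.choose k : ℕ) : ℂ) - (((j + k + 1).choose k : ℕ) : ℂ)‖ *
        ‖s‖ ^ (j + 1) * 2 ^ (j + 1) =
      (1 / 2 * ‖(-1 : ℂ) ^ k * ((j.choose k : ℕ) : ℂ) - (((j + k + 1).choose k : ℕ) : ℂ)‖) *
        (‖s‖ ^ (j + 1) * 2 ^ (j + 1)) := by ring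
    _ ≤ (((j + 1 + k).choose k : ℕ) : ℝ) * (2 / 5) ^ (j + 1) := by
        apply mul_le_mul _ e3 (by positivity) (by positivity)
        linarith

lemma hs_iter {s : ℂ} (hs : ‖s‖ ≤ 1 / 5) (k N : ℕ) : ∀ x : ℂ, ‖x‖ ≤ 2 →
    HasSum (fun j : ℕ => aa k s j * gN (j + 1) s N x) (gN (k + 1) s (N + 1) x - 1 / 2) := by
  induction N with
  | zero =>
    intro x hx
    have h := hs_base hs hx k
    simpa [gN] using h
  | succ N ih =>
    intro x hx
    obtain ⟨-, hA, hB⟩ := SM_ball hs hx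
    have h := ((ih _ hA).add (ih _ hB)).mul_left (1 / 2)
    refine hs_congr h (fun j => ?_) ?_
    · rw [gN_succ]; ring
    · rw [gN_succ (k + 1) s (N + 1)]; ring

theorem t_MOM (h1 : S_SM) (h2 : S_PHI) : S_MOM := by
  intro s hs k
  obtain ⟨-, -, -, -, hlim, -, hbd⟩ := h2
  have hsum : ∀ N, ∑' j, aa k s j * gN (j + 1) s N 0 = gN (k + 1) s (N + 1) 0 - 1 / 2 :=
    fun N => (hs_iter hs k N 0 (by norm_num)).tsum_eq
  have ht : Tendsto (fun N => ∑' j, aa k s j * gN (j + 1) s N 0) atTop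
      (𝓝 (∑' j, aa k s j * Mo (j + 1) s)) := by
    apply tendsto_tsum_of_dominated_convergence (summable_aa hs k)
    · intro j
      exact (hlim s hs (j + 1)).const_mul _
    · apply Eventually.of_forall
      intro N j
      rw [norm_mul]
      exact mul_le_mul_of_nonneg_left ((h1 s hs (j + 1) N).1 0 0 (by norm_num) (by norm_num)).1
        (norm_nonneg _)
  have ht2 : Tendsto (fun N => ∑' j, aa k s j * gN (j + 1) s N 0) atTop
      (𝓝 (Mo (k + 1) s - 1 / 2)) := by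
    simp only [hsum]
    exact (((tendsto_add_atTop_iff_nat 1).2 (hlim s hs (k + 1))).sub_const _)
  have heq := tendsto_nhds_unique ht2 ht
  rw [heq]
  have hsm : Summable (fun j : ℕ => aa k s j * Mo (j + 1) s) := by
    apply Summable.of_norm_bounded (summable_aa hs k)
    intro j
    rw [norm_mul]
    exact mul_le_mul_of_nonneg_left (hbd s hs (j + 1)) (norm_nonneg _)
  exact hsm.hasSum

end Pool.Agent.Q268.MQ
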