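import Pool.Agent.Q268.MQ.IQ2

set_option autoImplicit false

/-! Job PAR: the parabola condition on the closed disc. -/

namespace Pool.Agent.Q268.MQ

open Complex

lemma sg_one (s : ℂ) : sg 1 s = 1 := by simp [sg]
lemma sg_two (s : ℂ) : sg 2 s = 1 + s := by simp [sg, Finset.sum_range_succ]

lemma sg_mul (m : ℕ) (s : ℂ) : (1 - s) * sg m s = 1 - s ^ m := mul_neg_geom_sum _ _

lemma cd_norm {s : ℂ} (hs : s ∈ cd) : ‖s‖ ≤ 1 := by
  have h : ‖s‖ ≤ ‖s - 1 / 2‖ + ‖(1 / 2 : ℂ)‖ := by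
    have := norm_add_le (s - 1 / 2) (1 / 2)
    simpa using this
  have h2 : ‖(1 / 2 : ℂ)‖ = 1 / 2 := by norm_num
  have h3 : ‖s - 1 / 2‖ ≤ 1 / 2 := hs
  linarith

/-- `s ∈ cd` iff `|s|² ≤ Re s` -/
lemma cd_iff {s : ℂ} : s ∈ cd ↔ s.re ^ 2 + s.im ^ 2 ≤ s.re := by
  have h : ‖s - 1 / 2‖ ^ 2 = (s.re - 1 / 2) ^ 2 + s.im ^ 2 := by
    rw [← normSq_eq_norm_sq, normSq_apply]
    simp
    ring
  constructor
  · intro hs
    have h3 : ‖s - 1 / 2‖ ≤ 1 / 2 := hs
    have h4 := norm_nonneg (s - 1 / 2)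
    nlinarith
  · intro hs
    show ‖s - 1 / 2‖ ≤ 1 / 2
    have h4 := norm_nonneg (s - 1 / 2)
    nlinarith

lemma cd_re_nonneg {s : ℂ} (hs : s ∈ cd) : 0 ≤ s.re := by
  have := cd_iff.1 hs
  nlinarith [sq_nonneg s.re, sq_nonneg s.im]

lemma cd_norm_lt {s : ℂ} (hs : s ∈ cd) (h1 : s ≠ 1) : ‖s‖ < 1 := by
  rcases lt_or_eq_of_le (cd_norm hs) with h | h
  · exact h
  · exfalso
    apply h1
    have h2 := cd_iff.1 hs
    have h3 : s.re ^ 2 + s.im ^ 2 = 1 := by
      have : ‖s‖ ^ 2 = 1 := by rw [h]; norm_num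
      rw [← normSq_eq_norm_sq, normSq_apply] at this
      linarith [this]
    have h4 : s.re ≤ 1 := by nlinarith [sq_nonneg s.im]
    have h5 : s.re = 1 := by nlinarith
    have h6 : s.im = 0 := by
      have : s.im ^ 2 = 0 := by nlinarith
      exact pow_eq_zero_iff (by norm_num) |>.1 this
    exact Complex.ext (by simpa using h5) (by simpa using h6)

lemma sg_ne {s : ℂ} (hs : s ∈ cd) {m : ℕ} (hm : 1 ≤ m) : sg m s ≠ 0 := by
  by_cases h1 : s = 1
  · subst h1
    simp [sg]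
    omega
  · intro h
    have h2 := sg_mul m s
    rw [h, mul_zero] at h2
    have h3 : ‖s ^ m‖ = 1 := by
      have : s ^ m = 1 := by linear_combination h2
      rw [this]; simp
    rw [norm_pow] at h3
    have h4 := pow_lt_one₀ (norm_nonneg s) (cd_norm_lt hs h1) (by omega : m ≠ 0)
    linarith

/-- the criterion -/
def Good (a : ℂ) : Prop := ‖a‖ - a.re ≤ 22 / 45 ∧ ‖a‖ ≤ 1

lemma good_of_quad {Z : ℂ} (h : (9 / 5 : ℝ) ≤ 7 / 20 * ‖Z‖ ^ 2 + Z.re) : Good (1 / Z) := by
  have hre : Z.re ≤ ‖Z‖ := re_le_norm Z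
  have hn := norm_nonneg Z
  have h1 : 1 ≤ ‖Z‖ := by nlinarith
  have hZ : Z ≠ 0 := by
    intro h0; rw [h0] at h1; simp at h1; linarith
  have h2 : (1 / Z).re = Z.re / ‖Z‖ ^ 2 := by
    rw [one_div, inv_re, normSq_eq_norm_sq]
  have h3 : ‖1 / Z‖ = ‖Z‖ / ‖Z‖ ^ 2 := by
    rw [norm_div, norm_one]
    field_simp
  refine ⟨?_, ?_⟩
  · rw [h2, h3, ← sub_div, div_le_iff₀ (by positivity)]
    nlinarith [sq_nonneg (‖Z‖ - 18 / 5)]
  · rw [norm_div, norm_one, div_le_one (by linarith)]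
    exact h1

lemma good_of_big {Z : ℂ} (h : (411 / 100 : ℝ) ≤ ‖Z‖) : Good (1 / Z) := by
  apply good_of_quad
  have h1 : -‖Z‖ ≤ Z.re := by
    have := abs_re_le_norm Z
    rw [abs_le] at this
    exact this.1
  nlinarith

lemma bc_eq (s : ℂ) {m n : ℕ} (hn : 1 ≤ n) : bb m s * cc n s = s ^ n / (sg m s * sg n s) := by
  unfold bb cc
  obtain ⟨k, rfl⟩ : ∃ k, n = k + 1 := ⟨n - 1, by omega⟩
  simp only [Nat.add_sub_cancel, pow_succ]
  rw [div_mul_div_comm]
  ring

/-- `σ_n(1/u) = σ_n(u)/u^(n-1)` -/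
lemma sg_inv {u : ℂ} (hu : u ≠ 0) {n : ℕ} (hn : 1 ≤ n) :
    u ^ (n - 1) * sg n (1 / u) = sg n u := by
  unfold sg
  rw [Finset.mul_sum, ← Finset.sum_range_reflect]
  apply Finset.sum_congr rfl
  intro j hj
  rw [Finset.mem_range] at hj
  have h1 : n - 1 - j + j = n - 1 := by omega
  have h2 : u ^ (n - 1) = u ^ (n - 1 - (n - 1 - j)) * u ^ (n - 1 - j) := by
    rw [← pow_add]; congr 1; omega
  rw [h2, mul_assoc, ← mul_pow, mul_one_div_cancel hu, one_pow, mul_one]
  congr 1; omega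

/-- the value of `a` on the circle -/
lemma bc_circle {u : ℂ} (hu : u ≠ 0) {m n : ℕ} (hn : 1 ≤ n) :
    bb m (1 / u) * cc n (1 / u) = 1 / ((u * sg m (1 / u)) * sg n u) := by
  rw [← sg_inv hu hn]
  unfold bb cc
  obtain ⟨k, rfl⟩ : ∃ k, n = k + 1 := ⟨n - 1, by omega⟩
  simp only [Nat.add_sub_cancel]
  rw [div_pow, one_pow]
  rw [div_div, div_div, div_mul_div_comm, one_mul]

lemma cc_circle {u : ℂ} (hu : u ≠ 0) {n : ℕ} (hn : 1 ≤ n) :
    cc n (1 / u) = 1 / sg n u := by
  rw [← sg_inv hu hn]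
  unfold cc
  rw [div_pow, one_pow, div_div]

/-- the condition at `s = 1/(1 - it)`, `t > 0` -/
lemma par_pos (h1 : S_Q1) (h2 : S_L1) (h3 : S_L2) (h4 : S_Q2) {t : ℝ} (ht : 0 < t) {m n : ℕ}
    (hm : 1 ≤ m) (hn : 1 ≤ n) :
    Good (bb m (1 / (1 - t * I)) * cc n (1 / (1 - t * I))) ∧
      ‖cc n (1 / (1 - t * I))‖ ≤ 1 := by
  have hu := u_ne t
  have hun : ‖(1 - (t:ℂ) * I)‖ ^ 2 = 1 + t ^ 2 := by
    rw [← normSq_eq_norm_sq, normSq_apply]; simp; ring
  have hun1 : 1 ≤ ‖(1 - (t:ℂ) * I)‖ := by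
    have := norm_nonneg (1 - (t:ℂ) * I)
    nlinarith [sq_nonneg t]
  have hC2 : sg 2 (1 - (t:ℂ) * I) = 2 - t * I := by rw [sg_two]; ring
  have hC2n : ‖(2 - (t:ℂ) * I)‖ ^ 2 = 4 + t ^ 2 := by
    rw [← normSq_eq_norm_sq, normSq_apply]; simp; ring
  have hC2' : 2 ≤ ‖(2 - (t:ℂ) * I)‖ := by
    have := norm_nonneg (2 - (t:ℂ) * I)
    nlinarith [sq_nonneg t]
  constructor
  · rw [bc_circle hu hn]
    rcases Nat.lt_or_ge m 2 with hm2 | hm2
    · have hm1 : m = 1 := by omega
      subst hm1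
      rw [sg_one, mul_one]
      rcases Nat.lt_or_ge n 2 with hn2 | hn2
      · have hn1 : n = 1 := by omega
        subst hn1
        rw [sg_one, mul_one]
        have hre : (1 / (1 - (t:ℂ) * I)).re = 1 / (1 + t ^ 2) := by
          rw [one_div, inv_re, normSq_eq_norm_sq, hun]; simp
        have hno : ‖1 / (1 - (t:ℂ) * I)‖ = 1 / ‖(1 - (t:ℂ) * I)‖ := by
          rw [norm_div, norm_one]
        refine ⟨?_, ?_⟩
        · rw [hre, hno, ← hun]
          generalize ‖(1 - (t:ℂ) * I)‖ = x at *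
          rw [div_sub_div _ _ (by positivity) (by positivity), div_le_iff₀ (by positivity)]
          nlinarith [sq_nonneg (x - 2), mul_nonneg (sub_nonneg.2 hun1) (sq_nonneg (x - 2)), pow_pos (by linarith : 0 < x) 3]
        · rw [hno, div_le_one (by linarith)]; exact hun1
      · exact good_of_quad (h4 t ht n hn2)
    · rcases Nat.lt_or_ge n 2 with hn2 | hn2
      · have hn1 : n = 1 := by omega
        subst hn1
        rw [sg_one, mul_one]
        exact good_of_quad (h1 t ht m hm2)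
      · rcases Nat.lt_or_ge n 3 with hn3 | hn3
        · have hn2 : n = 2 := by omega
          subst hn2
          rw [hC2]
          apply good_of_quad
          have hq := h1 t ht m hm2
          set D := (1 - t * I) * sg m (1 / (1 - t * I)) with hD
          rw [norm_mul, mul_pow, hC2n]
          have hre : (D * (2 - (t:ℂ) * I)).re = 2 * D.re + t * D.im := by
            simp [mul_re]; ring
          rw [hre]
          have him : -‖D‖ ≤ D.im := by
            have := abs_im_le_norm D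
            rw [abs_le] at this
            exact this.1
          have hdn := norm_nonneg D
          nlinarith [sq_nonneg (t * ‖D‖ - 10 / 7), sq_nonneg (‖D‖ - t), mul_le_mul_of_nonneg_left him ht.le]
        · apply good_of_big
          rw [norm_mul]
          have ha := h2 t ht m hm2
          have hb := h3 t ht n hn3
          nlinarith
  · rw [cc_circle hu hn, norm_div, norm_one]
    rcases Nat.lt_or_ge n 3 with hn3 | hn3
    · rcases Nat.lt_or_ge n 2 with hn2 | hn2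
      · have hn1 : n = 1 := by omega
        subst hn1
        rw [sg_one]; simp
      · have hn2 : n = 2 := by omega
        subst hn2
        rw [hC2, div_le_one (by linarith)]
        linarith
    · have hb := h3 t ht n hn3
      rw [div_le_one (by linarith)]
      linarith

lemma sg_conj (m : ℕ) (s : ℂ) : sg m (starRingEnd ℂ s) = starRingEnd ℂ (sg m s) := by
  unfold sg
  simp [map_sum, map_pow]

lemma bb_conj (m : ℕ) (s : ℂ) : bb m (starRingEnd ℂ s) = starRingEnd ℂ (bb m s) := by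
  unfold bb
  rw [sg_conj, map_div₀]

lemma cc_conj (m : ℕ) (s : ℂ) : cc m (starRingEnd ℂ s) = starRingEnd ℂ (cc m s) := by
  unfold cc
  rw [sg_conj, map_div₀, map_pow]

lemma good_conj {a : ℂ} (h : Good a) : Good (starRingEnd ℂ a) := by
  refine ⟨?_, ?_⟩
  · rw [norm_conj, conj_re]; exact h.1
  · rw [norm_conj]; exact h.2

/-- the condition on the circle -/
lemma par_circle (h1 : S_Q1) (h2 : S_L1) (h3 : S_L2) (h4 : S_Q2) {s : ℂ}
    (hs : ‖s - 1 / 2‖ = 1 / 2) {m n : ℕ} (hm : 1 ≤ m) (hn : 1 ≤ n) :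
    Good (bb m s * cc n s) ∧ ‖cc n s‖ ≤ 1 := by
  have hsq : s.re ^ 2 + s.im ^ 2 = s.re := by
    have h : ‖s - 1 / 2‖ ^ 2 = (s.re - 1 / 2) ^ 2 + s.im ^ 2 := by
      rw [← normSq_eq_norm_sq, normSq_apply]
      simp
      ring
    rw [hs] at h
    nlinarith
  by_cases h0 : s = 0
  · subst h0
    refine ⟨?_, ?_⟩
    · rw [bc_eq 0 hn, zero_pow (by omega), zero_div]
      exact ⟨by norm_num, by norm_num⟩
    · unfold cc
      rcases Nat.lt_or_ge n 2 with hn2 | hn2
      · have hn1 : n = 1 := by omega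
        subst hn1
        rw [sg_one]; simp
      · rw [zero_pow (by omega), zero_div]; simp
  -- `s = 1/(1 - it)`
  have hre : 0 < s.re := by
    rcases lt_or_eq_of_le (by nlinarith [sq_nonneg s.re, sq_nonneg s.im] : 0 ≤ s.re) with h | h
    · exact h
    · exfalso
      apply h0
      have h5 : s.im = 0 := by
        rw [← h] at hsq
        have : s.im ^ 2 = 0 := by nlinarith
        exact pow_eq_zero_iff (by norm_num) |>.1 this
      exact Complex.ext h.symm h5
  have hs1 : s = 1 / (1 - ((s.im / s.re : ℝ) : ℂ) * I) := by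
    rw [eq_div_iff (u_ne _)]
    apply Complex.ext
    · simp [mul_re]
      field_simp
      linarith
    · simp [mul_im]
      field_simp
      ring
  rcases lt_trichotomy (s.im / s.re) 0 with ht | ht | ht
  · have h5 := par_pos h1 h2 h3 h4 (t := -(s.im / s.re)) (by linarith) hm hn
    have hs2 : s = starRingEnd ℂ (1 / (1 - ((-(s.im / s.re) : ℝ) : ℂ) * I)) := by
      rw [map_div₀, map_sub, map_mul, conj_I, conj_ofReal, map_one]
      conv_lhs => rw [hs1]
      push_cast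
      congr 1
      ring
    rw [hs2, bb_conj, cc_conj, ← map_mul]
    exact ⟨good_conj h5.1, by rw [norm_conj]; exact h5.2⟩
  · rw [ht] at hs1
    have hs3 : s = 1 := by rw [hs1]; simp
    have hsg : ∀ k, sg k (1:ℂ) = k := by intro k; simp [sg]
    rw [hs3]
    have hm' : (1:ℝ) ≤ m := by exact_mod_cast hm
    have hn' : (1:ℝ) ≤ n := by exact_mod_cast hn
    refine ⟨?_, ?_⟩
    · rw [bc_eq 1 hn, one_pow, hsg, hsg]
      have : (1:ℂ) / ((m:ℂ) * (n:ℂ)) = ((1 / (m * n) : ℝ) : ℂ) := by push_cast; ring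
      rw [this]
      refine ⟨?_, ?_⟩
      · rw [norm_real, ofReal_re, Real.norm_of_nonneg (by positivity)]
        norm_num
      · rw [norm_real, Real.norm_of_nonneg (by positivity), div_le_one (by positivity)]
        nlinarith
    · unfold cc
      rw [one_pow, hsg, norm_div, norm_one, norm_natCast, div_le_one (by linarith)]
      exact hn'
  · have h5 := par_pos h1 h2 h3 h4 ht hm hn
    rw [← hs1] at h5
    exact h5

lemma frontier_cd {s : ℂ} (hs : s ∈ frontier (Metric.ball (1 / 2 : ℂ) (1 / 2))) :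
    ‖s - 1 / 2‖ = 1 / 2 := by
  rw [frontier_ball _ (by norm_num)] at hs
  rw [mem_sphere_iff_norm] at hs
  exact hs

lemma mem_cd_of_closure {s : ℂ} (hs : s ∈ closure (Metric.ball (1 / 2 : ℂ) (1 / 2))) : s ∈ cd := by
  rw [closure_ball _ (by norm_num)] at hs
  rw [mem_closedBall_iff_norm] at hs
  exact hs

lemma closure_of_cd {s : ℂ} (hs : s ∈ cd) : s ∈ closure (Metric.ball (1 / 2 : ℂ) (1 / 2)) := by
  rw [closure_ball _ (by norm_num), mem_closedBall_iff_norm]
  exact hs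

lemma sg_diff (m : ℕ) : Differentiable ℂ (sg m) := by
  unfold sg
  fun_prop

lemma bb_diffAt {s : ℂ} (hs : s ∈ cd) {m : ℕ} (hm : 1 ≤ m) : DifferentiableAt ℂ (bb m) s := by
  unfold bb
  exact differentiableAt_id.div (sg_diff m s) (sg_ne hs hm)

lemma cc_diffAt {s : ℂ} (hs : s ∈ cd) {m : ℕ} (hm : 1 ≤ m) : DifferentiableAt ℂ (cc m) s := by
  unfold cc
  exact (differentiableAt_id.pow _).div (sg_diff m s) (sg_ne hs hm)

lemma diffCont {f : ℂ → ℂ} (hf : ∀ s ∈ cd, DifferentiableAt ℂ f s) :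
    DiffContOnCl ℂ f (Metric.ball (1 / 2 : ℂ) (1 / 2)) := by
  apply DifferentiableOn.diffContOnCl
  intro s hs
  exact (hf s (mem_cd_of_closure hs)).differentiableWithinAt

/-- the maximum principle on the disc -/
lemma max_cd {f : ℂ → ℂ} (hf : ∀ s ∈ cd, DifferentiableAt ℂ f s) {M : ℝ}
    (h : ∀ s : ℂ, ‖s - 1 / 2‖ = 1 / 2 → ‖f s‖ ≤ M) {s : ℂ} (hs : s ∈ cd) : ‖f s‖ ≤ M :=
  Complex.norm_le_of_forall_mem_frontier_norm_le Metric.isBounded_ball (diffCont hf)
    (fun z hz => h z (frontier_cd hz)) (closure_of_cd hs)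

theorem t_PAR (h1 : S_Q1) (h2 : S_L1) (h3 : S_L2) (h4 : S_Q2) : S_PAR := by
  intro s hs m n hm hn
  have hcirc : ∀ z : ℂ, ‖z - 1 / 2‖ = 1 / 2 → Good (bb m z * cc n z) ∧ ‖cc n z‖ ≤ 1 :=
    fun z hz => par_circle h1 h2 h3 h4 hz hm hn
  have hd : ∀ z ∈ cd, DifferentiableAt ℂ (fun z => bb m z * cc n z) z := fun z hz =>
    (bb_diffAt hz hm).mul (cc_diffAt hz hn)
  refine ⟨sg_ne hs hm, ?_, ?_, ?_⟩
  · -- the exponential
    set a := bb m s * cc n s with ha
    obtain ⟨ζ, hζ1, hζ2⟩ : ∃ ζ : ℂ, ‖ζ‖ ≤ 1 ∧ a * ζ = -(‖a‖ : ℂ) := by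
      by_cases h0 : a = 0
      · exact ⟨0, by simp, by rw [h0]; simp⟩
      · refine ⟨-(‖a‖ : ℂ) / a, ?_, by field_simp⟩
        rw [norm_div, norm_neg, norm_real, norm_norm, div_self (norm_ne_zero_iff.2 h0)]
    have hb : ‖exp (-(a * (1 + ζ)))‖ ≤ Real.exp (22 / 45) := by
      have := max_cd (f := fun z => exp (-(bb m z * cc n z * (1 + ζ)))) (M := Real.exp (22 / 45))
        (fun z hz => ((hd z hz).mul_const _).neg.cexp) (by
          intro z hz
          rw [norm_exp, Real.exp_le_exp]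
          have hg := (hcirc z hz).1
          generalize bb m z * cc n z = b at hg
          have h5 : (b * ζ).re ≥ -‖b‖ := by
            have h6 := abs_re_le_norm (b * ζ)
            rw [abs_le] at h6
            have h7 : ‖b * ζ‖ ≤ ‖b‖ := by
              rw [norm_mul]
              nlinarith [norm_nonneg b]
            linarith [h6.1]
          have h8 : (-(b * (1 + ζ))).re = -b.re - (b * ζ).re := by
            rw [mul_add, mul_one, neg_re, add_re]; ring
          rw [h8]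
          linarith [hg.1]) hs
      exact this
    rw [norm_exp, Real.exp_le_exp] at hb
    have h8 : (-(a * (1 + ζ))).re = -a.re + ‖a‖ := by
      rw [mul_add, mul_one, hζ2, neg_re, add_re, neg_re, ofReal_re]; ring
    rw [h8] at hb
    linarith
  · exact max_cd (f := fun z => bb m z * cc n z) hd (fun z hz => (hcirc z hz).1.2) hs
  · exact max_cd (f := cc n) (fun z hz => cc_diffAt hz hn) (fun z hz => (hcirc z hz).2) hs

end Pool.Agent.Q268.MQ
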