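import Pool.Agent.Q268.MQ.LIP

set_option autoImplicit false

/-! Job PHI. -/

namespace Pool.Agent.Q268.MQ

open Complex Filter Topology

lemma one_step (k : ℕ) (s : ℂ) (N : ℕ) :
    gN k s (N + 1) 0 - gN k s N 0 = (gN k s N 1 - gN k s N 0) / 2 := by
  rw [gN_succ, Am_zero, Bm_zero]; ring

lemma iter_ES (h : S_EE) {s : ℂ} (hs : s ∈ cd) {x : ℂ} (hx : x ∈ ES s) (j : ℕ) :
    (Am s)^[j] x ∈ ES s := by
  induction j with
  | zero => exact hx
  | succ j ih =>
    rw [Function.iterate_succ_apply']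
    exact ((h s hs).2.2.2 _ ih).2.1

lemma geo_lim {f : ℕ → ℂ} {C q : ℝ} (hq : q < 1) (h : ∀ N, ‖f (N + 1) - f N‖ ≤ C * q ^ N) :
    Tendsto f atTop (𝓝 (limUnder atTop f)) ∧
      ∀ N, ‖f N - limUnder atTop f‖ ≤ C * q ^ N / (1 - q) := by
  have h1 : ∀ N, dist (f N) (f (N + 1)) ≤ C * q ^ N := by
    intro N
    rw [dist_comm, dist_eq_norm]
    exact h N
  have h2 : Tendsto f atTop (𝓝 (limUnder atTop f)) := CauchySeq.tendsto_limUnder (cauchySeq_of_le_geometric q C hq h1)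
  refine ⟨h2, fun N => ?_⟩
  have := dist_le_of_le_geometric_of_tendsto q C hq h1 h2 N
  rwa [dist_eq_norm] at this

lemma unif_of_bound {f : ℕ → ℂ → ℂ} {g : ℂ → ℂ} {P : Set ℂ} {C q : ℝ} (hq0 : 0 < q) (hq : q < 1)
    (h : ∀ s ∈ P, ∀ N, ‖f N s - g s‖ ≤ C * q ^ N / (1 - q)) :
    TendstoUniformlyOn f g atTop P := by
  rw [Metric.tendstoUniformlyOn_iff]
  intro ε hε
  have h1 : Tendsto (fun N : ℕ => C * q ^ N / (1 - q)) atTop (𝓝 (C * 0 / (1 - q))) :=
    ((tendsto_pow_atTop_nhds_zero_of_lt_one hq0.le hq).const_mul C).div_const _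
  rw [mul_zero, zero_div] at h1
  filter_upwards [h1.eventually (gt_mem_nhds hε)] with N hN s hs
  rw [dist_comm, dist_eq_norm]
  exact (h s hs N).trans_lt hN

lemma holder_aux {q C' r D : ℝ} (hq0 : 0 < q) (hq1 : q < 1) (hC' : 0 ≤ C') (hr0 : 0 < r)
    (hr1 : r ≤ 1) (hq4 : 1 / 4 ≤ q) (h : ∀ N : ℕ, D ≤ C' * q ^ N + 12 * 4 ^ N * r) :
    D ≤ (C' + 12) * 16 ^ (-(Real.log q / Real.log 16)) * r ^ (-(Real.log q / Real.log 16)) := by
  set α := -(Real.log q / Real.log 16) with hα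
  have hl16 : 0 < Real.log 16 := Real.log_pos (by norm_num)
  have hlq : Real.log q < 0 := Real.log_neg hq0 hq1
  have hα0 : 0 < α := by
    rw [hα, neg_pos]
    exact div_neg_of_neg_of_pos hlq hl16
  have hqα : q = (16:ℝ) ^ (-α) := by
    rw [Real.rpow_def_of_pos (by norm_num), hα, neg_neg]
    rw [mul_div_cancel₀ _ hl16.ne', Real.exp_log hq0]
  obtain ⟨N, hN1, hN2⟩ := exists_nat_pow_near (x := 1 / r) (y := (16:ℝ))
    (by rw [le_div_iff₀ hr0]; linarith) (by norm_num)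
  have h1 : q ^ N ≤ 16 ^ α * r ^ α := by
    have e1 : q ^ N = 16 ^ α * ((16:ℝ) ^ (N + 1)) ^ (-α) := by
      rw [hqα, ← Real.rpow_natCast, ← Real.rpow_mul (by norm_num), ← Real.rpow_natCast (16:ℝ) (N + 1),
        ← Real.rpow_mul (by norm_num), ← Real.rpow_add (by norm_num)]
      congr 1
      push_cast
      ring
    rw [e1]
    apply mul_le_mul_of_nonneg_left _ (by positivity)
    have e2 : ∀ a : ℝ, r ^ a = (1 / r) ^ (-a) := by
      intro a
      rw [Real.rpow_neg (by positivity), one_div, Real.inv_rpow hr0.le, inv_inv]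
    rw [e2 α]
    exact Real.rpow_le_rpow_of_nonpos (by positivity) hN2.le (by linarith)
  have h2 : 4 ^ N * r ≤ q ^ N := by
    have h3 : (16:ℝ) ^ N * r ≤ 1 := by
      rwa [le_div_iff₀ hr0] at hN1
    have h4 : (16:ℝ) ^ N = 4 ^ N * 4 ^ N := by rw [← mul_pow]; norm_num
    have h5 : (1 / 4 : ℝ) ^ N ≤ q ^ N := pow_le_pow_left₀ (by norm_num) hq4 N
    have h6 : (4:ℝ) ^ N * (1 / 4) ^ N = 1 := by rw [← mul_pow]; norm_num
    have h7 : (0:ℝ) < 4 ^ N := by positivity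
    have h8 : (4:ℝ) ^ N * (4 ^ N * r) ≤ 4 ^ N * (1 / 4) ^ N := by
      rw [h6, ← mul_assoc, ← h4]; exact h3
    exact (le_of_mul_le_mul_left h8 h7).trans h5
  have h3 := h N
  have h4 : 12 * 4 ^ N * r ≤ 12 * q ^ N := by linarith
  have h5 : (C' + 12) * q ^ N ≤ (C' + 12) * (16 ^ α * r ^ α) :=
    mul_le_mul_of_nonneg_left h1 (by linarith)
  linarith

theorem t_PHI (h1 : S_EE) (h2 : S_CON) (h3 : S_LIP) (h4 : S_DIF) (h5 : S_SM) : S_PHI := by
  obtain ⟨C, q, hC, hq0, hq1, hcon⟩ := h2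
  have hstep : ∀ s ∈ cd, ∀ N, ‖gN 2 s (N + 1) 0 - gN 2 s N 0‖ ≤ C * q ^ N := by
    intro s hs N
    rw [one_step, norm_div]
    have e1 := (h1 s hs).2.1
    have := hcon s hs 1 ((h1 s hs).2.2.2 1 e1).1
      (fun j => ((h1 s hs).2.2.2 _ (iter_ES h1 hs e1 j)).1) N
    have h2' : ‖(2:ℂ)‖ = 2 := by norm_num
    rw [h2']
    have := norm_nonneg (gN 2 s N 1 - gN 2 s N 0)
    linarith
  have hlim : ∀ s ∈ cd, Tendsto (fun N => gN 2 s N 0) atTop (𝓝 (Mo 2 s)) ∧
      ∀ N, ‖gN 2 s N 0 - Mo 2 s‖ ≤ C * q ^ N / (1 - q) := fun s hs =>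
    geo_lim (f := fun N => gN 2 s N 0) hq1 (hstep s hs)
  have hunif : TendstoUniformlyOn (fun N s => gN 2 s N 0) (Mo 2) atTop cd :=
    unif_of_bound hq0 hq1 (fun s hs => (hlim s hs).2)
  have hball : Metric.ball (1 / 2 : ℂ) (1 / 2) ⊆ cd := fun s hs =>
    mem_cd_of_closure (subset_closure hs)
  -- small parameters
  have hstep' : ∀ s : ℂ, ‖s‖ ≤ 1 / 5 → ∀ k N, ‖gN k s (N + 1) 0 - gN k s N 0‖ ≤
      (k * 2 ^ k) * (5 / 9) ^ N := by
    intro s hs k N
    rw [one_step, norm_div]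
    have := (((h5 s hs k N).1 1 0 (by norm_num) (by norm_num)).2)
    have h2' : ‖(2:ℂ)‖ = 2 := by norm_num
    rw [h2']
    rw [sub_zero, norm_one, mul_one] at this
    have := norm_nonneg (gN k s N 1 - gN k s N 0)
    linarith
  have hlim' : ∀ s : ℂ, ‖s‖ ≤ 1 / 5 → ∀ k, Tendsto (fun N => gN k s N 0) atTop (𝓝 (Mo k s)) ∧
      ∀ N, ‖gN k s N 0 - Mo k s‖ ≤ (k * 2 ^ k) * (5 / 9) ^ N / (1 - 5 / 9) := fun s hs k =>
    geo_lim (f := fun N => gN k s N 0) (by norm_num) (hstep' s hs k)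
  refine ⟨fun s hs => (hlim s hs).1, ?_, ?_, ?_, fun s hs k => (hlim' s hs k).1, ?_, ?_⟩
  · apply TendstoLocallyUniformlyOn.differentiableOn
      ((hunif.mono hball).tendstoLocallyUniformlyOn) _ Metric.isOpen_ball
    exact Eventually.of_forall (fun N s hs => ((h4 s (hball hs) N).1).differentiableWithinAt)
  · apply hunif.continuousOn
    exact Eventually.frequently (Eventually.of_forall
      (fun N s hs => ((h4 s hs N).1).continuousAt.continuousWithinAt))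
  · -- Hoelder
    have h1cd : (1:ℂ) ∈ cd := by show ‖(1:ℂ) - 1 / 2‖ ≤ 1 / 2; norm_num
    set q1 := max q (1 / 4) with hq1d
    have hq10 : 0 < q1 := lt_max_of_lt_left hq0
    have hq11 : q1 < 1 := max_lt hq1 (by norm_num)
    have hl16 : 0 < Real.log 16 := Real.log_pos (by norm_num)
    have hlq : Real.log q1 < 0 := Real.log_neg hq10 hq11
    have hα0 : 0 < -(Real.log q1 / Real.log 16) := by
      rw [neg_pos]
      exact div_neg_of_neg_of_pos hlq hl16
    have hC' : 0 ≤ 2 * (C / (1 - q)) := by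
      have : 0 < 1 - q := by linarith
      positivity
    refine ⟨(2 * (C / (1 - q)) + 12) * 16 ^ (-(Real.log q1 / Real.log 16)),
      -(Real.log q1 / Real.log 16), hα0, ?_⟩
    intro s hs
    by_cases hs1 : s = 1
    · subst hs1
      rw [sub_self, sub_self, norm_zero, Real.zero_rpow hα0.ne', mul_zero]
    have hr0 : 0 < ‖s - 1‖ := norm_pos_iff.2 (sub_ne_zero.2 hs1)
    have hr1 : ‖s - 1‖ ≤ 1 := by
      have e : s - 1 = (s - 1 / 2) + (-(1 / 2)) := by ring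
      rw [e]
      refine (norm_add_le _ _).trans ?_
      have : ‖s - 1 / 2‖ ≤ 1 / 2 := hs
      have h6 : ‖(-(1 / 2) : ℂ)‖ = 1 / 2 := by rw [norm_neg]; norm_num
      linarith
    apply holder_aux hq10 hq11 hC' hr0 hr1 (le_max_right _ _)
    intro N
    have a1 := (hlim s hs).2 N
    have a2 := (hlim 1 h1cd).2 N
    have a3 := h3 s hs 1 h1cd N 0 (Or.inl rfl) 0 (Or.inl rfl)
    rw [sub_self, norm_zero, zero_add] at a3
    have e : Mo 2 s - Mo 2 1 = -(gN 2 s N 0 - Mo 2 s) + (gN 2 s N 0 - gN 2 1 N 0) +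
        (gN 2 1 N 0 - Mo 2 1) := by ring
    have a4 : ‖Mo 2 s - Mo 2 1‖ ≤ ‖gN 2 s N 0 - Mo 2 s‖ + ‖gN 2 s N 0 - gN 2 1 N 0‖ +
        ‖gN 2 1 N 0 - Mo 2 1‖ := by
      rw [e]
      refine (norm_add_le _ _).trans ?_
      have := norm_add_le (-(gN 2 s N 0 - Mo 2 s)) (gN 2 s N 0 - gN 2 1 N 0)
      rw [norm_neg] at this
      linarith
    have a5 : C * q ^ N / (1 - q) ≤ C / (1 - q) * q1 ^ N := by
      have : 0 < 1 - q := by linarith
      have h7 : q ^ N ≤ q1 ^ N := pow_le_pow_left₀ hq0.le (le_max_left _ _) N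
      calc C * q ^ N / (1 - q) = C / (1 - q) * q ^ N := by ring
        _ ≤ _ := mul_le_mul_of_nonneg_left h7 (by positivity)
    linarith
  · intro k
    have hu : TendstoUniformlyOn (fun N s => gN k s N 0) (Mo k) atTop (Metric.ball 0 (1 / 5)) :=
      unif_of_bound (C := k * 2 ^ k) (q := 5 / 9) (by norm_num) (by norm_num) (fun s hs =>
        (hlim' s (by rw [mem_ball_zero_iff] at hs; exact hs.le) k).2)
    apply TendstoLocallyUniformlyOn.differentiableOn hu.tendstoLocallyUniformlyOn _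
      Metric.isOpen_ball
    exact Eventually.of_forall (fun N s hs => ((h5 s (by
      rw [mem_ball_zero_iff] at hs; exact hs.le) k N).2).differentiableWithinAt)
  · intro s hs k
    apply le_of_tendsto ((hlim' s hs k).1.norm)
    exact Eventually.of_forall (fun N => ((h5 s hs k N).1 0 0 (by norm_num) (by norm_num)).1)

end Pool.Agent.Q268.MQ
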