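import Pool.Agent.Q268.MQ.Stm

set_option autoImplicit false

/-! Job QM: functional equations of the question mark function. -/

namespace Pool.Agent.Q268.MQ

open Finset

/-- the `k`-th term -/
noncomputable def qt (x : ℝ) (k : ℕ) : ℝ :=
  if gauss^[k] x = 0 then 0
    else (-1) ^ k * (2 : ℝ) ^ (1 - (∑ i ∈ range (k + 1), (pq x i : ℤ)) : ℤ)

lemma qm_eq (x : ℝ) : qm x = ∑' k : ℕ, qt x k := rfl

lemma gauss_zero : gauss 0 = 0 := by simp [gauss]

lemma gauss_nonneg (x : ℝ) : 0 ≤ gauss x := Int.fract_nonneg _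

lemma gauss_lt (x : ℝ) : gauss x < 1 := Int.fract_lt_one _

lemma iter_nonneg {x : ℝ} (h0 : 0 ≤ x) (h1 : x ≤ 1) (k : ℕ) : 0 ≤ gauss^[k] x ∧ gauss^[k] x ≤ 1 := by
  rcases k with _ | k
  · exact ⟨h0, h1⟩
  · rw [Function.iterate_succ_apply']
    exact ⟨gauss_nonneg _, (gauss_lt _).le⟩

lemma iter_ne {x : ℝ} {k : ℕ} (hk : gauss^[k] x ≠ 0) : ∀ j ≤ k, gauss^[j] x ≠ 0 := by
  intro j hj h
  apply hk
  obtain ⟨d, rfl⟩ := Nat.exists_eq_add_of_le hj
  have : ∀ d, gauss^[d] 0 = 0 := by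
    intro d
    induction d with
    | zero => rfl
    | succ d ih => rw [Function.iterate_succ_apply', ih, gauss_zero]
  rw [add_comm, Function.iterate_add_apply, h, this]

lemma pq_pos {x : ℝ} (h0 : 0 ≤ x) (h1 : x ≤ 1) {k : ℕ} (hk : gauss^[k] x ≠ 0) : 1 ≤ pq x k := by
  obtain ⟨a, b⟩ := iter_nonneg h0 h1 k
  have hp : 0 < gauss^[k] x := lt_of_le_of_ne a (Ne.symm hk)
  unfold pq
  rw [Nat.le_floor_iff (by positivity)]
  rw [Nat.cast_one]
  exact (one_le_div hp).2 b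

lemma qt_bound {x : ℝ} (h0 : 0 ≤ x) (h1 : x ≤ 1) (k : ℕ) : ‖qt x k‖ ≤ (1 / 2 : ℝ) ^ k := by
  unfold qt
  split_ifs with h
  · rw [norm_zero]; positivity
  · rw [norm_mul, norm_pow, norm_neg, norm_one, one_pow, one_mul, Real.norm_of_nonneg (by positivity)]
    have h2 : ((k : ℤ) + 1) ≤ ∑ i ∈ range (k + 1), (pq x i : ℤ) := by
      calc ((k : ℤ) + 1) = ∑ i ∈ range (k + 1), (1 : ℤ) := by simp
        _ ≤ _ := by
          apply Finset.sum_le_sum
          intro i hi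
          rw [Finset.mem_range] at hi
          exact_mod_cast pq_pos h0 h1 (iter_ne h i (by omega))
    calc (2:ℝ) ^ (1 - (∑ i ∈ range (k + 1), (pq x i : ℤ)) : ℤ) ≤ (2:ℝ) ^ (-(k:ℤ)) :=
          zpow_le_zpow_right₀ (by norm_num) (by linarith)
      _ = (1 / 2 : ℝ) ^ k := by rw [zpow_neg, zpow_natCast, one_div, inv_pow]

lemma qt_summable {x : ℝ} (h0 : 0 ≤ x) (h1 : x ≤ 1) : Summable (qt x) :=
  Summable.of_norm_bounded (summable_geometric_of_lt_one (by norm_num) (by norm_num))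
    (qt_bound h0 h1)

lemma qm_le_two {x : ℝ} (h0 : 0 ≤ x) (h1 : x ≤ 1) : qm x ≤ 2 := by
  have h := tsum_of_norm_bounded (hasSum_geometric_of_lt_one (r := (1 / 2 : ℝ)) (by norm_num)
    (by norm_num)) (qt_bound h0 h1)
  rw [← qm_eq] at h
  have := (le_abs_self (qm x)).trans h
  norm_num at this
  exact this

lemma qt_succ (x : ℝ) (hx : x ≠ 0) (k : ℕ) :
    qt x (k + 1) = -((2:ℝ) ^ (-(⌊1 / x⌋₊ : ℤ))) * qt (gauss x) k := by
  unfold qt
  rw [Function.iterate_succ_apply]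
  split_ifs with h
  · simp
  · have h1 : ∑ i ∈ range (k + 1 + 1), (pq x i : ℤ) =
        ∑ i ∈ range (k + 1), (pq (gauss x) i : ℤ) + ⌊1 / x⌋₊ := by
      rw [Finset.sum_range_succ']
      rfl
    rw [h1, pow_succ]
    have h2 : (1 - (∑ i ∈ range (k + 1), (pq (gauss x) i : ℤ) + ⌊1 / x⌋₊) : ℤ) =
      (-(⌊1 / x⌋₊ : ℤ)) + (1 - ∑ i ∈ range (k + 1), (pq (gauss x) i : ℤ)) := by ring
    rw [h2, zpow_add₀ (by norm_num)]
    ring

lemma qm_zero : qm 0 = 0 := by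
  rw [qm_eq]
  have h : ∀ k, qt 0 k = 0 := by
    intro k
    unfold qt
    rw [if_pos]
    induction k with
    | zero => rfl
    | succ d ih => rw [Function.iterate_succ_apply', ih, gauss_zero]
  simp [h]

/-- the recursion -/
lemma qm_rec {x : ℝ} (h0 : 0 < x) (h1 : x ≤ 1) :
    qm x = (2:ℝ) ^ (1 - (⌊1 / x⌋₊ : ℤ)) - (2:ℝ) ^ (-(⌊1 / x⌋₊ : ℤ)) * qm (gauss x) := by
  rw [qm_eq, (qt_summable h0.le h1).tsum_eq_zero_add]
  have h2 : qt x 0 = (2:ℝ) ^ (1 - (⌊1 / x⌋₊ : ℤ)) := by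
    unfold qt
    rw [if_neg (by simpa using h0.ne')]
    simp [pq]
  have h3 : ∑' k, qt x (k + 1) = -((2:ℝ) ^ (-(⌊1 / x⌋₊ : ℤ))) * qm (gauss x) := by
    rw [qm_eq, ← tsum_mul_left]
    exact tsum_congr (fun k => qt_succ x h0.ne' k)
  rw [h2, h3]
  ring

lemma floor_pos {x : ℝ} (h0 : 0 < x) (h1 : x ≤ 1) : (1:ℤ) ≤ (⌊1 / x⌋₊ : ℤ) := by
  have : 1 ≤ ⌊1 / x⌋₊ := by
    rw [Nat.le_floor_iff (by positivity), Nat.cast_one]
    exact (one_le_div h0).2 h1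
  exact_mod_cast this

lemma two_zpow (n : ℤ) : (2:ℝ) ^ (1 - n) = 2 * (2:ℝ) ^ (-n) := by
  rw [sub_eq_add_neg, zpow_add₀ (by norm_num), zpow_one]

lemma qm_nonneg {x : ℝ} (h0 : 0 ≤ x) (h1 : x ≤ 1) : 0 ≤ qm x := by
  rcases h0.eq_or_lt with h | h
  · rw [← h, qm_zero]
  · rw [qm_rec h h1, two_zpow]
    have h2 := qm_le_two (gauss_nonneg x) (gauss_lt x).le
    have h3 : (0:ℝ) < (2:ℝ) ^ (-(⌊1 / x⌋₊ : ℤ)) := by positivity
    nlinarith

lemma qm_le_one {x : ℝ} (h0 : 0 ≤ x) (h1 : x ≤ 1) : qm x ≤ 1 := by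
  rcases h0.eq_or_lt with h | h
  · rw [← h, qm_zero]; norm_num
  · rw [qm_rec h h1]
    have h2 := qm_nonneg (gauss_nonneg x) (gauss_lt x).le
    have h3 : (0:ℝ) < (2:ℝ) ^ (-(⌊1 / x⌋₊ : ℤ)) := by positivity
    have h4 : (2:ℝ) ^ (1 - (⌊1 / x⌋₊ : ℤ)) ≤ 1 :=
      zpow_le_one_of_nonpos₀ (by norm_num) (by linarith [floor_pos h h1])
    nlinarith

lemma qm_one : qm 1 = 1 := by
  rw [qm_rec one_pos le_rfl]
  have h1 : gauss 1 = 0 := by simp [gauss]
  rw [h1, qm_zero]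
  norm_num

theorem t_QM : S_QM := by
  refine ⟨qm_zero, qm_one, fun x h0 h1 => ⟨qm_nonneg h0 h1, qm_le_one h0 h1, ?_, ?_⟩⟩
  · rcases h0.eq_or_lt with h | h
    · rw [← h]; simp [qm_zero]
    · have hy0 : 0 < x / (1 + x) := by positivity
      have hy1 : x / (1 + x) ≤ 1 := (div_le_one (by linarith)).2 (by linarith)
      have e1 : 1 / (x / (1 + x)) = 1 / x + 1 := by field_simp
      have e2 : ⌊1 / (x / (1 + x))⌋₊ = ⌊1 / x⌋₊ + 1 := by
        rw [e1, Nat.floor_add_one (by positivity)]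
      have e3 : gauss (x / (1 + x)) = gauss x := by
        unfold gauss
        rw [e1, Int.fract_add_one]
      rw [qm_rec hy0 hy1, qm_rec h h1, e2, e3, two_zpow, two_zpow]
      push_cast
      rw [neg_add, zpow_add₀ (by norm_num)]
      norm_num
      ring
  · rcases h1.eq_or_lt with h | h
    · rw [h]
      have e1 : 1 / (1 / (1 + 1 : ℝ)) = 2 := by norm_num
      have e3 : gauss (1 / (1 + 1)) = 0 := by
        unfold gauss; rw [e1]; exact_mod_cast Int.fract_natCast 2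
      rw [qm_rec (by norm_num) (by norm_num), e1, e3, qm_zero, qm_one]
      norm_num
    · have hy0 : 0 < 1 / (1 + x) := by positivity
      have hy1 : 1 / (1 + x) ≤ 1 := (div_le_one (by linarith)).2 (by linarith)
      have e1 : 1 / (1 / (1 + x)) = x + 1 := by field_simp; ring
      have e0 : Int.fract x = x := Int.fract_eq_self.2 ⟨h0, h⟩
      have e2 : ⌊1 / (1 / (1 + x))⌋₊ = 1 := by
        rw [e1, Nat.floor_add_one h0, Nat.floor_eq_zero.2 h]
      have e3 : gauss (1 / (1 + x)) = x := by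
        unfold gauss
        rw [e1, Int.fract_add_one, e0]
      rw [qm_rec hy0 hy1, e2, e3]
      norm_num
      ring

end Pool.Agent.Q268.MQ
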