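import Pool.Agent.Q268.MQ.Stm

set_option autoImplicit false

/-! Job ST: the question mark function gives a continuous Stieltjes function. -/

namespace Pool.Agent.Q268.MQ

open Filter Topology MeasureTheory Set

lemma left_inv {x : ℝ} (h0 : 0 ≤ x) (h1 : x ≤ 1 / 2) :
    0 ≤ x / (1 - x) ∧ x / (1 - x) ≤ 1 ∧ x = (x / (1 - x)) / (1 + x / (1 - x)) := by
  have h : 0 < 1 - x := by linarith
  refine ⟨by positivity, (div_le_one h).2 (by linarith), ?_⟩
  field_simp
  ring

lemma right_inv {x : ℝ} (h0 : 1 / 2 ≤ x) (h1 : x ≤ 1) :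
    0 ≤ (1 - x) / x ∧ (1 - x) / x ≤ 1 ∧ x = 1 / (1 + (1 - x) / x) := by
  have h : 0 < x := by linarith
  refine ⟨div_nonneg (by linarith) h.le, (div_le_one h).2 (by linarith), ?_⟩
  field_simp
  ring

lemma qm_mono (h : S_QM) {x y : ℝ} (hx : 0 ≤ x) (hxy : x ≤ y) (hy : y ≤ 1) : qm x ≤ qm y := by
  obtain ⟨-, -, hq⟩ := h
  have key : ∀ n : ℕ, ∀ x y : ℝ, 0 ≤ x → x ≤ y → y ≤ 1 → qm x - qm y ≤ (1 / 2) ^ n := by
    intro n
    induction n with
    | zero =>
      intro x y hx hxy hy
      have h1 := (hq x hx (hxy.trans hy)).2.1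
      have h2 := (hq y (hx.trans hxy) hy).1
      simp only [pow_zero]; linarith
    | succ n ih =>
      intro x y hx hxy hy
      rcases le_total y (1 / 2) with h1 | h1
      · obtain ⟨a1, a2, a3⟩ := left_inv hx (hxy.trans h1)
        obtain ⟨b1, b2, b3⟩ := left_inv (hx.trans hxy) h1
        have h2 : x / (1 - x) ≤ y / (1 - y) := by
          rw [div_le_div_iff₀ (by linarith) (by linarith)]
          nlinarith
        have h3 := ih _ _ a1 h2 b2
        have e1 := (hq _ a1 a2).2.2.1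
        have e2 := (hq _ b1 b2).2.2.1
        rw [← a3] at e1
        rw [← b3] at e2
        rw [e1, e2, pow_succ]; linarith
      · rcases le_total (1 / 2) x with h2 | h2
        · obtain ⟨a1, a2, a3⟩ := right_inv h2 (hxy.trans hy)
          obtain ⟨b1, b2, b3⟩ := right_inv h1 hy
          have h2 : (1 - y) / y ≤ (1 - x) / x := by
            rw [div_le_div_iff₀ (by linarith) (by linarith)]
            nlinarith
          have h3 := ih _ _ b1 h2 a2
          have e1 := (hq _ a1 a2).2.2.2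
          have e2 := (hq _ b1 b2).2.2.2
          rw [← a3] at e1
          rw [← b3] at e2
          rw [e1, e2, pow_succ]; linarith
        · obtain ⟨a1, a2, a3⟩ := left_inv hx h2
          obtain ⟨b1, b2, b3⟩ := right_inv h1 hy
          have e1 := (hq _ a1 a2).2.2.1
          have e2 := (hq _ b1 b2).2.2.2
          rw [← a3] at e1
          rw [← b3] at e2
          have f1 := (hq _ a1 a2).2.1
          have f2 := (hq _ b1 b2).2.1
          have : (0:ℝ) < (1 / 2) ^ (n + 1) := by positivity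
          rw [e1, e2]; linarith
  have h3 : Tendsto (fun n : ℕ => (1 / 2 : ℝ) ^ n) atTop (𝓝 0) :=
    tendsto_pow_atTop_nhds_zero_of_lt_one (by norm_num) (by norm_num)
  have h4 : qm x - qm y ≤ 0 := ge_of_tendsto' h3 (fun n => key n x y hx hxy hy)
  linarith

lemma qm_dyadic (h : S_QM) (n : ℕ) : ∀ j : ℕ, j ≤ 2 ^ n →
    ∃ x : ℝ, 0 ≤ x ∧ x ≤ 1 ∧ qm x = j / 2 ^ n := by
  obtain ⟨h0, h1, hq⟩ := h
  induction n with
  | zero =>
    intro j hj
    rw [pow_zero] at hj
    interval_cases j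
    · exact ⟨0, le_rfl, zero_le_one, by rw [h0]; simp⟩
    · exact ⟨1, zero_le_one, le_rfl, by rw [h1]; simp⟩
  | succ n ih =>
    intro j hj
    rcases le_total j (2 ^ n) with h2 | h2
    · obtain ⟨x, a1, a2, a3⟩ := ih j h2
      refine ⟨x / (1 + x), by positivity, (div_le_one (by linarith)).2 (by linarith), ?_⟩
      rw [(hq x a1 a2).2.2.1, a3, pow_succ]
      field_simp
    · obtain ⟨x, a1, a2, a3⟩ := ih (2 ^ (n + 1) - j) (by rw [pow_succ]; omega)
      refine ⟨1 / (1 + x), by positivity, (div_le_one (by linarith)).2 (by linarith), ?_⟩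
      rw [(hq x a1 a2).2.2.2, a3, Nat.cast_sub hj, pow_succ]
      push_cast
      field_simp
      ring

/-- the extension of the question mark function to the line by the identity -/
noncomputable def gx (x : ℝ) : ℝ := if x < 0 then x else if x ≤ 1 then qm x else x

lemma gx_mono (h : S_QM) : Monotone gx := by
  intro x y hxy
  have hq := h.2.2
  unfold gx
  split_ifs with h1 h2 h3 h4 h5 h6 h7
  · exact hxy
  · exact h1.le.trans (hq y (not_lt.1 h2) h3).1
  · linarith
  · linarith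
  · exact qm_mono h (not_lt.1 h1) hxy h6
  · have := (hq x (not_lt.1 h1) h4).2.1
    linarith
  · linarith
  · linarith
  · exact hxy

lemma gx_dense (h : S_QM) : DenseRange gx := by
  intro r
  rw [Metric.mem_closure_iff]
  intro ε hε
  by_cases h1 : r < 0
  · exact ⟨gx r, ⟨r, rfl⟩, by simp [gx, h1, hε]⟩
  by_cases h2 : r ≤ 1
  · obtain ⟨n, hn⟩ := exists_pow_lt_of_lt_one hε (by norm_num : (1 / 2 : ℝ) < 1)
    have hr : 0 ≤ r := not_lt.1 h1
    have hp : (0:ℝ) < 2 ^ n := by positivity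
    have hj : ⌊r * 2 ^ n⌋₊ ≤ 2 ^ n := by
      have : r * 2 ^ n ≤ ((2 ^ n : ℕ) : ℝ) := by push_cast; nlinarith
      exact Nat.floor_le_of_le this
    obtain ⟨x, a1, a2, a3⟩ := qm_dyadic h n _ hj
    refine ⟨gx x, ⟨x, rfl⟩, ?_⟩
    have hgx : gx x = qm x := by
      unfold gx; rw [if_neg (not_lt.2 a1), if_pos a2]
    rw [hgx, a3, Real.dist_eq, abs_lt]
    have f1 := Nat.floor_le (by positivity : 0 ≤ r * 2 ^ n)
    have f2 := Nat.lt_floor_add_one (r * 2 ^ n)
    have g1 : (⌊r * 2 ^ n⌋₊ : ℝ) / 2 ^ n ≤ r := (div_le_iff₀ hp).2 f1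
    have g2 : r < (⌊r * 2 ^ n⌋₊ : ℝ) / 2 ^ n + (1 / 2) ^ n := by
      have : (⌊r * 2 ^ n⌋₊ : ℝ) / 2 ^ n + (1 / 2) ^ n = (⌊r * 2 ^ n⌋₊ + 1) / 2 ^ n := by
        rw [one_div, inv_pow]; field_simp
      rw [this, lt_div_iff₀ hp]
      exact f2
    constructor <;> linarith
  · exact ⟨gx r, ⟨r, rfl⟩, by simp [gx, h1, h2, hε]⟩

theorem t_ST (h : S_QM) : S_ST := by
  have hc : Continuous gx := (gx_mono h).continuous_of_denseRange (gx_dense h)
  have hF : Continuous (fun x => max 0 (min (gx x) 1)) := by fun_prop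
  refine ⟨⟨fun x => max 0 (min (gx x) 1), ?_, ?_⟩, ?_, ?_, ?_, ?_⟩
  · intro x y hxy
    exact max_le_max le_rfl (min_le_min (gx_mono h hxy) le_rfl)
  · intro x
    exact hF.continuousAt.continuousWithinAt
  · intro x hx
    show max 0 (min (gx x) 1) = 0
    have : gx x = x := by simp [gx, hx]
    rw [this]
    exact max_eq_left ((min_le_left _ _).trans hx.le)
  · intro x h0 h1
    show max 0 (min (gx x) 1) = qm x
    have : gx x = qm x := by unfold gx; rw [if_neg (not_lt.2 h0), if_pos h1]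
    rw [this]
    obtain ⟨a, b, -⟩ := h.2.2 x h0 h1
    rw [min_eq_left b, max_eq_right a]
  · intro x hx
    show max 0 (min (gx x) 1) = 1
    have : gx x = x := by unfold gx; rw [if_neg (by linarith), if_neg (by linarith)]
    rw [this, min_eq_right hx.le, max_eq_right zero_le_one]
  · exact hF

end Pool.Agent.Q268.MQ
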