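import Pool.Agent.Q268.MQ.Def

set_option autoImplicit false

/-! Project MQ: the statements of the lemma jobs, with complete paper proofs.

Notation of the jobs Q1, Q2, L1, L2: `t > 0`, `u = 1 - i t`, `s = 1/u`, `θ = arctan t ∈ (0, π/2)`,
`c = cos θ = (1+t²)^(-1/2)`, `S = sin θ = t c`, `u = c⁻¹ e^(-iθ)`, `s = c e^(iθ)`; for `m ≥ 1`:
`R = c^(-m) = (1+t²)^(m/2) ≥ 1`, `ρ = 1/R`, `ψ = m θ`, so `s^m = ρ (cos ψ + i sin ψ)` and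
`u^m = R (cos ψ - i sin ψ)`.  Put `D = u σ_m(s) = (2 + i (1-t²)/t)(1 - s^m)`,
`C = σ_m(u) = (u^m - 1)/(-i t)`, `E = u C`.  Then with `σ = sin 2θ = 2t/(1+t²)`,
`N² = |1 - s^m|² = 1 - 2ρ cos ψ + ρ² = (1-ρ)² + 2ρ(1 - cos ψ)`:
  `|D|² = 4 N²/σ²`,  `Re D = (2/σ)(σ + ρ sin(ψ - 2θ))`, `ψ - 2θ = (m-2)θ`,
  `|C|² = (R² - 2R cos ψ + 1)/t²`, `|E|² = (1+t²)|C|²`, `Re E = R cos ψ - 1 + (R/t) sin ψ
        = (R sin(ψ+θ) - S)/S`.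
Key bounds:
(K1) `R ≥ 1 + m t²/2 ≥ 1 + ψ t/2` for `m ≥ 2` (Bernoulli `one_add_mul_self_le_rpow_one_add`,
     and `θ ≤ t`);
(K2) for `m ≥ 4`, `x = m t²/2`: `R ≥ 1 + x + x²/2 - x t²/2` (second order binomial,
     `(1+y)^p ≥ 1 + p y + p(p-1)y²/2` for `p ≥ 2`, `y ≥ 0`), and the right side is increasing in `x`
     for `t ≤ 1`; so it may be used with any smaller `x` such as `x = ψ₀ t/2`, `ψ₀ ≤ ψ`;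
(K3) `L = log R = (m/2) log(1+t²) ≥ (m/2) t²/(1+t²) ≥ ψσ/4`, and `(1-ρ)² ≥ ρ L²`, i.e.
     `(R-1)² ≥ R L²` (`2 sinh(L/2) ≥ L`).
Numbers: `cos 5.4 = cos(2π - 5.4) ≤ 0.6418` (cos is increasing on `[π, 2π]`;
     `|cos x - (1 - x²/2)| ≤ 5x⁴/96` for `|x| ≤ 1`), `π² ≥ 9.86`, `3π/2 ≥ 4.71`. -/

namespace Pool.Agent.Q268.MQ

open Filter Topology MeasureTheory

/-- job Q1.  Put `G = (7/10) N² + σ²/10 + σ ρ sin(ψ - 2θ)`; then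
`(7/20)|D|² + Re D - 9/5 = (2/σ²) G`, so show `G ≥ 0`.
Case 1, `ψ ≤ π`: `ψ - 2θ = (m-2)θ ∈ [0, π]`, so the sine is `≥ 0`.
Case 2, `π ≤ ψ ≤ 3π/2`: `cos ψ ≤ 0`, `N² ≥ 1 + ρ² ≥ 2ρ`, so `G ≥ 1.4ρ - σρ ≥ 0` (`σ ≤ 1`).
Case 3, `3π/2 ≤ ψ ≤ 5.4`: `N² ≥ ρ L² + 2ρ·0.358`, so `G/ρ ≥ 0.7·(1.177σ)² + 0.501 - σ ≥ 0`
(negative discriminant).
Case 4, `ψ ≥ 5.4`: `G/ρ ≥ 0.7 L² + 0.1σ² + 1.4(1-cos ψ) + σ sin(ψ-2θ)`;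
`sin(ψ-2θ) = χ sin ψ - σ cos ψ` with `χ = cos 2θ`, `σ² + χ² = 1`; by Cauchy-Schwarz
`(1.4+σ²) cos ψ - σχ sin ψ ≤ √((1.4+σ²)² + σ²χ²) = √(1.96 + 3.8σ²) ≤ 1.4 + 1.3572σ²`; so
`G/ρ ≥ σ² (0.7·5.4²/16 + 0.1 - 1.3572) ≥ 0`. -/
def S_Q1 : Prop := ∀ t : ℝ, 0 < t → ∀ m : ℕ, 2 ≤ m →
  (9 / 5 : ℝ) ≤ 7 / 20 * ‖(1 - t * Complex.I) * sg m (1 / (1 - t * Complex.I))‖ ^ 2 +
    ((1 - t * Complex.I) * sg m (1 / (1 - t * Complex.I))).re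

/-- job L1.  Cases: `ψ ≤ π`: `Re D ≥ 2`.  `π ≤ ψ ≤ 3π/2`: `N ≥ 1`, `|D| ≥ 2/σ ≥ 2`.
`3π/2 ≤ ψ ≤ 5.4`: `N² ≥ (1-ρ)² + 0.716ρ ≥ 0.5815 ≥ (61/80)² ≥ (61/80)²σ²`.
`ψ ≥ 5.4`, `t ≤ 6/5`: `N ≥ 1 - ρ`; by (K2) with `x = 2.7 t` (here the right side of (K2) is increasing
also for `t ≤ 6/5`) `R ≥ 1 + 2.7t + 3.645t² - 1.35t³`, and
`(1 + t² - 1.525 t)(1 + 2.7t + 3.645t² - 1.35t³) ≥ 1 + t²` on `[0, 6/5]`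
(the difference is `t(1.175 - 0.4725t - 4.20863t² + 5.70388t³ - 1.35t⁴)`), i.e.
`1 - ρ ≥ (61/80) σ`.  `ψ ≥ 5.4`, `t ≥ 6/5`: `m ≥ 4`, `ρ ≤ (1+t²)^(-2)`,
`|D| ≥ ((1+t²)/t)(1 - (1+t²)^(-2)) = t + t/(1+t²) ≥ 1.6`. -/
def S_L1 : Prop := ∀ t : ℝ, 0 < t → ∀ m : ℕ, 2 ≤ m →
  (61 / 40 : ℝ) ≤ ‖(1 - t * Complex.I) * sg m (1 / (1 - t * Complex.I))‖

/-- job L2: `|C_n| ≥ 2.7` for `n ≥ 3`.  `n = 3`: `|C|² = 9 + 3t² + t⁴`; `n = 4`: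
`(4+t²)(4+t⁴)`; `n = 5`: `25 + 10t⁴ + 5t⁶ + t⁸`.  For `n ≥ 6`: `|C|² t² = (R-1)² + 2R(1 - cos ψ)`.
`t ≥ 1`: `|C| ≥ (R-1)/t ≥ ((1+t²)² - 1)/t = 2t + t³ ≥ 3`.
`t ≤ 1`, `ψ ≤ π`: `1 - cos ψ ≥ 2ψ²/π²` and `θ ≥ (π/4) t` (concavity of arctan, or
`Real.tan` convex), so `2(1-cos ψ) ≥ (4/π²) n² (π/4)² t² = n² t²/4 ≥ 9 t²`.
`π ≤ ψ ≤ 3π/2`: `(R² + 1)/t² ≥ ((1+1.57t)² + 1)/t² ≥ 7.6` by (K1).
`3π/2 ≤ ψ ≤ 5.4`: `((R-1)² + 0.716 R)/t² ≥ 5.54 + 0.716(1 + 2.35t)/t² ≥ 7.9`.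
`ψ ≥ 5.4`: `(R-1)/t ≥ 2.7`. -/
def S_L2 : Prop := ∀ t : ℝ, 0 < t → ∀ n : ℕ, 3 ≤ n →
  (27 / 10 : ℝ) ≤ ‖sg n (1 - t * Complex.I)‖

/-- job Q2 (may use `S_L2`).  `n = 2`: `E = 2 - t² - 3it`,
`(7/20)|E|² + Re E - 9/5 = 1.6 + 0.75t² + 0.35t⁴`.
`n ≥ 3`: multiply by `S² = t²/(1+t²)`: to show
`G₂ = 0.35(R² - 2R cos ψ + 1) + S²(R cos ψ - 2.8) + S c R sin ψ ≥ 0`.
(A) all `ψ`: by Cauchy-Schwarz `G₂ ≥ 0.35(R²+1) - 2.8S² - R √(0.49 - 0.4S²)`, and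
`√(0.49 - 0.4S²) ≤ 0.7 - 0.2857S²`, so `G₂ ≥ 0.35(R-1)² + 0.2857 R S² - 2.8 S²`.
`t ≥ 1`: `R ≥ (1+t²)^(3/2) ≥ 2√2` and `R ≥ 1 + 3t²/2`; use (A) (in the form with the square root:
at `t = 1`, `0.35·9 - 1.4 - 2.8285·0.5386 ≥ 0.22`; for larger `t`, `S² ≤ 1`, `R² ≥ (1+t²)³`).
`t ≤ 1` (so `θ ≤ π/4`):
(i) `ψ ≤ π/2`: `|E|² ≥ |C|² ≥ 7.29`, `Re E ≥ cos ψ + sin ψ - 1 ≥ 0`.
(ii) `π/2 ≤ ψ ≤ π - θ`: `Re E = (R sin(ψ+θ) - S)/S ≥ -1` and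
`|E|² ≥ (R²+1)(1+t²)/t² ≥ ((1+t²)²+1)(1+t²)/t² ≥ 8` (`x = t²`: `2 - 4x + 3x² + x³ ≥ 0`).
(iii) `π - θ ≤ ψ ≤ π`: `|sin(ψ+θ)| ≤ S`, so `Re E ≥ -(R+1)`; `cos ψ ≤ -cos θ = -c`, so it is enough
that `0.35 (R² + 2cR + 1)/S² ≥ R + 2.8`, where `R ≥ (1-S²)^(-3/2)`, `c = √(1-S²)`, `S² ≤ 1/2`:
if `S² ≥ 0.32` then `R ≥ 1.78`, `c ≥ 0.7`, `0.7(R² + 1.4R + 1) ≥ R + 2.8`;
if `S² ≤ 0.32` then `c ≥ 0.82`, `1.09(R² + 1.64R + 1) ≥ R + 2.8` for `R ≥ 1`.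
(iv) `π ≤ ψ ≤ 5.4` (then `n ≥ 4`): it is enough that `|E| ≥ 4.11`, `|E|² ≥ 16.9`.
By (K2): `R ≥ 1 + x + x²/2 - xt²/2`.  `ψ ≤ 3π/2`: `x = 1.57t`, `|E|² ≥ (R²+1)(1+t²)/t²` (`≥ 18`);
`ψ ≥ 3π/2`: `x = 2.355t`, `|E|² ≥ ((R-1)² + 0.716R)(1+t²)/t²` (`≥ 19`).
(v) `ψ ≥ 5.4`: (A) with `R - 1 ≥ 2.7t`, `t² = S²(1+t²)`, `R ≥ 1`:
`G₂ ≥ S²(2.5515(1+t²) + 0.2857 - 2.8) ≥ 0`. -/
def S_Q2 : Prop := ∀ t : ℝ, 0 < t → ∀ n : ℕ, 2 ≤ n →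
  (9 / 5 : ℝ) ≤ 7 / 20 * ‖(1 - t * Complex.I) * sg n (1 - t * Complex.I)‖ ^ 2 +
    ((1 - t * Complex.I) * sg n (1 - t * Complex.I)).re

/-- job PAR: from `S_Q1`, `S_L1`, `S_L2`, `S_Q2`.
`a = s^n/(σ_m(s) σ_n(s)) = b_m c_n`.
(1) On the circle `|s - 1/2| = 1/2`, `s = 1/(1 - it)`, `t > 0`: `1/a = D_m C_n` with
`D_m = u σ_m(s)`, `C_n = σ_n(u)` (as `σ_n(u) = u^(n-1) σ_n(s)`).
If `Z = 1/a` satisfies `(7/20)|Z|² + Re Z ≥ 9/5` then `|a| - Re a = (|Z| - Re Z)/|Z|² ≤ 22/45`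
since `|Z| ≤ |Z|²/7.2 + 1.8`; also `|Z| ≥ 1`.
`m = n = 1`: `a = s`, `|s| - Re s ≤ 1/4`, `|s| ≤ 1`.  `n = 1`, `m ≥ 2`: `Z = D_m`, `S_Q1`.
`m = 1`, `n ≥ 2`: `Z = u C_n`, `S_Q2`.
`n = 2`, `m ≥ 2`: `Z = (2 - it) D`, `D = D_m`: `0.35(4+t²)|D|² + 2 Re D + t Im D - 1.8 ≥
(0.7 + 0.35t²)|D|² - t|D| + 1.8 ≥ 0` by `S_Q1`.
`n ≥ 3`, `m ≥ 2`: `|Z| ≥ 1.525·2.7 = 4.1175`, `2/|Z| ≤ 22/45`.
`|c_n| = 1/|C_n| ≤ 1` (`C_1 = 1`, `C_2 = 2 - it`).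
(2) `t < 0` by complex conjugation, `s = 1`: `a = 1/(mn)`, `c_n = 1/n`; `s = 0`: `a = 0`.
(3) `σ_m(s) ≠ 0` on the closed disc `cd`: `(1-s) σ_m(s) = 1 - s^m`, `|s| < 1` for `s ∈ cd`, `s ≠ 1`.
(4) Interior of the disc: maximum modulus principle on `ball (1/2) (1/2)`
(`Complex.norm_le_of_forall_mem_frontier_norm_le`) for `a`, for `c_n`, and for
`exp(-a(s)(1+ζ))` with a constant `|ζ| ≤ 1`: its modulus `exp(-Re(a(1+ζ)))` is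
`≤ exp(|a| - Re a) ≤ exp(22/45)` on the circle; then choose `ζ` with `a(s₀) ζ = -|a(s₀)|`. -/
def S_PAR : Prop := ∀ s ∈ cd, ∀ m n : ℕ, 1 ≤ m → 1 ≤ n →
  sg m s ≠ 0 ∧ ‖bb m s * cc n s‖ - (bb m s * cc n s).re ≤ 22 / 45 ∧ ‖bb m s * cc n s‖ ≤ 1 ∧
    ‖cc n s‖ ≤ 1

/-- job EE: from `S_PAR`.  For `y ∈ W s`, `V = 1 + b_m y` has `Re V ≥ 23/45`, so `1/V = 1 + ζ` with
`|ζ| ≤ 1`, `|T_m y| = |c_m|/|V| ≤ 2` and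
`Re(b_k T_m y) = Re(b_k c_m (1+ζ)) ≥ Re(b_k c_m) - |b_k c_m| ≥ -22/45`.  So `T_m y ∈ W s`.
`A(T_m y) = T_(m+1) y`, `B(y) = T_1 y`, `A(0) = 0`, `0 ∈ W s`, `1 = T_1 0`. -/
def S_EE : Prop := ∀ s ∈ cd, (0 : ℂ) ∈ W s ∧ (1 : ℂ) ∈ ES s ∧
  (∀ x ∈ W s, 23 / 45 ≤ (1 + s * x).re ∧ Bm s x ∈ ES s) ∧
  ∀ x ∈ ES s, x ∈ W s ∧ Am s x ∈ ES s ∧ Bm s x ∈ ES s

/-- job CON: from `S_PAR` (and `S_EE`).  Contraction.  Put `h = 1/2`, `κ = 22/45`, `δ = 1/90`.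
(1) For `|a| - Re a ≤ κ` and all complex `V`:
`|V|²/2 + Re(a V̄) - |a|(Re V - h) = |V + a - |a||²/2 + |a|(1 - 2(|a| - Re a))/2 ≥ δ|a|`.
Hence for `Re V > h`, `|V| ≤ 3`, `V' = 1 + a/V`: `|a|(Re V - h) ≤ λ |V|² (Re V' - h)` with
`λ = 1/(1 + δ/2.5) < 1` (note `|V|²(Re V' - h) = |V|²/2 + Re(a V̄)`), and `|V'| ≤ 3` if `|a| ≤ 1`,
`Re V' ≥ 23/45`.
(2) Say that `(y, y')` is a `Δ`-pair if `y = c_n/V`, `y' = c_n/V'` for some `n ≥ 1` and `V, V'` with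
`Re ≥ 23/45`, `|·| ≤ 3` and `|V - V'|² ≤ Δ² (Re V - h)(Re V' - h)`; then `y, y' ∈ W s` and for each
`m ≥ 1`, `(T_m y, T_m y')` is a `λΔ`-pair (new `V` is `1 + b_m c_n/V`; multiply the two
inequalities (1)).
(3) With `q = (1+λ)/2`, `g_N = gN 2 s N`: for every `Δ`-pair and every `m ≥ 1`
`|g_N(T_m y) - g_N(T_m y')| ≤ 40 Δ q^N`: induction on `N`, for all pairs and `m` at once;
`g_(N+1)(x) = (g_N(A x) + g_N(B x))/2`, `A T_m y = T_(m+1) y`, `B T_m y = T_1(T_m y)`.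
`N = 0`: `|x² - x'²| ≤ 4|x - x'|`, `x = c_m/V`, `x' = c_m/V'`: `|x-x'| ≤ 4|V-V'| ≤ 4·2.5·Δ`.
(4) For `y, y' ∈ W s`, `m ≥ 1`: `(T_m y, T_m y')` is a `Δ₀`-pair with `Δ₀ = 700` (`V = 1 + b_m y`;
`|b_m| = |b_m c_1| ≤ 1`, `|V| ≤ 3`, `|V - V'| ≤ 4`, `Re V - h ≥ 1/90`), so with `Δ₁ = Δ₀/λ`:
`|g_N(T_m y) - g_N(T_m y')| ≤ 40Δ₁ q^N` by induction on `N` (`N = 0` as before, step: one term
is of the same kind, the other one of kind (3)).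
(5) For `x, x'` with all `A^j x, A^j x' ∈ W s`: `|g_N(x) - g_N(x')| ≤ 40 (Δ₁/λ) q^N + ...` by induction
on `N` (step: `(A x, A x')` is of the same kind and `(B x, B x') = (T_1 x, T_1 x')` of kind (4);
take the constant `C` with `C ≥ 8` and `40Δ₁ ≤ λ C`). -/
def S_CON : Prop := ∃ C q : ℝ, 0 ≤ C ∧ 0 < q ∧ q < 1 ∧ ∀ s ∈ cd, ∀ x ∈ W s,
  (∀ j : ℕ, (Am s)^[j] x ∈ W s) → ∀ N : ℕ, ‖gN 2 s N x - gN 2 s N 0‖ ≤ C * q ^ N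

/-- job LIP: from `S_EE`.  Induction on `N` for all `x, x'`: `|x² - x'²| ≤ 4|x-x'|`;
`A x - A' x' = (sx - s'x')/((1+sx)(1+s'x'))`, modulus `≤ 4|sx - s'x'| ≤ 8|s-s'| + 4|x-x'|`
(`|s'| ≤ 1`, `|x| ≤ 2`), the same for `B`; `4·11 ≤ 16·3`. -/
def S_LIP : Prop := ∀ s ∈ cd, ∀ s' ∈ cd, ∀ N : ℕ, ∀ x ∈ ES s, ∀ x' ∈ ES s',
  ‖gN 2 s N x - gN 2 s' N x'‖ ≤ 4 * 4 ^ N * (‖x - x'‖ + 3 * ‖s - s'‖)

/-- job SM (self-contained): small parameters.  For `|s| ≤ 1/5` and `|x| ≤ 2`: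
`|1 + s x| ≥ 3/5`, `A x`, `B x` are in the closed ball of radius `2`, both maps are Lipschitz with
constant `|s|/((3/5)²) ≤ 5/9` there, and `x^k` has Lipschitz constant `k 2^k`.  Differentiability: prove
for every function `x(z)` differentiable at `s` with `|x(s)| ≤ 2` by induction on `N`. -/
def S_SM : Prop := ∀ s : ℂ, ‖s‖ ≤ 1 / 5 → ∀ k N : ℕ,
  (∀ x x' : ℂ, ‖x‖ ≤ 2 → ‖x'‖ ≤ 2 →
    ‖gN k s N x‖ ≤ 2 ^ k ∧ ‖gN k s N x - gN k s N x'‖ ≤ k * 2 ^ k * (5 / 9) ^ N * ‖x - x'‖) ∧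
  DifferentiableAt ℂ (fun z => gN k z N 0) s

/-- job DIF: from `S_EE`.  For every function `x(z)` differentiable at `s ∈ cd` with `x(s) ∈ ES s`
the function `z ↦ gN 2 z N (x z)` is differentiable at `s`: induction on `N`
(`1 + s x(s) ≠ 0` since its real part is `≥ 23/45`). Also `|gN 2 s N x| ≤ 4` on `ES s`. -/
def S_DIF : Prop := ∀ s ∈ cd, ∀ N : ℕ, DifferentiableAt ℂ (fun z => gN 2 z N 0) s ∧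
  ∀ x ∈ ES s, ‖gN 2 s N x‖ ≤ 4

/-- job PHI: from `S_EE`, `S_CON`, `S_LIP`, `S_DIF`, `S_SM`.
`gN 2 s (N+1) 0 - gN 2 s N 0 = (gN 2 s N 1 - gN 2 s N 0)/2` (`A 0 = 0`, `B 0 = 1`; use
`gN 2 s (N+1) x = (gN 2 s N (A x) + gN 2 s N (B x))/2`), so the sequence converges uniformly with
geometric rate on `cd` (`x = 1`, `A^j 1 ∈ ES s ⊆ W s`) and on `|s| ≤ 1/5` (`S_SM`).
Uniform limits of holomorphic functions are holomorphic (`TendstoLocallyUniformlyOn.differentiableOn`).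
Hoelder: `|φ(s) - φ(1)| ≤ 2C'q^N + 12·4^N |s-1|` for all `N`; choose `N` with
`16^(-N-1) < |s-1| ≤ 16^(-N)`, `α = log(1/max(q,1/4))/log 16` or similar. -/
def S_PHI : Prop :=
  (∀ s ∈ cd, Tendsto (fun N => gN 2 s N 0) atTop (𝓝 (Mo 2 s))) ∧
  DifferentiableOn ℂ (Mo 2) (Metric.ball (1 / 2) (1 / 2)) ∧ ContinuousOn (Mo 2) cd ∧
  (∃ C α : ℝ, 0 < α ∧ ∀ s ∈ cd, ‖Mo 2 s - Mo 2 1‖ ≤ C * ‖s - 1‖ ^ α) ∧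
  (∀ s, ‖s‖ ≤ 1 / 5 → ∀ k, Tendsto (fun N => gN k s N 0) atTop (𝓝 (Mo k s))) ∧
  (∀ k, DifferentiableOn ℂ (Mo k) (Metric.ball 0 (1 / 5))) ∧
  (∀ s, ‖s‖ ≤ 1 / 5 → ∀ k, ‖Mo k s‖ ≤ 2 ^ k)

/-- job QD (self-contained): `Q_n^{(k)}(-1) = k! qq n k`.  Strong induction on `n`:
`Q_(n+1)(z) = (1/2) ∑_{j≤n} qq (n-j) j (z^j - z^(-j-2))` near `-1`, and
`(1/k!) (d/dz)^k z^j = C(j,k) (-1)^(j-k)` at `-1`, `(1/k!) (d/dz)^k z^(-j-2) =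
(-1)^k C(j+1+k,k) (-1)^(-j-2-k) = (-1)^j C(j+k+1,k)` (`iter_deriv_zpow`, `iter_deriv_pow`).
In particular `cQ n = qq n 1`. -/
def S_QD : Prop := ∀ n k : ℕ, iteratedDeriv k (Q n) (-1) = (k.factorial : ℂ) * (qq n k : ℂ)

/-- job MOM: from `S_SM`, `S_PHI`.  The exact recursion of the moments for `|s| ≤ 1/5`:
`x^(k+1) ∘ A = (sx)^(k+1) (1+sx)^(-k-1) = ∑_j (-1)^(j-k) C(j,k) (sx)^(j+1)` and
`x^(k+1) ∘ B = (1+sx)^(-k-1) = 1 + ∑_j (-1)^(j+1) C(j+k+1,k) (sx)^(j+1)`, absolutely convergent for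
`|sx| ≤ 2/5` (all `j ≥ 0`; `C(j,k) = 0` for `j < k`).  `gN (k+1) s (N+1) 0 = (1/2)^N ∑ over words` is linear in the
function, so `gN (k+1) s (N+1) 0 = 1/2 + (1/2) ∑_j β_(j,k) s^(j+1) gN (j+1) s N 0` (prove
`(Lo s)^[N] (∑_j a_j f_j) x = ∑_j a_j (Lo s)^[N] f_j x` for pointwise convergent sums on the ball), then
`N → ∞` by dominated convergence (`|gN (j+1) s N 0| ≤ 2^(j+1)`). -/
def S_MOM : Prop := ∀ s : ℂ, ‖s‖ ≤ 1 / 5 → ∀ k : ℕ,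
  HasSum (fun j : ℕ => 1 / 2 * ((-1) ^ j * ((-1) ^ k * ((j.choose k : ℕ) : ℂ) -
    (((j + k + 1).choose k : ℕ) : ℂ))) * s ^ (j + 1) * Mo (j + 1) s) (Mo (k + 1) s - 1 / 2)

/-- job COEF: from `S_MOM`, `S_PHI`, `S_QD`.
By strong induction on `n`, for every `k`: `Mo (k+1) s - ∑_{i<n} qq i k s^i = O(s^n)` as `s → 0`
(the terms `j < n` of `S_MOM` by induction, the rest is `O(s^(n+1))`; recursion of `qq`).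
`Mo 2` is analytic on `|s| < 1/5`, bounded by `4`, so its Taylor coefficients are `qq n 1 = cQ n`
(uniqueness) and Cauchy's estimate gives the bound. -/
def S_COEF : Prop := (∀ n : ℕ, ‖cQ n‖ ≤ 4 * 6 ^ n) ∧
  ∀ s : ℂ, ‖s‖ < 1 / 6 → HasSum (fun n : ℕ => cQ n * s ^ n) (Mo 2 s)

/-- job TAUB (self-contained): a Tauberian lemma for Laplace transforms.  For `c > K` the function
`T ↦ exp(-cT) G(T)` (`0` for `T < 0`) is continuous and integrable with Fourier transform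
`y ↦ H(c + iy)` (up to the factor `2π`), which is integrable (`|H| ≤ C/|v|²`, continuous), so by
Fourier inversion `G(T) = (1/2π) ∫ H(c+iy) exp((c+iy)T) dy` for `T ≥ 0`.  Shift the line from `c` to
`ε > 0` (rectangles; the horizontal sides are `O(R⁻²)`) and let `ε → 0` by dominated convergence
(`|H(ε+iy)| ≤ C (|y|^(α-1) + 1)` for `|y| ≤ 1` (one may assume `α ≤ 1`, the bound for `|v| ≤ 1` only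
gets weaker when `α` is replaced by `min α 1`), `C/y²` for `|y| ≥ 1`): `G(T) = (1/2π) ∫ H(iy) exp(iyT) dy`,
which tends to `0` by the Riemann-Lebesgue lemma. -/
def S_TAUB : Prop := ∀ (G : ℝ → ℂ) (H : ℂ → ℂ) (C K α : ℝ), 0 < K → 0 < α →
  ContinuousOn G (Set.Ici 0) → G 0 = 0 → (∀ T : ℝ, 0 ≤ T → ‖G T‖ ≤ C * Real.exp (K * T)) →
  (∀ v : ℂ, K < v.re → H v = ∫ T in Set.Ioi (0 : ℝ), Complex.exp (-v * T) * G T) →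
  DifferentiableOn ℂ H {v | 0 < v.re} → ContinuousOn H ({v | 0 ≤ v.re} \ {0}) →
  (∀ v : ℂ, 0 ≤ v.re → v ≠ 0 → ‖v‖ ≤ 1 → ‖H v‖ ≤ C * ‖v‖ ^ (α - 1)) →
  (∀ v : ℂ, 0 ≤ v.re → 1 ≤ ‖v‖ → ‖H v‖ ≤ C / ‖v‖ ^ 2) →
  Tendsto G atTop (𝓝 0)

/-- job BOR: from `S_TAUB`.  `G(T) = ∫_0^T (Λ(t) - φ(1)) e^(-t) dt`,
`H(v) = (φ(1/(1+v)) - φ(1))/((1+v) v)`.  `|Λ(t)| ≤ 4 e^(6t)`; for `Re v > 6`: by Fubini
`∫_0^∞ e^(-vT) G(T) dT = (1/v) ∫_0^∞ e^(-(1+v)t)(Λ(t) - φ(1)) dt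
= (1/v)(∑ c_n (1+v)^(-n-1) - φ(1)/(1+v)) = H(v)` (termwise integration,
`|1/(1+v)| < 1/6`).  `v ↦ 1/(1+v)` maps `Re v > 0` to the open disc and `Re v ≥ 0` to the closed
disc with diameter `[0,1]`.  `|H(v)| ≤ C|1/(1+v) - 1|^α/|v(1+v)| ≤ C|v|^(α-1)`, and
`φ` is bounded on the compact disc, so `|H(v)| ≤ C'/|v|²`.  Conclusion:
`∫_0^T Λ(t) e^(-t) dt = G(T) + φ(1)(1 - e^(-T))`. -/
def S_BOR : Prop := ∀ (φ : ℂ → ℂ) (c : ℕ → ℂ), (∀ n : ℕ, ‖c n‖ ≤ 4 * 6 ^ n) →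
  (∀ s : ℂ, ‖s‖ < 1 / 6 → HasSum (fun n : ℕ => c n * s ^ n) (φ s)) →
  DifferentiableOn ℂ φ (Metric.ball (1 / 2) (1 / 2)) → ContinuousOn φ cd →
  (∃ C α : ℝ, 0 < α ∧ ∀ s ∈ cd, ‖φ s - φ 1‖ ≤ C * ‖s - 1‖ ^ α) →
  (∀ t : ℂ, Summable (fun n : ℕ => c n / (n.factorial : ℂ) * t ^ n)) ∧
  Tendsto (fun T : ℝ => ∫ t in (0 : ℝ)..T, (∑' n : ℕ, c n / (n.factorial : ℂ) * (t : ℂ) ^ n) *
    Complex.exp (-(t : ℂ))) atTop (𝓝 (φ 1))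

/-- job QM (self-contained): functional equations of the question mark function.
`qm x = 2^(1-a) - 2^(-a) qm (gauss x)` for `0 < x ≤ 1`, `a = ⌊1/x⌋` (split off the first term);
`gauss (x/(1+x)) = gauss x` and the first partial quotient of `x/(1+x)` is one more than that
of `x` (`1/(x/(1+x)) = 1 + 1/x`); for `0 < x < 1`, `1/(1+x) ` has first partial quotient `1`
and `gauss (1/(1+x)) = x`; `x = 0`, `x = 1` directly (`qm 1 = 1`, `qm (1/2) = 1/2`).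
`0 ≤ qm ≤ 1`: alternating series with terms decreasing to zero, or: the bounded function `qm`
satisfies the recursion, iterate.  Summability: the terms are at most `2^(-k)`. -/
def S_QM : Prop := qm 0 = 0 ∧ qm 1 = 1 ∧ ∀ x : ℝ, 0 ≤ x → x ≤ 1 → 0 ≤ qm x ∧ qm x ≤ 1 ∧
  qm (x / (1 + x)) = qm x / 2 ∧ qm (1 / (1 + x)) = 1 - qm x / 2

/-- job ST: from `S_QM`.  Monotone on `[0,1]`: let `M` be the supremum of `qm x - qm y`, `x < y`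
(all in `[0,1]`).  If `y ≤ 1/2`: `x = X/(1+X)`, `y = Y/(1+Y)`, difference halves; if `x ≥ 1/2`:
`x = 1/(1+X)`, `y = 1/(1+Y)`, `X > Y`: difference is `(qm Y - qm X)/2`; if `x ≤ 1/2 ≤ y`:
`qm x ≤ 1/2 ≤ qm y`.  So `2^k (qm x - qm y) ≤ 1` for all `k` by induction.
Continuity: the monotone function `x ↦ qm(clamp x)` has range containing all `j/2^n` in `[0,1]`
(the range contains `0`, `1` and is closed under `y ↦ y/2`, `y ↦ 1 - y/2`), hence is continuous: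
`Monotone.continuous_of_...` for a function into `[0,1]` or a direct argument: for each `n`,
the points with values `j/2^n` cut `[0,1]` into intervals of oscillation `2^(-n)`.
Then the Stieltjes function. -/
def S_ST : Prop := ∃ F : StieltjesFunction ℝ, (∀ x : ℝ, x < 0 → F x = 0) ∧
  (∀ x : ℝ, 0 ≤ x → x ≤ 1 → F x = qm x) ∧ (∀ x : ℝ, 1 < x → F x = 1) ∧ Continuous F

/-- job INV: from `S_QM` and the given continuous Stieltjes function `F` (`S_ST`).  `μ = F.measure` is a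
probability measure without atoms, concentrated on `[0,1]`.  It equals
`(1/2)(map a μ + map b μ)`, `a x = x/(1+x)`, `b x = 1/(1+x)` (for instance through
`Measure.ext_of_Iic`; for `t ∈ [0,1/2)`: `μ(Iic t) = qm t = (1/2) qm(t/(1-t))`, for `t ∈ [1/2,1]`:
`qm t = 1 - (1/2) qm((1-t)/t)`). -/
def S_INV : Prop := ∀ F : StieltjesFunction ℝ, (∀ x : ℝ, x < 0 → F x = 0) →
  (∀ x : ℝ, 0 ≤ x → x ≤ 1 → F x = qm x) → (∀ x : ℝ, 1 < x → F x = 1) → Continuous F →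
  F.measure Set.univ = 1 ∧ F.measure (Set.Icc 0 1)ᶜ = 0 ∧
  ∀ f : ℝ → ℂ, ContinuousOn f (Set.Icc 0 1) →
    ∫ x in Set.Icc 0 1, f x ∂F.measure =
      ∫ x in Set.Icc 0 1, (f (x / (1 + x)) + f (1 / (1 + x))) / 2 ∂F.measure

/-- job FIN: from `S_CON`, `S_PHI`, `S_SM`..., `S_INV`: the second moment is `Mo 2 1`.
`gN 2 1 (N+1) x = (gN 2 1 N (x/(1+x)) + gN 2 1 N (1/(1+x)))/2`, so `∫ gN 2 1 N dμ = ∫ x² dμ` for all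
`N` by `S_INV` and induction (`gN 2 1 N` is continuous on `[0,1]`), and `gN 2 1 N x → Mo 2 1` uniformly on
`[0,1]` by `S_CON` (`[0,1] ⊆ W 1` is stable under `A`: `b_m(1) = 1/m`) and `S_PHI`. -/
def S_FIN : Prop := ∀ F : StieltjesFunction ℝ, (∀ x : ℝ, x < 0 → F x = 0) →
  (∀ x : ℝ, 0 ≤ x → x ≤ 1 → F x = qm x) → (∀ x : ℝ, 1 < x → F x = 1) → Continuous F →
  ((∫ x in Set.Icc (0 : ℝ) 1, x ^ 2 ∂F.measure : ℝ) : ℂ) = Mo 2 1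

end Pool.Agent.Q268.MQ
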