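import Pool.Agent.Q268.MQ.Stm

set_option autoImplicit false

/-! Job TAUB: a Tauberian lemma for Laplace transforms. -/

namespace Pool.Agent.Q268.MQ

open Complex Filter Topology MeasureTheory Set
open scoped FourierTransform RealInnerProductSpace

/-- moving a vertical line of integration -/
lemma contour {F : ℂ → ℂ} {C a b : ℝ} (ha : 0 < a) (hab : a ≤ b)
    (hd : DifferentiableOn ℂ F {v | 0 < v.re})
    (hF : ∀ v : ℂ, a ≤ v.re → v.re ≤ b → 1 ≤ ‖v‖ → ‖F v‖ ≤ C / ‖v‖ ^ 2)
    (hia : Integrable (fun y : ℝ => F (a + y * I)))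
    (hib : Integrable (fun y : ℝ => F (b + y * I))) :
    ∫ y : ℝ, F (a + y * I) = ∫ y : ℝ, F (b + y * I) := by
  have hC : 0 ≤ C := by
    have h := hF (a + (1:ℝ) * I) (by simp) (by simpa using hab) (by
      have := Complex.abs_im_le_norm (a + (1:ℝ) * I)
      simpa using this)
    have h0 := (norm_nonneg _).trans h
    by_contra hn
    push Not at hn
    have : C / ‖(a:ℂ) + (1:ℝ) * I‖ ^ 2 < 0 := by
      apply div_neg_of_neg_of_pos hn
      have : 1 ≤ ‖(a:ℂ) + (1:ℝ) * I‖ := by
        have := Complex.abs_im_le_norm (a + (1:ℝ) * I)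
        simpa using this
      positivity
    linarith
  -- rectangles
  have hrect : ∀ R : ℝ, 1 ≤ R → ‖(∫ y in (-R)..R, F (b + y * I)) - ∫ y in (-R)..R, F (a + y * I)‖ ≤
      2 * (C / R ^ 2 * |b - a|) := by
    intro R hR
    have h := Complex.integral_boundary_rect_eq_zero_of_differentiableOn F (a - R * I) (b + R * I) (by
      apply hd.mono
      intro v hv
      rw [mem_reProdIm] at hv
      have h1 := hv.1
      simp only [sub_re, ofReal_re, mul_re, I_re, mul_zero, ofReal_im, I_im, mul_one, sub_zero,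
        add_re, add_zero] at h1
      have h1' : v.re ∈ uIcc a b := by simpa using h1
      rw [uIcc_of_le hab] at h1'
      exact lt_of_lt_of_le ha h1'.1)
    simp only [sub_re, ofReal_re, mul_re, I_re, mul_zero, ofReal_im, I_im, mul_one, sub_zero,
        add_re, sub_im, mul_im, add_zero, zero_sub, add_im, zero_add, smul_eq_mul] at h
    have hb1 : ‖∫ x in a..b, F (x + ((-R : ℝ) : ℂ) * I)‖ ≤ C / R ^ 2 * |b - a| := by
      apply intervalIntegral.norm_integral_le_of_norm_le_const
      intro x hx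
      rw [uIoc_of_le hab] at hx
      have hn : R ≤ ‖(x:ℂ) + ((-R : ℝ) : ℂ) * I‖ := by
        have := Complex.abs_im_le_norm ((x:ℂ) + ((-R : ℝ) : ℂ) * I)
        simp only [add_im, ofReal_im, mul_im, ofReal_re, I_im, mul_one, I_re, mul_zero, add_zero,
          zero_add, abs_neg, abs_of_nonneg (by linarith : (0:ℝ) ≤ R)] at this
        exact this
      refine (hF _ (by simpa using hx.1.le) (by simpa using hx.2) (hR.trans hn)).trans ?_
      gcongr
    have hb2 : ‖∫ x in a..b, F (x + (R : ℂ) * I)‖ ≤ C / R ^ 2 * |b - a| := by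
      apply intervalIntegral.norm_integral_le_of_norm_le_const
      intro x hx
      rw [uIoc_of_le hab] at hx
      have hn : R ≤ ‖(x:ℂ) + (R : ℂ) * I‖ := by
        have := Complex.abs_im_le_norm ((x:ℂ) + (R : ℂ) * I)
        simp only [add_im, ofReal_im, mul_im, ofReal_re, I_im, mul_one, I_re, mul_zero, add_zero,
          zero_add, abs_of_nonneg (by linarith : (0:ℝ) ≤ R)] at this
        exact this
      refine (hF _ (by simpa using hx.1.le) (by simpa using hx.2) (hR.trans hn)).trans ?_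
      gcongr
    have e : (∫ y in (-R)..R, F (b + y * I)) - ∫ y in (-R)..R, F (a + y * I) =
        I * ((∫ x in a..b, F (x + ((-R : ℝ) : ℂ) * I)) - ∫ x in a..b, F (x + (R : ℂ) * I)) := by
      have h2 := congrArg (fun z => I * z) h
      simp only [mul_zero] at h2
      linear_combination (-1) * h2 + ((∫ y in (-R)..R, F (b + y * I)) -
        ∫ y in (-R)..R, F (a + y * I)) * I_mul_I
    rw [e, norm_mul, norm_I, one_mul]
    calc _ ≤ _ := norm_sub_le _ _
      _ ≤ _ := by linarith
  have h1 : Tendsto (fun R : ℝ => (∫ y in (-R)..R, F (b + y * I)) - ∫ y in (-R)..R, F (a + y * I))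
      atTop (𝓝 ((∫ y : ℝ, F (b + y * I)) - ∫ y : ℝ, F (a + y * I))) :=
    (intervalIntegral_tendsto_integral hib tendsto_neg_atTop_atBot tendsto_id).sub
      (intervalIntegral_tendsto_integral hia tendsto_neg_atTop_atBot tendsto_id)
  have h2 : Tendsto (fun R : ℝ => (∫ y in (-R)..R, F (b + y * I)) - ∫ y in (-R)..R, F (a + y * I))
      atTop (𝓝 0) := by
    apply squeeze_zero_norm' (a := fun R => 2 * (C / R ^ 2 * |b - a|))
    · filter_upwards [eventually_ge_atTop 1] with R hR using hrect R hR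
    · have : Tendsto (fun R : ℝ => C / R ^ 2) atTop (𝓝 0) :=
        tendsto_const_nhds.div_atTop (tendsto_pow_atTop (by norm_num))
      have := (this.mul_const |b - a|).const_mul 2
      simpa using this
  have h3 := tendsto_nhds_unique h1 h2
  exact (sub_eq_zero.1 h3).symm

/-- Fourier inversion on the line `Re v = K + 1` -/
lemma inversion {G : ℝ → ℂ} {H : ℂ → ℂ} {C K : ℝ} (hK : 0 < K)
    (hG : ContinuousOn G (Ici 0)) (hG0 : G 0 = 0) (hGb : ∀ T : ℝ, 0 ≤ T → ‖G T‖ ≤ C * Real.exp (K * T))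
    (hH : ∀ v : ℂ, K < v.re → H v = ∫ T in Ioi (0 : ℝ), cexp (-v * T) * G T)
    (hi : Integrable (fun y : ℝ => H ((K + 1 : ℝ) + y * I))) (T : ℝ) (hT : 0 ≤ T) :
    G T = (2 * Real.pi : ℝ)⁻¹ • ∫ y : ℝ, cexp (((K + 1 : ℝ) + y * I) * T) * H ((K + 1 : ℝ) + y * I) := by
  set c : ℝ := K + 1 with hcdef
  have hC : 0 ≤ C := by
    have := hGb 0 le_rfl
    rw [hG0] at this
    simpa using this
  let f : ℝ → ℂ := fun T => cexp (-(c : ℂ) * (max T 0 : ℝ)) * G (max T 0)
  have hfc : Continuous f := by
    apply Continuous.mul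
    · fun_prop
    · exact hG.comp_continuous (by fun_prop) (fun T => by simp)
  have hf0 : ∀ T, T ≤ 0 → f T = 0 := by
    intro T hT
    simp [f, max_eq_right hT, hG0]
  have hf1 : ∀ T, 0 ≤ T → f T = cexp (-(c : ℂ) * T) * G T := by
    intro T hT
    simp [f, max_eq_left hT]
  have hfi : Integrable f := by
    rw [← integrableOn_univ, ← Iic_union_Ioi (a := (0:ℝ)), integrableOn_union]
    constructor
    · have : EqOn f 0 (Iic 0) := fun T hT => hf0 T hT
      exact (integrableOn_congr_fun this measurableSet_Iic).2 integrableOn_zero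
    · have hexp : IntegrableOn (fun T : ℝ => C * Real.exp (-1 * T)) (Ioi 0) :=
        (integrableOn_exp_mul_Ioi (by norm_num) 0).const_mul C
      refine Integrable.mono' hexp hfc.aestronglyMeasurable ?_
      rw [ae_restrict_iff' measurableSet_Ioi]
      refine Eventually.of_forall (fun T hT => ?_)
      have hT' : (0:ℝ) < T := hT
      rw [hf1 T hT'.le, norm_mul, Complex.norm_exp]
      have e1 : (-(c:ℂ) * T).re = -c * T := by simp
      rw [e1]
      calc Real.exp (-c * T) * ‖G T‖ ≤ Real.exp (-c * T) * (C * Real.exp (K * T)) :=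
            mul_le_mul_of_nonneg_left (hGb T hT'.le) (Real.exp_nonneg _)
        _ = C * (Real.exp (-c * T) * Real.exp (K * T)) := by ring
        _ = C * Real.exp (-1 * T) := by
            rw [← Real.exp_add]; congr 2; rw [hcdef]; ring
  have hfour : ∀ w : ℝ, 𝓕 f w = H (c + (2 * Real.pi * w : ℝ) * I) := by
    intro w
    rw [Real.fourier_real_eq_integral_exp_smul, hH _ (by simp [hcdef])]
    rw [← integral_add_compl (s := Ioi (0:ℝ)) measurableSet_Ioi]
    · have hz : ∫ v in (Ioi (0:ℝ))ᶜ, cexp (↑(-2 * Real.pi * v * w) * I) • f v = 0 := by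
        rw [compl_Ioi]
        rw [setIntegral_congr_fun (g := fun _ => (0:ℂ)) measurableSet_Iic]
        · simp
        · intro v hv
          simp [hf0 v hv]
      rw [hz, add_zero]
      apply setIntegral_congr_fun measurableSet_Ioi
      intro v hv
      have hv' : (0:ℝ) < v := hv
      simp only [smul_eq_mul]
      rw [hf1 v hv'.le, ← mul_assoc, ← Complex.exp_add]
      congr 2
      push_cast
      ring
    · refine (hfi.norm).mono' ?_ ?_
      · exact (Continuous.smul (by fun_prop : Continuous (fun v : ℝ => cexp (↑(-2 * Real.pi * v * w) * I)))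
          hfc).aestronglyMeasurable
      · refine Eventually.of_forall (fun v => ?_)
        rw [norm_smul, Complex.norm_exp_ofReal_mul_I, one_mul]
  have hFi : Integrable (𝓕 f) := by
    have : (𝓕 f) = fun w : ℝ => H (c + ((2 * Real.pi) * w : ℝ) * I) := by
      funext w; exact hfour w
    rw [this]
    exact hi.comp_mul_left' (by positivity : (2 * Real.pi : ℝ) ≠ 0)
  have hinv := congrFun (hfc.fourierInv_fourier_eq hfi hFi) T
  rw [Real.fourierInv_eq'] at hinv
  rw [hf1 T hT] at hinv
  have e2 : ∀ w : ℝ, cexp (↑(2 * Real.pi * ⟪w, T⟫) * I) • 𝓕 f w =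
      (fun y : ℝ => cexp ((y * T : ℝ) * I) * H (c + y * I)) ((2 * Real.pi) * w) := by
    intro w
    rw [hfour w, smul_eq_mul]
    simp only [RCLike.inner_apply, conj_trivial]
    congr 3
    · push_cast; ring
  simp_rw [e2] at hinv
  rw [Measure.integral_comp_mul_left (fun y : ℝ => cexp ((y * T : ℝ) * I) * H (c + y * I)),
    abs_of_pos (by positivity)] at hinv
  have e3 : G T = cexp ((c : ℂ) * T) * (cexp (-(c : ℂ) * T) * G T) := by
    rw [← mul_assoc, ← Complex.exp_add]
    have : (c : ℂ) * T + -(c : ℂ) * T = 0 := by ring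
    rw [this, Complex.exp_zero, one_mul]
  rw [e3, ← hinv, mul_smul_comm, ← integral_const_mul]
  congr 1
  apply integral_congr_ae
  refine Eventually.of_forall (fun y => ?_)
  simp only
  rw [← mul_assoc, ← Complex.exp_add]
  congr 2
  push_cast
  ring

/-- the integrable majorant -/
noncomputable def maj (C β : ℝ) (y : ℝ) : ℝ :=
  2 * C * (1 + y ^ 2)⁻¹ + C * (Icc (-1 : ℝ) 1).indicator (fun y => |y| ^ (β - 1)) y

lemma maj_integrable (C β : ℝ) (hβ : 0 < β) : Integrable (maj C β) := by
  have h0 : ∀ b : ℝ, 0 ≤ b → IntervalIntegrable (fun x : ℝ => |x| ^ (β - 1)) volume 0 b := by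
    intro b hb
    have h := intervalIntegral.intervalIntegrable_rpow' (a := 0) (b := b) (r := β - 1) (by linarith)
    refine h.congr_uIoo (fun x hx => ?_)
    rw [uIoo_of_le hb] at hx
    simp only
    rw [abs_of_pos hx.1]
  have h1 : IntervalIntegrable (fun x : ℝ => |x| ^ (β - 1)) volume (-1) 1 := by
    have h2 := ((IntervalIntegrable.iff_comp_neg (by simp)).1 (h0 1 zero_le_one))
    simp only [abs_neg, neg_zero] at h2
    exact h2.symm.trans (h0 1 zero_le_one)
  rw [intervalIntegrable_iff_integrableOn_Icc_of_le (by norm_num)] at h1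
  have h3 : Integrable ((Icc (-1 : ℝ) 1).indicator (fun y : ℝ => |y| ^ (β - 1))) :=
    (integrable_indicator_iff measurableSet_Icc).2 h1
  exact (integrable_inv_one_add_sq.const_mul (2 * C)).add (h3.const_mul C)

lemma maj_bound {H : ℂ → ℂ} {C α : ℝ} (hC : 0 ≤ C) (hα : 0 < α)
    (hs : ∀ v : ℂ, 0 ≤ v.re → v ≠ 0 → ‖v‖ ≤ 1 → ‖H v‖ ≤ C * ‖v‖ ^ (α - 1))
    (hl : ∀ v : ℂ, 0 ≤ v.re → 1 ≤ ‖v‖ → ‖H v‖ ≤ C / ‖v‖ ^ 2) (v : ℂ) (hv : 0 ≤ v.re)
    (hv0 : v.im ≠ 0) : ‖H v‖ ≤ maj C (min α 1) v.im := by
  have him := Complex.abs_im_le_norm v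
  have hv1 : v ≠ 0 := fun h => hv0 (by rw [h]; rfl)
  have hpos : 0 < |v.im| := abs_pos.2 hv0
  have hnn : 0 ≤ C * (Icc (-1 : ℝ) 1).indicator (fun y => |y| ^ (min α 1 - 1)) v.im := by
    apply mul_nonneg hC
    apply indicator_nonneg
    intro x _
    positivity
  have hnn2 : 0 ≤ 2 * C * (1 + v.im ^ 2)⁻¹ := by positivity
  unfold maj
  rcases le_total 1 ‖v‖ with h1 | h1
  · have h2 := hl v hv h1
    have h3 : C / ‖v‖ ^ 2 ≤ 2 * C * (1 + v.im ^ 2)⁻¹ := by
      rw [← div_eq_mul_inv, div_le_div_iff₀ (by positivity) (by positivity)]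
      have h4 : v.im ^ 2 ≤ ‖v‖ ^ 2 := by
        rw [← sq_abs v.im]; exact pow_le_pow_left₀ (abs_nonneg _) him 2
      have h5 : 1 ≤ ‖v‖ ^ 2 := one_le_pow₀ h1
      nlinarith
    linarith
  · have h2 := hs v hv hv1 h1
    have hvp : 0 < ‖v‖ := norm_pos_iff.2 hv1
    have h3 : ‖v‖ ^ (α - 1) ≤ ‖v‖ ^ (min α 1 - 1) :=
      Real.rpow_le_rpow_of_exponent_ge hvp h1 (by linarith [min_le_left α 1])
    have h4 : ‖v‖ ^ (min α 1 - 1) ≤ |v.im| ^ (min α 1 - 1) :=
      Real.rpow_le_rpow_of_nonpos hpos him (by linarith [min_le_right α 1])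
    have h5 : v.im ∈ Icc (-1 : ℝ) 1 := abs_le.1 (him.trans h1)
    rw [indicator_of_mem h5]
    have h6 : C * ‖v‖ ^ (α - 1) ≤ C * |v.im| ^ (min α 1 - 1) :=
      mul_le_mul_of_nonneg_left (h3.trans h4) hC
    linarith

theorem t_TAUB : S_TAUB := by
  intro G H C K α hK hα hG hG0 hGb hH hd hc hs hl
  have hC : 0 ≤ C := by
    have := hGb 0 le_rfl
    rw [hG0] at this
    simpa using this
  have hβ : 0 < min α 1 := lt_min hα one_pos
  have hmaj := maj_integrable C (min α 1) hβ
  have hne : ∀ᵐ y : ℝ, y ≠ 0 := by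
    rw [ae_iff]; simp
  have hHb : ∀ a : ℝ, 0 ≤ a → ∀ᵐ y : ℝ, ‖H (a + y * I)‖ ≤ maj C (min α 1) y := by
    intro a ha
    filter_upwards [hne] with y hy
    have := maj_bound hC hα hs hl (a + y * I) (by simpa using ha) (by simpa using hy)
    simpa using this
  have hline : ∀ a : ℝ, 0 < a → Continuous (fun y : ℝ => H (a + y * I)) := by
    intro a ha
    have : Continuous (fun y : ℝ => ((a : ℂ) + y * I)) := by fun_prop
    apply hd.continuousOn.comp_continuous this
    intro y
    simp [ha]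
  have hexpn : ∀ (T a y : ℝ), ‖cexp (((a:ℂ) + y * I) * T)‖ = Real.exp (a * T) := by
    intro T a y
    rw [Complex.norm_exp]
    congr 1
    simp
  have hlineF : ∀ T : ℝ, ∀ a : ℝ, 0 < a →
      Integrable (fun y : ℝ => cexp (((a:ℂ) + y * I) * T) * H (a + y * I)) := by
    intro T a ha
    have hcont := hline a ha
    refine Integrable.mono' (hmaj.const_mul (Real.exp (a * T)))
      (Continuous.mul (by fun_prop) hcont).aestronglyMeasurable ?_
    filter_upwards [hHb a ha.le] with y hy
    rw [norm_mul, hexpn]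
    exact mul_le_mul_of_nonneg_left hy (Real.exp_nonneg _)
  have hlineH : Integrable (fun y : ℝ => H ((K + 1 : ℝ) + y * I)) := by
    have := hlineF 0 (K + 1) (by linarith)
    simpa using this
  have hshift : ∀ T : ℝ, 0 ≤ T → ∀ ε : ℝ, 0 < ε → ε ≤ K + 1 →
      ∫ y : ℝ, cexp (((ε:ℂ) + y * I) * T) * H (ε + y * I) =
      ∫ y : ℝ, cexp ((((K + 1 : ℝ):ℂ) + y * I) * T) * H ((K + 1 : ℝ) + y * I) := by
    intro T hT ε hε hεK
    refine contour (F := fun v => cexp (v * T) * H v) (C := Real.exp ((K + 1) * T) * C) hε hεK ?_ ?_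
      (hlineF T ε hε) (hlineF T (K + 1) (by linarith))
    · apply DifferentiableOn.mul _ hd
      apply Differentiable.differentiableOn
      fun_prop
    · intro v hv1 hv2 hv3
      rw [norm_mul, mul_div_assoc]
      apply mul_le_mul _ (hl v (hε.le.trans hv1) hv3) (norm_nonneg _) (Real.exp_nonneg _)
      rw [Complex.norm_exp]
      apply Real.exp_le_exp.2
      have : (v * T).re = v.re * T := by simp
      rw [this]
      exact mul_le_mul_of_nonneg_right hv2 hT
  have hlim : ∀ T : ℝ, 0 ≤ T → Tendsto (fun ε : ℝ => ∫ y : ℝ, cexp (((ε:ℂ) + y * I) * T) * H (ε + y * I))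
      (𝓝[>] 0) (𝓝 (∫ y : ℝ, cexp ((y * I) * T) * H (y * I))) := by
    intro T hT
    apply tendsto_integral_filter_of_dominated_convergence
      (fun y => Real.exp ((K + 1) * T) * maj C (min α 1) y)
    · filter_upwards [self_mem_nhdsWithin] with ε hε
      exact (Continuous.mul (by fun_prop) (hline ε hε)).aestronglyMeasurable
    · have h1 : ∀ᶠ ε : ℝ in 𝓝[>] 0, ε ≤ K + 1 := by
        have : ∀ᶠ ε : ℝ in 𝓝 0, ε < K + 1 := Iio_mem_nhds (by linarith)
        filter_upwards [nhdsWithin_le_nhds this] with ε hε using hε.le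
      filter_upwards [self_mem_nhdsWithin, h1] with ε hε hε1
      have hε0 : (0:ℝ) < ε := hε
      filter_upwards [hHb ε hε0.le] with y hy
      rw [norm_mul, hexpn]
      apply mul_le_mul _ hy (norm_nonneg _) (Real.exp_nonneg _)
      apply Real.exp_le_exp.2
      exact mul_le_mul_of_nonneg_right hε1 hT
    · exact hmaj.const_mul _
    · filter_upwards [hne] with y hy
      apply Tendsto.mul
      · have : Continuous (fun ε : ℝ => cexp (((ε:ℂ) + y * I) * T)) := by fun_prop
        have h2 := this.tendsto 0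
        simp only [ofReal_zero, zero_add] at h2
        exact h2.mono_left nhdsWithin_le_nhds
      · have hy1 : (y * I : ℂ) ≠ 0 := by simp [hy]
        have hcw : ContinuousWithinAt H ({v | 0 ≤ v.re} \ {0}) (y * I) :=
          hc _ ⟨by simp, by simpa using hy⟩
        have h3 : Tendsto (fun ε : ℝ => ((ε:ℂ) + y * I)) (𝓝[>] 0)
            (𝓝[({v | 0 ≤ v.re} \ {0})] (y * I)) := by
          apply tendsto_nhdsWithin_iff.2
          constructor
          · have : Continuous (fun ε : ℝ => ((ε:ℂ) + y * I)) := by fun_prop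
            have h2 := this.tendsto 0
            simp only [ofReal_zero, zero_add] at h2
            exact h2.mono_left nhdsWithin_le_nhds
          · filter_upwards [self_mem_nhdsWithin] with ε hε
            have hε0 : (0:ℝ) < ε := hε
            refine ⟨by simpa using hε0.le, ?_⟩
            intro h
            have := congrArg Complex.im h
            simp at this
            exact hy this
        exact hcw.tendsto.comp h3
  have hG2 : ∀ T : ℝ, 0 ≤ T → G T = (2 * Real.pi : ℝ)⁻¹ • ∫ y : ℝ, cexp ((y * I) * T) * H (y * I) := by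
    intro T hT
    rw [inversion hK hG hG0 hGb hH hlineH T hT]
    congr 1
    apply tendsto_nhds_unique _ (hlim T hT)
    apply tendsto_const_nhds.congr'
    have h1 : ∀ᶠ ε : ℝ in 𝓝[>] 0, ε ≤ K + 1 := by
      have : ∀ᶠ ε : ℝ in 𝓝 0, ε < K + 1 := Iio_mem_nhds (by linarith)
      filter_upwards [nhdsWithin_le_nhds this] with ε hε using hε.le
    filter_upwards [self_mem_nhdsWithin, h1] with ε hε hε1
    exact (hshift T hT ε hε hε1).symm
  have hRL := Real.tendsto_integral_exp_smul_cocompact (fun v : ℝ => H ((2 * Real.pi * v : ℝ) * I))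
  have hneg : Tendsto (fun T : ℝ => -T) atTop (cocompact ℝ) := by
    rw [cocompact_eq_atBot_atTop]
    exact tendsto_neg_atTop_atBot.mono_right le_sup_left
  have hRL2 := hRL.comp hneg
  apply hRL2.congr'
  filter_upwards [eventually_ge_atTop 0] with T hT
  rw [hG2 T hT]
  have h5 := Measure.integral_comp_mul_left (fun y : ℝ => cexp ((y * I) * T) * H (y * I)) (2 * Real.pi)
  rw [abs_of_pos (by positivity)] at h5
  rw [← h5]
  simp only [Function.comp_apply]
  apply integral_congr_ae
  refine Eventually.of_forall (fun v => ?_)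
  simp only
  rw [Circle.smul_def, Real.fourierChar_apply, smul_eq_mul]
  congr 2
  push_cast
  ring

end Pool.Agent.Q268.MQ
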